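import Pool.Agent.Lib.MP_8daebb_an.HK.Int

/-! Heat averages against masses of balls. -/

open MeasureTheory Metric Filter Topology Set Real
open scoped RealInnerProductSpace

namespace Pool.Agent.Lib.MP_8daebb_an.HK

variable {V : Type*} [NormedAddCommGroup V] [InnerProductSpace ℝ V] [FiniteDimensional ℝ V]
  [MeasurableSpace V] [BorelSpace V] {f g : V → ℝ} {s t : ℝ}

/-- The mass of a ball is bounded by a heat average. -/
theorem mass_le_P (hf : BM f) (h0 : ∀ y, 0 ≤ f y) (ht : 0 < t) {A : ℝ} {x : V} {B : Set V}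
    (hB : MeasurableSet B) (h : ∀ y ∈ B, ‖y - x‖ ^ 2 ≤ A * t) :
    (4 * π * t) ^ (-hd V) * exp (-(A / 4)) * ∫ y in B, f y ≤ P t f x := by
  rw [← integral_indicator hB, ← integral_const_mul]
  refine integral_mono_of_nonneg (Eventually.of_forall fun y => ?_) (hf.integrable_G ht x)
    (Eventually.of_forall fun y => ?_)
  · exact mul_nonneg (by positivity) (indicator_nonneg (fun y _ => h0 y) y)
  · by_cases hy : y ∈ B
    · simp only [indicator_of_mem hy]
      exact mul_le_mul_of_nonneg_right (G_lower ht (h y hy)) (h0 y)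
    · simp only [indicator_of_notMem hy, mul_zero]
      exact mul_nonneg (G_pos ht _).le (h0 y)

theorem mass_ball_le_P (hf : BM f) (h0 : ∀ y, 0 ≤ f y) (ht : 0 < t) {A r : ℝ} (x : V)
    (h : r ^ 2 ≤ A * t) : ∫ y in ball x r, f y ≤ (4 * π * t) ^ hd V * exp (A / 4) * P t f x := by
  have h1 := mass_le_P hf h0 ht (A := A) (x := x) measurableSet_ball (B := ball x r)
    fun y hy => by
      have : ‖y - x‖ < r := by simpa [dist_eq_norm] using hy
      nlinarith [norm_nonneg (y - x)]
  rw [rpow_neg (by positivity), exp_neg, ← mul_inv, inv_mul_le_iff₀ (by positivity)] at h1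
  exact h1

theorem P_le_integral (hf : Integrable f) (h0 : ∀ y, 0 ≤ f y) (ht : 0 < t) (x : V) :
    P t f x ≤ (4 * π * t) ^ (-hd V) * ∫ y, f y := by
  rw [← integral_const_mul]
  exact integral_mono (integrable_G_mul hf ht x) (hf.const_mul _) fun y =>
    mul_le_mul_of_nonneg_right (G_le_zero ht _) (h0 y)

/-- The constant of the sum over shells. -/
noncomputable def cS (k : ℕ) : ℝ := ∑' j : ℕ, ((j : ℝ) + 1) ^ k * exp (-((j : ℝ) ^ 2 / 4))

theorem summable_cS (k : ℕ) :
    Summable fun j : ℕ => ((j : ℝ) + 1) ^ k * exp (-((j : ℝ) ^ 2 / 4)) := by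
  have h := (summable_nat_add_iff 1).2 (Real.summable_pow_mul_exp_neg_nat_mul k
    (show (0 : ℝ) < 1 by norm_num))
  refine Summable.of_nonneg_of_le (fun j => by positivity) (fun j => ?_) (h.mul_left (exp 2))
  push_cast
  rw [mul_left_comm, ← exp_add]
  gcongr
  nlinarith [sq_nonneg ((j : ℝ) / 2 - 1)]

theorem one_le_cS (k : ℕ) : 1 ≤ cS k := by
  have := (summable_cS k).le_tsum 0 (fun j _ => by positivity)
  simpa [cS] using this

/-- Polynomial growth of the masses bounds the heat average. -/
theorem P_le_of_mass (hf : BM f) (h0 : ∀ y, 0 ≤ f y) (ht : 0 < t) {x : V} {Λ : ℝ} {k : ℕ}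
    (h : ∀ r, √t ≤ r → ∫ y in ball x r, f y ≤ Λ * r ^ k) :
    P t f x ≤ cS k * (4 * π * t) ^ (-hd V) * Λ * √t ^ k := by
  have hs : 0 < √t := sqrt_pos.2 ht
  let A : ℕ → Set V := fun j => ball x ((j + 1) * √t) \ ball x (j * √t)
  have hA : ∀ j, MeasurableSet (A j) := fun j => measurableSet_ball.diff measurableSet_ball
  have hd' : Pairwise (Function.onFun Disjoint A) := by
    refine pairwise_disjoint_on A |>.2 fun i j hij => ?_
    refine Set.disjoint_left.2 fun y hi hj => hj.2 (ball_subset_ball ?_ hi.1)
    have : (i : ℝ) + 1 ≤ j := by exact_mod_cast hij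
    gcongr
  have hU : ⋃ j, A j = univ := by
    refine eq_univ_of_forall fun y => mem_iUnion.2 ⟨⌊dist y x / √t⌋₊, ?_, ?_⟩
    · rw [mem_ball, ← div_lt_iff₀ hs]
      exact Nat.lt_floor_add_one _
    · rw [mem_ball, not_lt, ← le_div_iff₀ hs]
      exact Nat.floor_le (by positivity)
  have h1 := hasSum_integral_iUnion hA hd' (f := fun y => G t (y - x) * f y) (μ := volume)
    (hf.integrable_G ht x).integrableOn
  rw [hU, Measure.restrict_univ] at h1
  have h2 := ((summable_cS k).hasSum.mul_right ((4 * π * t) ^ (-hd V) * Λ * √t ^ k))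
  refine (hasSum_le (fun j => ?_) h1 h2).trans_eq (by unfold cS; ring)
  have hj : √t ≤ ((j : ℝ) + 1) * √t := le_mul_of_one_le_left hs.le (by simp)
  have hi := hf.integrableOn (isBounded_ball (x := x) (r := (j + 1) * √t))
  calc ∫ y in A j, G t (y - x) * f y
      ≤ ∫ y in A j, (4 * π * t) ^ (-hd V) * exp (-((j : ℝ) ^ 2 / 4)) * f y := by
        refine setIntegral_mono_on (hf.integrable_G ht x).integrableOn
          ((hi.mono_set sdiff_subset).const_mul _) (hA j) fun y hy => ?_
        refine mul_le_mul_of_nonneg_right ?_ (h0 y)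
        have h3 : j * √t ≤ ‖y - x‖ := by simpa [dist_eq_norm] using hy.2
        have h4 : (j : ℝ) ^ 2 * t ≤ ‖y - x‖ ^ 2 := by
          have := pow_le_pow_left₀ (by positivity) h3 2
          rwa [mul_pow, sq_sqrt ht.le] at this
        unfold G
        refine mul_le_mul_of_nonneg_left (exp_le_exp.2 ?_) (by positivity)
        rw [neg_div, neg_le_neg_iff, le_div_iff₀ (by positivity)]
        linarith
    _ ≤ (4 * π * t) ^ (-hd V) * exp (-((j : ℝ) ^ 2 / 4)) * (Λ * ((j + 1) * √t) ^ k) := by
        rw [integral_const_mul]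
        refine mul_le_mul_of_nonneg_left (le_trans ?_ (h _ hj)) (by positivity)
        exact setIntegral_mono_set hi (Eventually.of_forall h0) sdiff_subset.eventuallyLE
    _ = _ := by rw [mul_pow]; ring

omit [MeasurableSpace V] [BorelSpace V] [FiniteDimensional ℝ V] in
theorem rpow_hd_eq (ht : 0 < t) : t ^ hd V = √t ^ Module.finrank ℝ V := by
  rw [sqrt_eq_rpow, ← rpow_natCast, ← rpow_mul ht.le, hd]
  congr 1
  ring

/-- The form of `P_le_of_mass` for growth of order `r ^ (m - 2)`. -/
theorem mul_P_le_of_mass (hV : 2 ≤ Module.finrank ℝ V) (hf : BM f) (h0 : ∀ y, 0 ≤ f y)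
    (ht : 0 < t) {x : V} {Λ : ℝ}
    (h : ∀ r, √t ≤ r → ∫ y in ball x r, f y ≤ Λ * (r ^ Module.finrank ℝ V / r ^ 2)) :
    t * P t f x ≤ cS (Module.finrank ℝ V - 2) * Λ := by
  have hs : 0 < √t := sqrt_pos.2 ht
  obtain ⟨k, hk⟩ := Nat.exists_eq_add_of_le' hV
  have h1 := P_le_of_mass hf h0 ht (x := x) (Λ := Λ) (k := k) fun r hr => by
    have hr0 : 0 < r := hs.trans_le hr
    have := h r hr
    rwa [hk, pow_add, mul_div_cancel_right₀ _ (by positivity)] at this
  have hΛ : 0 ≤ Λ := by
    have := (setIntegral_nonneg measurableSet_ball fun y _ => h0 y).trans (h _ le_rfl)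
    exact nonneg_of_mul_nonneg_left this (by positivity)
  have h2 : (4 * π * t) ^ (-hd V) ≤ (√t ^ k * t)⁻¹ := by
    rw [rpow_neg (by positivity)]
    refine inv_anti₀ (by positivity) ?_
    have : t ^ hd V = √t ^ k * t := by rw [rpow_hd_eq ht, hk, pow_add, sq_sqrt ht.le]
    rw [← this]
    exact rpow_le_rpow ht.le (by nlinarith [pi_gt_three]) hd_nonneg
  have h3 := one_le_cS k
  rw [hk, Nat.add_sub_cancel]
  calc t * P t f x ≤ t * (cS k * (√t ^ k * t)⁻¹ * Λ * √t ^ k) := by
        refine mul_le_mul_of_nonneg_left (h1.trans ?_) ht.le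
        gcongr
    _ = _ := by field_simp

/-- The part of a heat average that comes from far away. -/
theorem abs_P_le_tail (hg : BM g) (ht : 0 < t) {A : ℝ} {x : V}
    (h : ∀ y, |f y| ≤ g y) (hA : ∀ y, f y ≠ 0 → A * t ≤ ‖y - x‖ ^ 2) :
    |P t f x| ≤ 2 ^ hd V * exp (-(A / 8)) * P (2 * t) g x := by
  refine abs_integral_le_P hg (by positivity) fun y => ?_
  have hG := G_pos (show 0 < 2 * t by positivity) (y - x)
  have g0 := (abs_nonneg _).trans (h y)
  by_cases hy : f y = 0
  · rw [hy, mul_zero, abs_zero]; positivity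
  · rw [abs_mul, abs_G ht.le, ← mul_assoc]
    exact mul_le_mul (G_tail ht (hA y hy)) (h y) (abs_nonneg _) (by positivity)

/-- Splitting a heat average into a set and a far part. -/
theorem P_le_mass_add_tail (hf : BM f) (h0 : ∀ y, 0 ≤ f y) (ht : 0 < t) {A r : ℝ} (x : V)
    (hr : 0 ≤ r) (h : A * t ≤ r ^ 2) :
    P t f x ≤ (4 * π * t) ^ (-hd V) * (∫ y in ball x r, f y) +
      2 ^ hd V * exp (-(A / 8)) * P (2 * t) f x := by
  have e : f = fun y => (ball x r).indicator f y + (ball x r)ᶜ.indicator f y := by
    ext y; simp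
  have h1 := P_le_integral (f := (ball x r).indicator f)
    ((integrable_indicator_iff measurableSet_ball).2 (hf.integrableOn isBounded_ball))
    (indicator_nonneg fun y _ => h0 y) ht x
  have h2 := abs_P_le_tail (f := (ball x r)ᶜ.indicator f) hf ht (A := A) (x := x)
    (fun y => by
      by_cases hy : y ∈ (ball x r)ᶜ <;> simp [hy, abs_of_nonneg, h0])
    (fun y hy => by
      have h3 : y ∈ (ball x r)ᶜ := by
        by_contra h4
        exact hy (indicator_of_notMem h4 _)
      have h4 : r ≤ ‖y - x‖ := by simpa [dist_eq_norm] using h3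
      exact h.trans (pow_le_pow_left₀ hr h4 2))
  rw [integral_indicator measurableSet_ball] at h1
  calc P t f x = P t ((ball x r).indicator f) x + P t ((ball x r)ᶜ.indicator f) x := by
        rw [← P_add (hf.indicator measurableSet_ball) (hf.indicator measurableSet_ball.compl) ht,
          ← e]
    _ ≤ _ := add_le_add h1 ((le_abs_self _).trans h2)

/-- The volume of the unit ball. -/
noncomputable def om (V : Type*) [NormedAddCommGroup V] [InnerProductSpace ℝ V]
    [FiniteDimensional ℝ V] [MeasurableSpace V] [BorelSpace V] : ℝ :=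
  (volume : Measure V).real (ball 0 1)

theorem om_pos : 0 < om V :=
  ENNReal.toReal_pos (measure_ball_pos _ _ one_pos).ne' measure_ball_lt_top.ne

theorem real_ball (x : V) {r : ℝ} (hr : 0 < r) :
    (volume : Measure V).real (ball x r) = r ^ Module.finrank ℝ V * om V := by
  rw [Measure.real, Measure.addHaar_ball_of_pos _ _ hr, ENNReal.toReal_mul,
    ENNReal.toReal_ofReal (by positivity)]
  rfl

/-- The constant of the averaging lemma. -/
noncomputable def cAV (V : Type*) [NormedAddCommGroup V] [InnerProductSpace ℝ V]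
    [FiniteDimensional ℝ V] [MeasurableSpace V] [BorelSpace V] : ℝ :=
  (8 * π) ^ hd V * exp 2 / om V

theorem cAV_pos : 0 < cAV V := by
  have := om_pos (V := V)
  unfold cAV
  positivity

/-- From masses of balls of radius `√t` to heat averages. -/
theorem P_le_of_small_balls (hf : BM f) (h0 : ∀ y, 0 ≤ f y) (ht : 0 < t) {K : ℝ}
    (h : ∀ w, ∫ x in ball w √t, f x ≤ K) (y : V) :
    P t f y ≤ 2 ^ hd V * exp (1 / 4) / (t ^ hd V * om V) * K := by
  have hs : 0 < √t := sqrt_pos.2 ht
  have ho := om_pos (V := V)
  have h2t : 0 < 2 * t := by positivity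
  have near : ∀ {w x : V}, x ∈ ball w √t → ‖x - w‖ ^ 2 ≤ 1 * t := fun {w x} hx => by
    have h1 : ‖x - w‖ < √t := by simpa [dist_eq_norm] using hx
    have := pow_le_pow_left₀ (norm_nonneg _) h1.le 2
    rwa [sq_sqrt ht.le, ← one_mul t] at this
  have hI : Integrable (fun p : V × V => G (2 * t) (p.1 - y) * (ball p.1 √t).indicator f p.2)
      (volume.prod volume) := by
    have hm : Measurable (fun p : V × V => (ball p.1 √t).indicator f p.2) := by
      have : (fun p : V × V => (ball p.1 √t).indicator f p.2) =
          {p : V × V | dist p.2 p.1 < √t}.indicator (fun p => f p.2) := by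
        ext p
        simp only [indicator, mem_ball, mem_ofPred_eq]
      rw [this]
      exact (hf.meas.comp measurable_snd).indicator
        (isOpen_lt (by fun_prop) continuous_const).measurableSet
    refine ((integrable_prod_G (integrable_G_sub h2t y) hf ht).const_mul
      ((4 * π * t) ^ (-hd V) * exp (-(1 / 4)))⁻¹).mono'
      (Measurable.mul (by fun_prop) hm).aestronglyMeasurable (Eventually.of_forall fun p => ?_)
    have hG := G_pos h2t (p.1 - y)
    have hG' := G_pos ht (p.2 - p.1)
    have f0 := h0 p.2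
    by_cases hp : p.2 ∈ ball p.1 √t
    · rw [indicator_of_mem hp, Real.norm_eq_abs, abs_of_nonneg (by positivity),
        le_inv_mul_iff₀ (by positivity), mul_left_comm]
      gcongr
      exact G_lower ht (near hp)
    · rw [indicator_of_notMem hp, mul_zero, norm_zero]
      positivity
  have h1 : ∫ w, ∫ x, G (2 * t) (w - y) * (ball w √t).indicator f x ≤ K := by
    calc _ ≤ ∫ w, G (2 * t) (w - y) * K := by
          refine integral_mono hI.integral_prod_left ((integrable_G_sub h2t y).mul_const K)
            fun w => ?_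
          simp only [integral_const_mul, integral_indicator measurableSet_ball]
          exact mul_le_mul_of_nonneg_left (h w) (G_pos h2t _).le
      _ = K := by rw [integral_mul_const, integral_G_sub h2t, one_mul]
  rw [integral_integral_swap hI] at h1
  have h3 : (2 ^ hd V * exp (1 / 4))⁻¹ * (t ^ hd V * om V) * P t f y ≤
      ∫ x, ∫ w, G (2 * t) (w - y) * (ball w √t).indicator f x := by
    rw [P, ← integral_const_mul]
    refine integral_mono ((hf.integrable_G ht y).const_mul _) hI.integral_prod_right fun x => ?_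
    have e : (fun w => G (2 * t) (w - y) * (ball w √t).indicator f x) =
        (ball x √t).indicator fun w => G (2 * t) (w - y) * f x := by
      ext w
      by_cases hw : w ∈ ball x √t
      · rw [indicator_of_mem hw, indicator_of_mem (mem_ball_comm.1 hw)]
      · rw [indicator_of_notMem hw, indicator_of_notMem (fun h => hw (mem_ball_comm.1 h)), mul_zero]
    simp only [e, integral_indicator measurableSet_ball]
    calc _ = ∫ _ in ball x √t, (2 ^ hd V * exp (1 / 4))⁻¹ * G t (x - y) * f x := by
          rw [setIntegral_const, real_ball x hs, ← rpow_hd_eq ht, smul_eq_mul]; ring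
      _ ≤ _ := by
          refine setIntegral_mono_on (integrableOn_const measure_ball_lt_top.ne)
            ((integrable_G_sub h2t y).mul_const _).integrableOn measurableSet_ball fun w hw => ?_
          refine mul_le_mul_of_nonneg_right ?_ (h0 x)
          rw [inv_mul_le_iff₀ (by positivity)]
          have := G_shift_le ht (near (mem_ball_comm.1 hw)) (w - y)
          rwa [show w - y + (x - w) = x - y by abel] at this
  have h4 := h3.trans h1
  rw [div_mul_eq_mul_div, le_div_iff₀ (by positivity), ← inv_mul_le_iff₀ (by positivity)]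
  linarith

/-- Averaging against a measure with its own heat average in the denominator. -/
theorem P_div_le (hf : BM f) (h0 : ∀ y, 0 ≤ f y) (ht : 0 < t) {D : V → ℝ}
    (hD : Measurable D) {η : ℝ} (hη : 0 < η) (h1 : ∀ x, η ≤ D x) (h2 : ∀ x, P t f x ≤ D x)
    (y : V) : BM (fun x => f x / D x) ∧ P t (fun x => f x / D x) y ≤ cAV V := by
  have hD0 : ∀ x, 0 < D x := fun x => hη.trans_le (h1 x)
  have hq : BM (fun x => f x / D x) := (hf.abs.div_const η).of_abs_le (hf.meas.div hD) fun x => by
    rw [abs_div, abs_of_pos (hD0 x)]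
    exact div_le_div_of_nonneg_left (abs_nonneg _) hη (h1 x)
  have q0 : ∀ x, 0 ≤ f x / D x := fun x => div_nonneg (h0 x) (hD0 x).le
  have ho := om_pos (V := V)
  refine ⟨hq, (P_le_of_small_balls hq q0 ht (K := (4 * π * t) ^ hd V * exp 1) (fun w => ?_) y).trans ?_⟩
  · have fi := hf.integrableOn (isBounded_ball (x := w) (r := √t))
    have qi := hq.integrableOn (isBounded_ball (x := w) (r := √t))
    have m0 : 0 ≤ ∫ x in ball w √t, f x := setIntegral_nonneg measurableSet_ball fun y _ => h0 y
    rcases m0.eq_or_lt with hm | hm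
    · calc _ ≤ ∫ x in ball w √t, f x / η := setIntegral_mono_on qi (fi.div_const η)
            measurableSet_ball fun x _ => div_le_div_of_nonneg_left (h0 x) hη (h1 x)
        _ = 0 := by rw [integral_div, ← hm, zero_div]
        _ ≤ _ := by positivity
    · calc _ ≤ ∫ x in ball w √t,
            f x / ((4 * π * t) ^ (-hd V) * exp (-(4 / 4)) * ∫ y in ball w √t, f y) := by
            refine setIntegral_mono_on qi (fi.div_const _) measurableSet_ball fun x hx => ?_
            refine div_le_div_of_nonneg_left (h0 x) (by positivity) (le_trans ?_ (h2 x))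
            refine mass_le_P hf h0 ht measurableSet_ball fun z hz => ?_
            have a : ‖z - x‖ < 2 * √t := by
              have := dist_triangle_right z x w
              rw [mem_ball] at hx hz
              rw [← dist_eq_norm]
              linarith
            have := pow_le_pow_left₀ (norm_nonneg _) a.le 2
            rw [mul_pow, sq_sqrt ht.le] at this
            linarith
        _ = _ := by
            rw [integral_div, rpow_neg (by positivity), exp_neg, div_self (by norm_num : (4 : ℝ) ≠ 0)]
            field_simp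
  · have e : (2 : ℝ) ^ hd V * (4 * π * t) ^ hd V = (8 * π) ^ hd V * t ^ hd V := by
      rw [← mul_rpow (by norm_num) (by positivity), ← mul_rpow (by positivity) ht.le]
      congr 1
      ring
    have e2 : exp (1 / 4) * exp 1 ≤ exp 2 := by
      rw [← exp_add]; exact exp_le_exp.2 (by norm_num)
    have hp : 0 < t ^ hd V := by positivity
    calc _ = (2 ^ hd V * (4 * π * t) ^ hd V) * (exp (1 / 4) * exp 1) / (t ^ hd V * om V) := by ring
      _ ≤ ((8 * π) ^ hd V * t ^ hd V) * exp 2 / (t ^ hd V * om V) := by rw [e]; gcongr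
      _ = _ := by unfold cAV; field_simp

end Pool.Agent.Lib.MP_8daebb_an.HK
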