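import Pool.Agent.Lib.MP_8daebb_an.HK.Cv

/-! Derivatives of the heat semigroup. -/

open MeasureTheory Metric Filter Topology Set Real
open scoped RealInnerProductSpace

namespace Pool.Agent.Lib.MP_8daebb_an.HK

variable {V : Type*} [NormedAddCommGroup V] [InnerProductSpace ℝ V]

/-- kernel of the first derivative -/
noncomputable def K1 (t : ℝ) (e z : V) : ℝ := ⟪z, e⟫ / (2 * t) * G t z

/-- kernel of the second derivative -/
noncomputable def K2 (t : ℝ) (e e' z : V) : ℝ :=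
  (⟪z, e⟫ * ⟪z, e'⟫ / (4 * t ^ 2) - ⟪e, e'⟫ / (2 * t)) * G t z

section kernels
variable {t : ℝ}

theorem K1_eq (ht : 0 < t) (e z : V) : K1 t e z = -fderiv ℝ (G t) z e := by
  rw [fderiv_G ht, K1]; ring

theorem K1_neg (t : ℝ) (e z : V) : K1 t e (-z) = -K1 t e z := by
  simp only [K1, inner_neg_left, G_neg]; ring

theorem K2_neg (t : ℝ) (e e' z : V) : K2 t e e' (-z) = K2 t e e' z := by
  simp only [K2, inner_neg_left, G_neg]; ring

theorem K2_symm (t : ℝ) (e e' z : V) : K2 t e e' z = K2 t e' e z := by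
  simp only [K2, real_inner_comm e e']; ring

theorem dG_neg (t : ℝ) (z : V) : dG t (-z) = dG t z := by simp [dG]

@[fun_prop] theorem continuous_K1 (t : ℝ) (e : V) : Continuous (K1 t e) := by
  unfold K1; fun_prop

@[fun_prop] theorem continuous_K2 (t : ℝ) (e e' : V) : Continuous (K2 t e e') := by
  unfold K2; fun_prop

@[fun_prop] theorem continuous_dG (t : ℝ) : Continuous (dG t : V → ℝ) := by
  unfold dG; fun_prop

theorem abs_K1_le (ht : 0 < t) (e z : V) :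
    |K1 t e z| ≤ 3 * 2 ^ hd V / √t * ‖e‖ * G (2 * t) z := by
  rw [K1_eq ht, abs_neg]
  calc |fderiv ℝ (G t) z e| ≤ ‖fderiv ℝ (G t) z‖ * ‖e‖ := (fderiv ℝ (G t) z).le_opNorm e
    _ ≤ 3 * 2 ^ hd V / √t * G (2 * t) z * ‖e‖ := by gcongr; exact norm_fderiv_G_le ht z
    _ = _ := by ring

theorem abs_K2_le (ht : 0 < t) (e e' z : V) :
    |K2 t e e' z| ≤ 3 * 2 ^ hd V / t * ‖e‖ * ‖e'‖ * G (2 * t) z := by
  have h1 := sq_mul_G_le ht z
  have h2 := G_le_two ht z
  have h3 := G_pos ht z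
  have h4 := G_pos (show 0 < 2 * t by positivity) z
  have a1 := abs_real_inner_le_norm z e
  have a2 := abs_real_inner_le_norm z e'
  have a3 := abs_real_inner_le_norm e e'
  have h5 : (0 : ℝ) < 2 ^ hd V := by positivity
  unfold K2
  rw [abs_mul, abs_of_pos h3]
  have b : |⟪z, e⟫ * ⟪z, e'⟫ / (4 * t ^ 2) - ⟪e, e'⟫ / (2 * t)| ≤
      ‖e‖ * ‖e'‖ * (‖z‖ ^ 2 / (4 * t ^ 2) + 1 / (2 * t)) := by
    refine (abs_sub _ _).trans ?_
    rw [abs_div, abs_div, abs_mul, abs_of_pos (show 0 < 4 * t ^ 2 by positivity),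
      abs_of_pos (show 0 < 2 * t by positivity)]
    calc _ ≤ (‖z‖ * ‖e‖) * (‖z‖ * ‖e'‖) / (4 * t ^ 2) + ‖e‖ * ‖e'‖ / (2 * t) := by gcongr
      _ = _ := by ring
  calc _ ≤ ‖e‖ * ‖e'‖ * (‖z‖ ^ 2 / (4 * t ^ 2) + 1 / (2 * t)) * G t z := by gcongr
    _ = ‖e‖ * ‖e'‖ * (‖z‖ ^ 2 * G t z / (4 * t ^ 2) + G t z / (2 * t)) := by ring
    _ ≤ ‖e‖ * ‖e'‖ * (8 * 2 ^ hd V * t * G (2 * t) z / (4 * t ^ 2) +
        2 ^ hd V * G (2 * t) z / (2 * t)) := by gcongr
    _ = 5 / 2 * (2 ^ hd V / t * ‖e‖ * ‖e'‖ * G (2 * t) z) := by field_simp; ring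
    _ ≤ 3 * (2 ^ hd V / t * ‖e‖ * ‖e'‖ * G (2 * t) z) := by gcongr; norm_num
    _ = _ := by ring

theorem hasFDerivAt_K1 (ht : 0 < t) (e z : V) :
    HasFDerivAt (K1 t e)
      ((G t z / (2 * t)) • innerSL ℝ e - (⟪z, e⟫ / (4 * t ^ 2) * G t z) • innerSL ℝ z) z := by
  have h := (hasFDerivAt_fderiv_G ht z e).neg
  have e1 : K1 t e = -fun y => fderiv ℝ (G t) y e := by
    funext y; rw [K1_eq ht]; rfl
  rw [e1]
  exact h.congr_fderiv (neg_sub _ _)

theorem sum_K2 {ι : Type*} [Fintype ι] (b : OrthonormalBasis ι ℝ V) (ht : 0 < t) (z : V) :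
    ∑ i, K2 t (b i) (b i) z = dG t z := by
  rw [← sum_fderiv_fderiv_G b ht z]
  exact Finset.sum_congr rfl fun i _ => by rw [fderiv_fderiv_G ht]; rfl

end kernels

variable [FiniteDimensional ℝ V] [MeasurableSpace V] [BorelSpace V]
variable {f g : V → ℝ} {s t : ℝ}

theorem P_eq_Cv (t : ℝ) (f : V → ℝ) : P t f = Cv (G t) f := rfl

theorem ker_G (ht : 0 < t) : Ker (G t : V → ℝ) := ⟨(continuous_G t).measurable, integrable_G ht⟩

theorem integral_abs_G (ht : 0 < t) : ∫ z : V, |G t z| = 1 := by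
  simp only [abs_G ht.le, integral_G ht]

theorem Ker.of_G {K : V → ℝ} (hK : Measurable K) (ht : 0 < t) {C : ℝ}
    (h : ∀ z, |K z| ≤ C * G t z) : Ker K := Ker.of_le hK ((integrable_G ht).const_mul C) h

theorem integral_abs_le_of_G {K : V → ℝ} (ht : 0 < t) {C : ℝ} (h : ∀ z, |K z| ≤ C * G t z) :
    ∫ z, |K z| ≤ C := by
  calc ∫ z, |K z| ≤ ∫ z : V, C * G t z :=
        integral_mono_of_nonneg (Eventually.of_forall fun z => abs_nonneg _)
          ((integrable_G ht).const_mul C) (Eventually.of_forall h)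
    _ = C := by rw [integral_const_mul, integral_G ht, mul_one]

theorem abs_Cv_le_P {K : V → ℝ} (ht : 0 < t) {C : ℝ} (h : ∀ z, |K z| ≤ C * G t z) (hg : BM g)
    (hfg : ∀ y, |f y| ≤ g y) (x : V) : |Cv K f x| ≤ C * P t g x := by
  have := abs_Cv_le (K := K) (f := f) ((ker_G ht).const_mul C) hg h hfg x
  rwa [Cv_ker_const_mul] at this

theorem ker_K1 (ht : 0 < t) (e : V) : Ker (K1 t e) :=
  Ker.of_G (continuous_K1 t e).measurable (by positivity) (abs_K1_le ht e)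

theorem ker_K2 (ht : 0 < t) (e e' : V) : Ker (K2 t e e') :=
  Ker.of_G (continuous_K2 t e e').measurable (by positivity) (abs_K2_le ht e e')

theorem ker_dG (ht : 0 < t) : Ker (dG t : V → ℝ) :=
  Ker.of_G (continuous_dG t).measurable (by positivity) (abs_dG_le ht)

theorem LI.P (hf : LI f) (ht : 0 < t) : LI (P t f) := hf.cv (ker_G ht)

omit [FiniteDimensional ℝ V] [MeasurableSpace V] [BorelSpace V] in
theorem G_shift_one (ht : 0 < t) (z : V) {h : V} (hh : ‖h‖ ≤ 1) :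
    G t (z + h) ≤ 2 ^ hd V * exp (1 / t / 4) * G (2 * t) z :=
  G_shift_le ht (by rw [one_div, inv_mul_cancel₀ ht.ne']; nlinarith [norm_nonneg h]) z

theorem P_deriv_data (ht : 0 < t) : ∃ B : V → ℝ, Integrable B ∧ ∀ z h : V, ‖h‖ ≤ 1 →
    ‖fderiv ℝ (G t) (z + h)‖ ≤ B z := by
  refine ⟨fun z => 3 * 2 ^ hd V / √t * (2 ^ hd V * exp (1 / (2 * t) / 4) * G (2 * (2 * t)) z),
    ((integrable_G (by positivity)).const_mul _).const_mul _, fun z h hh => ?_⟩
  exact (norm_fderiv_G_le ht _).trans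
    (mul_le_mul_of_nonneg_left (G_shift_one (by positivity) z hh) (by positivity))

theorem differentiable_P (hf : BM f) (ht : 0 < t) : Differentiable ℝ (P t f) := fun x => by
  obtain ⟨B, hB, hb⟩ := P_deriv_data (V := V) ht
  exact (hasFDerivAt_Cv_left (ker_G ht) hf
    (fun z => (hasFDerivAt_G ht z).differentiableAt.hasFDerivAt)
    ((contDiff_G t (n := 1)).continuous_fderiv one_ne_zero) hB hb x).differentiableAt

theorem fderiv_P (hf : BM f) (ht : 0 < t) (x e : V) :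
    fderiv ℝ (P t f) x e = Cv (K1 t e) f x := by
  obtain ⟨B, hB, hb⟩ := P_deriv_data (V := V) ht
  rw [P_eq_Cv, fderiv_Cv_left (ker_G ht) hf
    (fun z => (hasFDerivAt_G ht z).differentiableAt.hasFDerivAt)
    ((contDiff_G t (n := 1)).continuous_fderiv one_ne_zero) hB hb x e]
  simp only [← K1_eq ht]

theorem fderiv_P_fun (hf : BM f) (ht : 0 < t) (e : V) :
    (fun x => fderiv ℝ (P t f) x e) = Cv (K1 t e) f := funext fun x => fderiv_P hf ht x e

theorem fderiv_P_eq_integral (hf : BM f) (ht : 0 < t) (x e : V) :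
    fderiv ℝ (P t f) x e = ∫ y, ⟪y - x, e⟫ / (2 * t) * G t (y - x) * f y := fderiv_P hf ht x e

theorem P_P_fun (hf : BM f) (hs : 0 < s) (ht : 0 < t) : P s (P t f) = P (s + t) f :=
  funext (P_P hf hs ht)

theorem P_Cv_comm {K : V → ℝ} (hK : Ker K) (hf : BM f) (ht : 0 < t) (x : V) :
    P t (Cv K f) x = Cv K (P t f) x := Cv_comm (ker_G ht) hK hf x

theorem Cv_K1_add (hf : BM f) (hs : 0 < s) (ht : 0 < t) (e x : V) :
    Cv (K1 (s + t) e) f x = Cv (K1 s e) (P t f) x := by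
  rw [← fderiv_P hf (by positivity), ← P_P_fun hf hs ht, fderiv_P (hf.P ht) hs]

theorem Cv_K1_add' (hf : BM f) (hs : 0 < s) (ht : 0 < t) (e x : V) :
    Cv (K1 (s + t) e) f x = P s (Cv (K1 t e) f) x := by
  rw [add_comm, Cv_K1_add hf ht hs, P_Cv_comm (ker_K1 ht e) hf hs]

theorem contDiff_P_nat (n : ℕ) : ∀ {f : V → ℝ} {t : ℝ}, BM f → 0 < t → ContDiff ℝ n (P t f) := by
  induction n with
  | zero => intro f t hf ht; simpa using (differentiable_P hf ht).continuous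
  | succ n ih =>
    intro f t hf ht
    rw [Nat.cast_succ, contDiff_succ_iff_fderiv_apply]
    refine ⟨differentiable_P hf ht, by simp, fun e => ?_⟩
    have h : (fun x => fderiv ℝ (P t f) x e) = P (t / 2) (Cv (K1 (t / 2) e) f) := by
      funext x
      rw [fderiv_P hf ht, ← Cv_K1_add' hf (half_pos ht) (half_pos ht), add_halves]
    rw [h]
    exact ih (hf.cv (ker_K1 (half_pos ht) e)) (half_pos ht)

theorem contDiff_P (hf : BM f) (ht : 0 < t) : ContDiff ℝ (⊤ : ℕ∞) (P t f) :=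
  contDiff_infty.2 fun n => contDiff_P_nat n hf ht

theorem contDiff_P_one (hf : BM f) (ht : 0 < t) : ContDiff ℝ 1 (P t f) := contDiff_P_nat 1 hf ht

theorem contDiff_P_two (hf : BM f) (ht : 0 < t) : ContDiff ℝ 2 (P t f) := contDiff_P_nat 2 hf ht

theorem contDiff_P_three (hf : BM f) (ht : 0 < t) : ContDiff ℝ 3 (P t f) := contDiff_P_nat 3 hf ht

theorem continuous_fderiv_P (hf : BM f) (ht : 0 < t) : Continuous (fderiv ℝ (P t f)) :=
  (contDiff_P_one hf ht).continuous_fderiv one_ne_zero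

theorem BM.fderiv_P (hf : BM f) (ht : 0 < t) (e : V) : BM (fun x => fderiv ℝ (HK.P t f) x e) := by
  rw [fderiv_P_fun hf ht]; exact hf.cv (ker_K1 ht e)

theorem LI.fderiv_P (hf : LI f) (ht : 0 < t) (e : V) : LI (fun x => fderiv ℝ (HK.P t f) x e) := by
  rw [fderiv_P_fun hf.bm ht]; exact hf.cv (ker_K1 ht e)

theorem abs_fderiv_P_le (hf : BM f) (hg : BM g) (h : ∀ y, |f y| ≤ g y) (ht : 0 < t) (x e : V) :
    |fderiv ℝ (P t f) x e| ≤ 3 * 2 ^ hd V / √t * ‖e‖ * P (2 * t) g x := by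
  rw [fderiv_P hf ht]
  exact abs_Cv_le_P (by positivity) (abs_K1_le ht e) hg h x

theorem norm_fderiv_P_le (hf : BM f) (hg : BM g) (h : ∀ y, |f y| ≤ g y) (ht : 0 < t) (x : V) :
    ‖fderiv ℝ (P t f) x‖ ≤ 3 * 2 ^ hd V / √t * P (2 * t) g x := by
  have h0 : 0 ≤ P (2 * t) g x := P_nonneg (by positivity) (fun y => (abs_nonneg _).trans (h y)) x
  refine ContinuousLinearMap.opNorm_le_bound _ (by positivity) fun e => ?_
  refine (abs_fderiv_P_le hf hg h ht x e).trans (le_of_eq ?_)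
  ring

theorem norm_fderiv_P_le_const (hf : BM f) {C : ℝ} (h : ∀ y, |f y| ≤ C) (ht : 0 < t) (x : V) :
    ‖fderiv ℝ (P t f) x‖ ≤ 3 * 2 ^ hd V / √t * C := by
  have := norm_fderiv_P_le hf (BM.const C) h ht x
  rwa [P_const (by positivity)] at this

theorem BM.norm_fderiv_P (hf : BM f) (ht : 0 < t) : BM (fun x => ‖fderiv ℝ (HK.P t f) x‖) := by
  obtain ⟨C, hC⟩ := hf.bdd
  exact BM.of_continuous (continuous_fderiv_P hf ht).norm fun x => by
    rw [abs_norm]; exact norm_fderiv_P_le_const hf hC ht x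

theorem LI.norm_fderiv_P (hf : LI f) (ht : 0 < t) : LI (fun x => ‖fderiv ℝ (HK.P t f) x‖) :=
  LI.of_le (continuous_fderiv_P hf.bm ht).norm.measurable
    ((hf.abs.P (show 0 < 2 * t by positivity)).const_mul (3 * 2 ^ hd V / √t)) fun x => by
      rw [abs_norm]; exact norm_fderiv_P_le hf.bm hf.bm.abs (fun _ => le_rfl) ht x

/-- `C¹` functions, bounded with bounded derivative -/
structure C1b (f : V → ℝ) : Prop where
  bm : BM f
  cd : ContDiff ℝ 1 f
  db : ∃ C, ∀ y, ‖fderiv ℝ f y‖ ≤ C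

omit [FiniteDimensional ℝ V] [BorelSpace V] in
theorem C1b.cont (hf : C1b f) : Continuous (fderiv ℝ f) := hf.cd.continuous_fderiv one_ne_zero

omit [FiniteDimensional ℝ V] in
theorem C1b.bm_norm (hf : C1b f) : BM (fun y => ‖fderiv ℝ f y‖) := by
  obtain ⟨C, hC⟩ := hf.db
  exact BM.of_continuous hf.cont.norm fun y => by rw [abs_norm]; exact hC y

omit [FiniteDimensional ℝ V] in
theorem C1b.bm_apply (hf : C1b f) (e : V) : BM (fun y => fderiv ℝ f y e) := by
  obtain ⟨C, hC⟩ := hf.db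
  refine BM.of_continuous (C := C * ‖e‖) (hf.cont.clm_apply continuous_const) fun y => ?_
  exact ((fderiv ℝ f y).le_opNorm e).trans (mul_le_mul_of_nonneg_right (hC y) (norm_nonneg _))

omit [FiniteDimensional ℝ V] in
theorem C1b.of_compact (hf : ContDiff ℝ 1 f) (hc : HasCompactSupport f) : C1b f := by
  obtain ⟨C, hC⟩ := (hf.continuous_fderiv one_ne_zero).bounded_above_of_compact_support
    (hc.fderiv ℝ)
  exact ⟨BM.of_compactSupport hf.continuous hc, hf, C, hC⟩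

theorem BM.c1b_P (hf : BM f) (ht : 0 < t) : C1b (HK.P t f) := by
  obtain ⟨C, hC⟩ := hf.bdd
  exact ⟨hf.P ht, contDiff_P_one hf ht, _, norm_fderiv_P_le_const hf hC ht⟩

theorem fderiv_Cv_comm {K : V → ℝ} (hK : Ker K) (hf : C1b f) (x e : V) :
    fderiv ℝ (Cv K f) x e = Cv K (fun y => fderiv ℝ f y e) x := by
  obtain ⟨C, hC⟩ := hf.db
  exact fderiv_Cv_right hK hf.bm hf.cd hC x e

/-- `P` commutes with derivatives -/
theorem fderiv_P_comm (hf : C1b f) (ht : 0 < t) (x e : V) :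
    fderiv ℝ (P t f) x e = P t (fun y => fderiv ℝ f y e) x := fderiv_Cv_comm (ker_G ht) hf x e

/-- integration by parts against the heat kernel -/
theorem P_fderiv (hf : C1b f) (ht : 0 < t) (x e : V) :
    P t (fun y => fderiv ℝ f y e) x = Cv (K1 t e) f x := by
  rw [← fderiv_P_comm hf ht, fderiv_P hf.bm ht]

theorem fderiv_Cv_K1 (hf : BM f) (ht : 0 < t) (e x e' : V) :
    fderiv ℝ (Cv (K1 t e) f) x e' = Cv (K2 t e e') f x := by
  have hK : ∀ z v : V, ((G t z / (2 * t)) • innerSL ℝ e -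
      (⟪z, e⟫ / (4 * t ^ 2) * G t z) • innerSL ℝ z) v = -K2 t e v z := fun z v => by
    simp [K2]; ring
  rw [fderiv_Cv_left (ker_K1 ht e) hf (hasFDerivAt_K1 ht e) (by fun_prop)
    (B := fun z => 3 * 2 ^ hd V / t * ‖e‖ * (2 ^ hd V * exp (1 / (2 * t) / 4) * G (2 * (2 * t)) z))
    (((integrable_G (by positivity)).const_mul _).const_mul _) ?_ x e']
  · simp only [hK, neg_neg]
  · intro z h hh
    have h1 := G_shift_one (show 0 < 2 * t by positivity) z hh
    have h2 := G_pos (show 0 < 2 * (2 * t) by positivity) z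
    refine ContinuousLinearMap.opNorm_le_bound _ (by positivity) fun v => ?_
    rw [hK, norm_neg, Real.norm_eq_abs]
    calc _ ≤ _ := abs_K2_le ht e v (z + h)
      _ ≤ 3 * 2 ^ hd V / t * ‖e‖ * ‖v‖ *
          (2 ^ hd V * exp (1 / (2 * t) / 4) * G (2 * (2 * t)) z) := by gcongr
      _ = _ := by ring

theorem fderiv_fderiv_P (hf : BM f) (ht : 0 < t) (e x e' : V) :
    fderiv ℝ (fun y => fderiv ℝ (P t f) y e) x e' = Cv (K2 t e e') f x := by
  rw [fderiv_P_fun hf ht, fderiv_Cv_K1 hf ht]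

theorem abs_fderiv_fderiv_P_le (hf : BM f) (hg : BM g) (h : ∀ y, |f y| ≤ g y) (ht : 0 < t)
    (e x e' : V) : |fderiv ℝ (fun y => fderiv ℝ (P t f) y e) x e'| ≤
      3 * 2 ^ hd V / t * ‖e‖ * ‖e'‖ * P (2 * t) g x := by
  rw [fderiv_fderiv_P hf ht]
  exact abs_Cv_le_P (by positivity) (abs_K2_le ht e e') hg h x

theorem Cv_K2_add (hf : BM f) (hs : 0 < s) (ht : 0 < t) (e e' x : V) :
    Cv (K2 (s + t) e e') f x = Cv (K1 s e') (Cv (K1 t e) f) x := by
  rw [← fderiv_Cv_K1 hf (by positivity), funext (Cv_K1_add' hf hs ht e),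
    fderiv_P (hf.cv (ker_K1 ht e)) hs]

theorem Cv_K2_add' (hf : BM f) (hs : 0 < s) (ht : 0 < t) (e e' x : V) :
    Cv (K2 (s + t) e e') f x = Cv (K2 s e e') (P t f) x := by
  rw [← fderiv_fderiv_P hf (by positivity), ← P_P_fun hf hs ht, fderiv_fderiv_P (hf.P ht) hs]

theorem Cv_dG_eq_sum {ι : Type*} [Fintype ι] (b : OrthonormalBasis ι ℝ V) (hf : BM f)
    (ht : 0 < t) (x : V) : Cv (dG t) f x = ∑ i, Cv (K2 t (b i) (b i)) f x := by
  rw [← Cv_ker_sum _ (fun i _ => ker_K2 ht _ _) hf]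
  simp only [sum_K2 b ht]

theorem Cv_dG_add (hf : BM f) (hs : 0 < s) (ht : 0 < t) (x : V) :
    Cv (dG (s + t)) f x = Cv (dG s) (P t f) x := by
  rw [Cv_dG_eq_sum (stdOrthonormalBasis ℝ V) hf (by positivity),
    Cv_dG_eq_sum (stdOrthonormalBasis ℝ V) (hf.P ht) hs]
  exact Finset.sum_congr rfl fun i _ => Cv_K2_add' hf hs ht _ _ x

theorem Cv_dG_add' (hf : BM f) (hs : 0 < s) (ht : 0 < t) (x : V) :
    Cv (dG (s + t)) f x = P s (Cv (dG t) f) x := by
  rw [add_comm, Cv_dG_add hf ht hs, P_Cv_comm (ker_dG ht) hf hs]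

theorem abs_Cv_dG_le (hg : BM g) (h : ∀ y, |f y| ≤ g y) (ht : 0 < t) (x : V) :
    |Cv (dG t) f x| ≤ (2 + hd V) * 2 ^ hd V / t * P (2 * t) g x :=
  abs_Cv_le_P (by positivity) (abs_dG_le ht) hg h x

omit [FiniteDimensional ℝ V] [MeasurableSpace V] [BorelSpace V] in
theorem abs_dG_le_near (ht : 0 < t) (z : V) (hs : s ∈ ball t (t / 2)) :
    |dG s z| ≤ (2 + hd V) * 2 ^ hd V / (t / 2) * (3 ^ hd V * G (3 * t) z) := by
  rw [mem_ball, Real.dist_eq, abs_lt] at hs
  have hs0 : 0 < s := by linarith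
  have h4 := hd_nonneg (V := V)
  have h5 := G_pos (show 0 < 2 * s by positivity) z
  refine (abs_dG_le hs0 z).trans ?_
  gcongr
  · linarith
  · exact G_le_of_le_mul (by positivity) (by linarith) (by linarith) z

/-- the heat equation in time -/
theorem hasDerivAt_P (hf : BM f) (ht : 0 < t) (x : V) :
    HasDerivAt (fun s => P s f x) (Cv (dG t) f x) t := by
  have hpos : ∀ s ∈ ball t (t / 2), 0 < s := fun s hs => by
    rw [mem_ball, Real.dist_eq, abs_lt] at hs; linarith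
  exact hasDerivAt_Cv_param (k := G) (k' := dG) (half_pos ht) hf (fun s hs => ker_G (hpos s hs))
    (continuous_dG t).measurable (fun z s hs => hasDerivAt_G (hpos s hs) z)
    (((integrable_G (show 0 < 3 * t by positivity)).const_mul _).const_mul _)
    (fun z s hs => abs_dG_le_near ht z hs) x

theorem continuousOn_P_time (hf : BM f) (x : V) : ContinuousOn (fun s => P s f x) (Ioi 0) :=
  fun _ hs => (hasDerivAt_P hf hs x).continuousAt.continuousWithinAt

end Pool.Agent.Lib.MP_8daebb_an.HK
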