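import Pool.Agent.Lib.MP_8daebb_an.HK.Mass

/-! Time integrals of the heat semigroup and a maximum principle. -/

open MeasureTheory Metric Filter Topology Set Real
open scoped RealInnerProductSpace

namespace Pool.Agent.Lib.MP_8daebb_an.HK

variable {V : Type*} [NormedAddCommGroup V] [InnerProductSpace ℝ V] [FiniteDimensional ℝ V]
  [MeasurableSpace V] [BorelSpace V] {f g : V → ℝ} {s t : ℝ}

theorem measurable_P_time (hf : Measurable f) (x : V) : Measurable (fun t => P t f x) :=
  (measurable_P hf).comp (f := fun t : ℝ => (t, x)) (by fun_prop)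

theorem integrableOn_mul_P (hf : BM f) {φ : ℝ → ℝ} {S : Set ℝ} (hS : MeasurableSet S)
    (h0 : S ⊆ Ioi 0) (hφ : IntegrableOn φ S) (x : V) :
    IntegrableOn (fun u => φ u * P u f x) S := by
  obtain ⟨C, hC⟩ := hf.bdd
  refine Integrable.mul_bdd (c := C) hφ (measurable_P_time hf.meas x).aestronglyMeasurable ?_
  exact (ae_restrict_iff' hS).2 (Eventually.of_forall fun u hu => abs_P_le_const (h0 hu) hC x)

theorem integrableOn_P (hf : BM f) {a b : ℝ} (ha : 0 ≤ a) (x : V) :
    IntegrableOn (fun u => P u f x) (Ioc a b) := by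
  simpa using integrableOn_mul_P hf (φ := fun _ => 1) measurableSet_Ioc
    (fun u hu => ha.trans_lt hu.1) (integrableOn_const measure_Ioc_lt_top.ne) x

theorem bm_integral_mul_P (hf : BM f) {φ : ℝ → ℝ} {S : Set ℝ} (hS : MeasurableSet S)
    (h0 : S ⊆ Ioi 0) (hm : Measurable φ) (hφ : IntegrableOn φ S) :
    BM (fun x => ∫ u in S, φ u * P u f x) := by
  obtain ⟨C, hC⟩ := hf.bdd
  refine ⟨?_, ∫ u in S, |φ u| * C, fun x => ?_⟩
  · have h : Measurable (fun q : V × ℝ => φ q.2 * P q.2 f q.1) :=
      (hm.comp measurable_snd).mul ((measurable_P hf.meas).comp measurable_swap)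
    exact h.stronglyMeasurable.integral_prod_right'.measurable
  · refine norm_integral_le_of_norm_le (f := fun u => φ u * P u f x) (hφ.abs.mul_const C) ?_
    refine (ae_restrict_iff' hS).2 (Eventually.of_forall fun u hu => ?_)
    rw [Real.norm_eq_abs, abs_mul]
    exact mul_le_mul_of_nonneg_left (abs_P_le_const (h0 hu) hC x) (abs_nonneg _)

/-- The semigroup commutes with integration in time. -/
theorem P_integral_mul_P (hf : BM f) {φ : ℝ → ℝ} {S : Set ℝ} (hS : MeasurableSet S)
    (h0 : S ⊆ Ioi 0) (hm : Measurable φ) (hφ : IntegrableOn φ S) (hs : 0 < s) (y : V) :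
    P s (fun x => ∫ u in S, φ u * P u f x) y = ∫ u in S, φ u * P (s + u) f y := by
  obtain ⟨C, hC⟩ := hf.bdd
  have hI : Integrable (fun p : V × ℝ => G s (p.1 - y) * (φ p.2 * P p.2 f p.1))
      (volume.prod (volume.restrict S)) := by
    refine (((integrable_G_sub hs y).mul_prod hφ.abs).mul_const C).mono'
      (Measurable.aestronglyMeasurable (Measurable.mul (by fun_prop)
        ((hm.comp measurable_snd).mul ((measurable_P hf.meas).comp measurable_swap)))) ?_
    have : ∀ᵐ p ∂((volume : Measure V).prod (volume.restrict S)), p.2 ∈ S :=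
      Measure.quasiMeasurePreserving_snd.ae (ae_restrict_mem hS)
    filter_upwards [this] with p hp
    rw [Real.norm_eq_abs, abs_mul, abs_mul, abs_G hs.le, mul_assoc]
    exact mul_le_mul_of_nonneg_left (mul_le_mul_of_nonneg_left (abs_P_le_const (h0 hp) hC _)
      (abs_nonneg _)) (G_pos hs _).le
  rw [P]
  simp only [← integral_const_mul]
  rw [integral_integral_swap hI]
  refine setIntegral_congr_fun hS fun u hu => ?_
  simp only [mul_left_comm _ (φ u), integral_const_mul]
  rw [← P_P hf hs (h0 hu)]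
  rfl

/-- The truncated potential. -/
noncomputable def gI (s : ℝ) (f : V → ℝ) (x : V) : ℝ := ∫ t in Ioc 0 s, P t f x

theorem gI_add (hf : BM f) (hg : BM g) (s : ℝ) (x : V) :
    gI s (fun y => f y + g y) x = gI s f x + gI s g x := by
  rw [gI, gI, gI, ← integral_add (integrableOn_P hf le_rfl x) (integrableOn_P hg le_rfl x)]
  exact setIntegral_congr_fun measurableSet_Ioc fun u hu => P_add hf hg hu.1 x

theorem gI_sub (hf : BM f) (hg : BM g) (s : ℝ) (x : V) :
    gI s (fun y => f y - g y) x = gI s f x - gI s g x := by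
  rw [gI, gI, gI, ← integral_sub (integrableOn_P hf le_rfl x) (integrableOn_P hg le_rfl x)]
  exact setIntegral_congr_fun measurableSet_Ioc fun u hu => P_sub hf hg hu.1 x

theorem gI_const_mul (s c : ℝ) (f : V → ℝ) (x : V) : gI s (fun y => c * f y) x = c * gI s f x := by
  simp only [gI, P_const_mul, integral_const_mul]

theorem gI_neg (s : ℝ) (f : V → ℝ) (x : V) : gI s (fun y => -f y) x = -gI s f x := by
  simp only [gI, P_neg, integral_neg]

theorem gI_const (hs : 0 ≤ s) (c : ℝ) (x : V) : gI s (fun _ => c) x = s * c := by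
  rw [gI, setIntegral_congr_fun measurableSet_Ioc (g := fun _ => c) fun u hu => P_const hu.1 c x]
  simp [hs]

theorem gI_mono (hf : BM f) (hg : BM g) (h : ∀ y, f y ≤ g y) (s : ℝ) (x : V) :
    gI s f x ≤ gI s g x :=
  setIntegral_mono_on (integrableOn_P hf le_rfl x) (integrableOn_P hg le_rfl x) measurableSet_Ioc
    fun _ hu => P_mono hf hg hu.1 h x

theorem gI_nonneg (h : ∀ y, 0 ≤ f y) (s : ℝ) (x : V) : 0 ≤ gI s f x :=
  setIntegral_nonneg measurableSet_Ioc fun _ hu => P_nonneg hu.1.le h x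

theorem gI_sum {ι : Type*} (S : Finset ι) {F : ι → V → ℝ} (h : ∀ i ∈ S, BM (F i)) (s : ℝ)
    (x : V) : gI s (fun y => ∑ i ∈ S, F i y) x = ∑ i ∈ S, gI s (F i) x := by
  simp only [gI]
  rw [← integral_finsetSum S fun i hi => integrableOn_P (h i hi) le_rfl x]
  exact setIntegral_congr_fun measurableSet_Ioc fun u hu => P_sum S h hu.1 x

theorem abs_gI_le (hg : BM g) (h : ∀ y, |f y| ≤ g y) (s : ℝ) (x : V) : |gI s f x| ≤ gI s g x :=
  norm_integral_le_of_norm_le (f := fun u => P u f x) (integrableOn_P hg le_rfl x)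
    ((ae_restrict_iff' measurableSet_Ioc).2 (Eventually.of_forall fun _ hu =>
      abs_P_le_of_le hg hu.1 h x))

theorem gI_le_of_le (hf : BM f) {K : ℝ} (hs : 0 ≤ s) {x : V} (h : ∀ u ∈ Ioc 0 s, P u f x ≤ K) :
    gI s f x ≤ s * K := by
  have := setIntegral_mono_on (integrableOn_P hf le_rfl x)
    (integrableOn_const (C := K) measure_Ioc_lt_top.ne) measurableSet_Ioc h
  simpa [hs, gI] using this

theorem gI_split (hf : BM f) (hs : 0 ≤ s) (hst : s ≤ t) (x : V) :
    gI t f x = gI s f x + ∫ u in Ioc s t, P u f x := by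
  rw [gI, gI, ← setIntegral_union (Ioc_disjoint_Ioc_of_le le_rfl) measurableSet_Ioc
    (integrableOn_P hf le_rfl x) (integrableOn_P hf hs x), Ioc_union_Ioc_eq_Ioc hs hst]

theorem gI_mono_time (hf : BM f) (h0 : ∀ y, 0 ≤ f y) (hs : 0 ≤ s) (hst : s ≤ t) (x : V) :
    gI s f x ≤ gI t f x := by
  rw [gI_split hf hs hst]
  exact le_add_of_nonneg_right (setIntegral_nonneg measurableSet_Ioc fun u hu =>
    P_nonneg (hs.trans hu.1.le) h0 x)

theorem bm_gI (hf : BM f) (s : ℝ) : BM (gI s f) := by
  unfold gI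
  simpa using bm_integral_mul_P hf (φ := fun _ => 1) (S := Ioc 0 s) measurableSet_Ioc
    (fun _ hu => hu.1) measurable_const (integrableOn_const measure_Ioc_lt_top.ne)

/-- The discounted potential is nonpositive if some truncation is nonpositive at every point. -/
theorem potential_nonpos (hf : BM f) {a s₀ : ℝ} (ha : 0 < a) (hs₀ : 0 < s₀)
    (h : ∀ x, ∃ s, s₀ ≤ s ∧ ∫ u in Ioc 0 s, exp (-a * u) * P u f x ≤ 0) (x : V) :
    ∫ u in Ioi 0, exp (-a * u) * P u f x ≤ 0 := by
  have hφ : IntegrableOn (fun u => exp (-a * u)) (Ioi 0) := exp_neg_integrableOn_Ioi 0 ha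
  have hZ := bm_integral_mul_P hf measurableSet_Ioi Subset.rfl (by fun_prop) hφ
  set Z : V → ℝ := fun x => ∫ u in Ioi 0, exp (-a * u) * P u f x with hZd
  obtain ⟨C, hC⟩ := hZ.bdd
  have hb : BddAbove (range Z) := ⟨C, by rintro _ ⟨x, rfl⟩; exact (le_abs_self _).trans (hC x)⟩
  have hS : ∀ x, Z x ≤ ⨆ x, Z x := le_ciSup hb
  by_contra hx
  have S0 : 0 < ⨆ x, Z x := (not_le.1 hx).trans_le (hS x)
  have key : ∀ x, Z x ≤ exp (-a * s₀) * ⨆ x, Z x := by
    intro x
    obtain ⟨s, h1, h2⟩ := h x
    have hs : 0 < s := hs₀.trans_le h1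
    have hi := integrableOn_mul_P hf measurableSet_Ioi Subset.rfl hφ x
    have e1 : Z x = (∫ u in Ioc 0 s, exp (-a * u) * P u f x) +
        ∫ u in Ioi s, exp (-a * u) * P u f x := by
      rw [← setIntegral_union Ioc_disjoint_Ioi_same measurableSet_Ioi
        (hi.mono_set Ioc_subset_Ioi_self) (hi.mono_set (Ioi_subset_Ioi hs.le)),
        Ioc_union_Ioi_eq_Ioi hs.le]
    have e2 : ∫ u in Ioi s, exp (-a * u) * P u f x = exp (-a * s) * P s Z x := by
      rw [hZd, P_integral_mul_P hf measurableSet_Ioi Subset.rfl (by fun_prop) hφ hs,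
        ← integral_const_mul, ← integral_indicator measurableSet_Ioi,
        ← integral_indicator measurableSet_Ioi, ← integral_add_left_eq_self _ s]
      refine integral_congr_ae (Eventually.of_forall fun u => ?_)
      by_cases hu : 0 < u
      · simp only [indicator_of_mem (show s + u ∈ Ioi s by simpa using hu),
          indicator_of_mem (show u ∈ Ioi 0 from hu), ← mul_assoc, ← exp_add, mul_add]
      · simp only [indicator_of_notMem (show s + u ∉ Ioi s by simpa using hu),
          indicator_of_notMem (show u ∉ Ioi 0 from hu)]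
    have e3 : P s Z x ≤ ⨆ x, Z x := (P_mono hZ (BM.const _) hs hS x).trans_eq (P_const hs _ x)
    calc Z x ≤ exp (-a * s) * P s Z x := by rw [e1, e2]; linarith
      _ ≤ exp (-a * s) * ⨆ x, Z x := by gcongr
      _ ≤ _ := mul_le_mul_of_nonneg_right (exp_le_exp.2 (by nlinarith)) S0.le
  have h1 : ⨆ x, Z x ≤ exp (-a * s₀) * ⨆ x, Z x := ciSup_le key
  have h2 : exp (-a * s₀) < 1 := exp_lt_one_iff.2 (by nlinarith)
  nlinarith

/-- The constant of the maximum principle. -/
noncomputable def cMax (V : Type*) [NormedAddCommGroup V] [InnerProductSpace ℝ V] : ℝ :=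
  (12 + 4 * hd V) * 4 ^ hd V

/-- If at every point some short truncated potential is nonpositive, then the heat averages at
much later times are almost nonpositive. -/
theorem max_principle (hf : BM f) {s₀ s₁ T θ M : ℝ} (hs₀ : 0 < s₀) (hT : 0 < T) (hθ : 0 < θ)
    (hθ1 : θ ≤ 1) (hs₁ : s₁ ≤ θ ^ 2 * T) (hM : ∀ y, |f y| ≤ M)
    (h : ∀ x, ∃ s, s₀ ≤ s ∧ s ≤ s₁ ∧ gI s f x ≤ 0) (y : V) :
    P T f y ≤ cMax V * θ * P (4 * T) (fun y => |f y|) y + 8 * exp (-(2 * θ)⁻¹) * M := by
  obtain ⟨a, ha⟩ : ∃ a, a = (θ * T)⁻¹ := ⟨_, rfl⟩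
  have a0 : 0 < a := by rw [ha]; positivity
  have aT : a * T = θ⁻¹ := by rw [ha]; field_simp
  have as : a * s₁ ≤ θ := by
    rw [ha, inv_mul_le_iff₀ (by positivity)]
    nlinarith
  have M0 : 0 ≤ M := (abs_nonneg _).trans (hM y)
  have hf' : BM (fun y => f y - 2 * θ * |f y|) := hf.sub (hf.abs.const_mul _)
  have e0 : ∀ u, 0 < u → ∀ x, P u (fun y => f y - 2 * θ * |f y|) x =
      P u f x - 2 * θ * P u (fun y => |f y|) x := fun u hu x => by
    rw [P_sub hf (hf.abs.const_mul _) hu, P_const_mul]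
  have hφ : ∀ {b : ℝ}, 0 < b → IntegrableOn (fun u => exp (-b * u)) (Ioi 0) := fun hb =>
    exp_neg_integrableOn_Ioi 0 hb
  have hZ := potential_nonpos hf' a0 hs₀ fun x => by
    obtain ⟨s, h1, h2, h3⟩ := h x
    refine ⟨s, h1, le_trans ?_ h3⟩
    refine setIntegral_mono_on ((integrableOn_mul_P hf' measurableSet_Ioi Subset.rfl (hφ a0)
      x).mono_set Ioc_subset_Ioi_self) (integrableOn_P hf le_rfl x) measurableSet_Ioc
      fun u hu => ?_
    have hu1 : a * u ≤ θ := (mul_le_mul_of_nonneg_left (hu.2.trans h2) a0.le).trans as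
    have hu0 : 0 < a * u := mul_pos a0 hu.1
    have b1 := Real.abs_exp_sub_one_le (x := a * u) (by rw [abs_of_pos hu0]; linarith)
    rw [abs_of_pos hu0] at b1
    have b2 := abs_P_le hu.1.le f x
    have b3 : 0 ≤ exp (a * u) - 1 := sub_nonneg.2 (one_le_exp hu0.le)
    rw [e0 u hu.1, neg_mul, exp_neg, inv_mul_le_iff₀ (exp_pos _)]
    have b4 := neg_abs_le (P u f x)
    have b5 := le_abs_self (exp (a * u) - 1)
    nlinarith [abs_nonneg (P u f x)]
  have h1 : ∫ u in Ioi 0, exp (-a * u) * P (T + u) (fun y => f y - 2 * θ * |f y|) y ≤ 0 := by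
    rw [← P_integral_mul_P hf' measurableSet_Ioi Subset.rfl (by fun_prop) (hφ a0) hT]
    exact (P_mono (bm_integral_mul_P hf' measurableSet_Ioi Subset.rfl (by fun_prop) (hφ a0))
      (BM.const 0) hT hZ y).trans_eq (P_const hT 0 y)
  have hi : IntegrableOn (fun u => exp (-a * u) * P (T + u) (fun y => f y - 2 * θ * |f y|) y)
      (Ioi 0) := by
    refine (integrableOn_mul_P (hf'.P hT) measurableSet_Ioi Subset.rfl (hφ a0) y).congr_fun
      (fun u hu => ?_) measurableSet_Ioi
    simp only [P_P hf' hu hT, add_comm]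
  set Q := P (4 * T) (fun y => |f y|) y with hQ
  have Q0 : 0 ≤ Q := P_nonneg (by positivity) (fun _ => abs_nonneg _) y
  have hd0 := hd_nonneg (V := V)
  obtain ⟨K, hK⟩ : ∃ K, K = (6 + 2 * hd V) * 4 ^ hd V * θ * Q + 4 * exp (-(2 * θ)⁻¹) * M := ⟨_, rfl⟩
  have h2 : ∫ u in Ioi 0, exp (-a * u) * P T f y ≤
      ∫ u in Ioi 0, (exp (-a * u) * P (T + u) (fun y => f y - 2 * θ * |f y|) y +
        exp (-(a / 2) * u) * K) := by
    refine setIntegral_mono_on ((hφ a0).mul_const _) (hi.add ((hφ (half_pos a0)).mul_const _))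
      measurableSet_Ioi fun u hu => ?_
    have hu0 : 0 < u := hu
    have e : exp (-(a / 2) * u) = exp (-a * u) * exp (a * u / 2) := by
      rw [← exp_add]; congr 1; ring
    rw [e, mul_assoc, ← mul_add, e0 _ (by positivity)]
    refine mul_le_mul_of_nonneg_left ?_ (exp_pos _).le
    have c0 : 1 + a * u / 2 ≤ exp (a * u / 2) := by linarith [add_one_le_exp (a * u / 2)]
    have c1 : 0 < a * u := mul_pos a0 hu0
    rcases le_total u T with huT | huT
    · have d1 := abs_P_sub_time hf hT (show T ≤ T + u by linarith) (by linarith) y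
      have d2 := P_le_of_le_mul hf.abs (fun _ => abs_nonneg _) (c := 4) (t := T + u) (s := 4 * T)
        (by positivity) (by linarith) (by linarith) y
      rw [← hQ] at d1 d2
      rw [add_sub_cancel_left, show u / T = θ * (a * u) by rw [ha]; field_simp] at d1
      have d3 := neg_abs_le (P (T + u) f y - P T f y)
      have d4 : 0 ≤ 4 ^ hd V * θ * Q := by positivity
      have d5 : 0 ≤ exp (a * u / 2) * (4 * exp (-(2 * θ)⁻¹) * M) := by positivity
      have d6 : (1 + a * u / 2) * ((6 + 2 * hd V) * (4 ^ hd V * θ * Q)) ≤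
          exp (a * u / 2) * ((6 + 2 * hd V) * (4 ^ hd V * θ * Q)) := by gcongr
      have d7 := mul_le_mul_of_nonneg_left d2 hθ.le
      rw [hK]
      nlinarith [mul_nonneg hd0 d4, mul_nonneg c1.le d4]
    · have d1 := abs_P_le_const hT hM y
      have d2 := abs_P_le_const (show 0 < T + u by positivity) hM y
      have d3 := abs_P_le_const (f := fun y => |f y|) (show 0 < T + u by positivity)
        (fun y => by rw [abs_abs]; exact hM y) y
      have d4 : 1 ≤ exp (a * u / 2) * exp (-(2 * θ)⁻¹) := by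
        rw [← exp_add]
        refine one_le_exp ?_
        have := mul_le_mul_of_nonneg_left huT a0.le
        rw [aT] at this
        rw [mul_inv]
        linarith
      have d5 : 0 ≤ exp (a * u / 2) * ((6 + 2 * hd V) * 4 ^ hd V * θ * Q) := by positivity
      have d6 := mul_le_mul_of_nonneg_right d4 M0
      have d7 := (le_abs_self _).trans d3
      have d8 := mul_le_mul hθ1 d7 (P_nonneg (by positivity) (fun _ => abs_nonneg _) y) zero_le_one
      rw [hK]
      nlinarith [le_abs_self (P T f y), neg_abs_le (P (T + u) f y)]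
  rw [integral_add hi ((hφ (half_pos a0)).mul_const _), integral_mul_const, integral_mul_const,
    integral_exp_mul_Ioi (by linarith), integral_exp_mul_Ioi (by linarith)] at h2
  simp only [mul_zero, exp_zero, neg_div_neg_eq] at h2
  have h3 : 1 / a * P T f y ≤ 1 / a * (2 * K) := by
    have : 1 / (a / 2) * K = 1 / a * (2 * K) := by field_simp
    linarith
  have h4 := le_of_mul_le_mul_left h3 (by positivity)
  rw [hK] at h4
  unfold cMax
  linarith

end Pool.Agent.Lib.MP_8daebb_an.HK
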