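import Pool.Agent.Lib.MP_8daebb_an.HK.Lap

/-! Integrating along the heat flow; bands with a cutoff. -/

open MeasureTheory Metric Filter Topology Set Real
open scoped RealInnerProductSpace

namespace Pool.Agent.Lib.MP_8daebb_an.HK

open AS (tr lap)

variable {V : Type*} [NormedAddCommGroup V] [InnerProductSpace ℝ V] [FiniteDimensional ℝ V]
  [MeasurableSpace V] [BorelSpace V]
variable {f g : V → ℝ} {s t : ℝ}

theorem continuousOn_of_semigroup {F : ℝ → V → ℝ} (hF : ∀ t, 0 < t → BM (F t))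
    (h : ∀ s t, 0 < s → 0 < t → F (s + t) = P s (F t)) (x : V) :
    ContinuousOn (fun s => F s x) (Ioi 0) := by
  intro t ht
  have ht' : 0 < t / 2 := half_pos ht
  have h1 := (hasDerivAt_P (hF _ ht') ht' x).continuousAt
  have h2 : ContinuousAt (fun s => P (s - t / 2) (F (t / 2)) x) t :=
    ContinuousAt.comp (g := fun s => P s (F (t / 2)) x) (f := fun s => s - t / 2)
      (by rw [sub_half]; exact h1) (by fun_prop)
  refine (h2.congr ?_).continuousWithinAt
  filter_upwards [Ioi_mem_nhds (half_lt_self ht)] with s hs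
  rw [← h _ _ (sub_pos.2 hs) ht', sub_add_cancel]

theorem continuousOn_pair_of_semigroup {F : ℝ → V → ℝ} (hg : Integrable g)
    (hF : ∀ t, 0 < t → BM (F t)) (h : ∀ s t, 0 < s → 0 < t → F (s + t) = P s (F t)) :
    ContinuousOn (fun s => ∫ x, g x * F s x) (Ioi 0) := by
  intro t ht
  have ht' : 0 < t / 2 := half_pos ht
  have h1 := (hasDerivAt_integral_mul_P hg (hF _ ht') ht').continuousAt
  have h2 : ContinuousAt (fun s => ∫ x, g x * P (s - t / 2) (F (t / 2)) x) t :=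
    ContinuousAt.comp (g := fun s => ∫ x, g x * P s (F (t / 2)) x) (f := fun s => s - t / 2)
      (by rw [sub_half]; exact h1) (by fun_prop)
  refine (h2.congr ?_).continuousWithinAt
  filter_upwards [Ioi_mem_nhds (half_lt_self ht)] with s hs
  rw [← h _ _ (sub_pos.2 hs) ht', sub_add_cancel]

theorem continuousOn_Cv_dG (hf : BM f) (x : V) : ContinuousOn (fun s => Cv (dG s) f x) (Ioi 0) :=
  continuousOn_of_semigroup (F := fun s => Cv (dG s) f) (fun _ ht => hf.cv (ker_dG ht))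
    (fun _ _ hs ht => funext (Cv_dG_add' hf hs ht)) x

theorem continuousOn_Cv_K1 (hf : BM f) (e x : V) :
    ContinuousOn (fun s => Cv (K1 s e) f x) (Ioi 0) :=
  continuousOn_of_semigroup (F := fun s => Cv (K1 s e) f) (fun _ ht => hf.cv (ker_K1 ht e))
    (fun _ _ hs ht => funext (Cv_K1_add' hf hs ht e)) x

theorem Cv_K2_add'' (hf : BM f) (hs : 0 < s) (ht : 0 < t) (e e' x : V) :
    Cv (K2 (s + t) e e') f x = P s (Cv (K2 t e e') f) x := by
  rw [add_comm, Cv_K2_add' hf ht hs, P_Cv_comm (ker_K2 ht e e') hf hs]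

theorem continuousOn_Cv_K2 (hf : BM f) (e e' x : V) :
    ContinuousOn (fun s => Cv (K2 s e e') f x) (Ioi 0) :=
  continuousOn_of_semigroup (F := fun s => Cv (K2 s e e') f) (fun _ ht => hf.cv (ker_K2 ht e e'))
    (fun _ _ hs ht => funext (Cv_K2_add'' hf hs ht e e')) x

theorem P_sub_P_eq (hf : BM f) {a b : ℝ} (ha : 0 < a) (hb : 0 < b) (x : V) :
    P b f x - P a f x = ∫ s in a..b, Cv (dG s) f x :=
  (intervalIntegral.integral_eq_sub_of_hasDerivAt
    (fun _ hs => hasDerivAt_P hf ((lt_min ha hb).trans_le hs.1) x)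
    (intervalIntegrable_of_Ioi (continuousOn_Cv_dG hf x) ha hb)).symm

theorem abs_P_sub_P_le (hf : C1b f) {a b : ℝ} (ha : 0 < a) (hab : a ≤ b) {x : V} {B : ℝ → ℝ}
    (hB : IntervalIntegrable B volume a b)
    (h : ∀ s ∈ Icc a b, 3 * 2 ^ hd V / √s * P (2 * s) (fun y => ‖fderiv ℝ f y‖) x ≤ B s) :
    |P b f x - P a f x| ≤ ∫ s in a..b, B s := by
  have hb : 0 < b := ha.trans_le hab
  rw [P_sub_P_eq hf.bm ha hb]
  refine (intervalIntegral.abs_integral_le_integral_abs hab).trans ?_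
  exact intervalIntegral.integral_mono_on hab
    (intervalIntegrable_of_Ioi (continuousOn_Cv_dG hf.bm x) ha hb).abs hB fun s hs =>
      (abs_Cv_dG_le_grad hf (ha.trans_le hs.1) x).trans (h s hs)

omit [FiniteDimensional ℝ V] [BorelSpace V] in
theorem C1b.lip (hf : C1b f) : ∃ K, 0 ≤ K ∧ ∀ x y, |f y - f x| ≤ K * ‖y - x‖ := by
  obtain ⟨C, hC⟩ := hf.db
  refine ⟨C, (norm_nonneg _).trans (hC 0), fun x y => ?_⟩
  exact Convex.norm_image_sub_le_of_norm_fderiv_le (s := univ)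
    (fun z _ => hf.cd.differentiable one_ne_zero z) (fun z _ => hC z) convex_univ trivial trivial

theorem tendsto_P_zero (hf : C1b f) (x : V) :
    Tendsto (fun s => P s f x) (𝓝[>] 0) (𝓝 (f x)) := by
  obtain ⟨K, K0, hK⟩ := hf.lip
  rw [tendsto_iff_norm_sub_tendsto_zero]
  have h1 : Tendsto (fun s : ℝ => 5 * 2 ^ hd V * √s * K) (𝓝[>] 0) (𝓝 0) := by
    have : Continuous (fun s : ℝ => 5 * 2 ^ hd V * √s * K) := by fun_prop
    simpa using (this.tendsto 0).mono_left nhdsWithin_le_nhds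
  refine squeeze_zero' (Eventually.of_forall fun _ => norm_nonneg _) ?_ h1
  filter_upwards [self_mem_nhdsWithin] with s hs
  exact abs_P_sub_self hf.bm hs K0 (hK x)

/-- the part of the flow below the smallest scale -/
theorem abs_sub_P_le_small (hf : C1b f) (ht : 0 < t) {x : V} {A : ℝ}
    (h : ∀ s ∈ Ioc 0 t, P (2 * s) (fun y => ‖fderiv ℝ f y‖) x ≤ A) :
    |f x - P t f x| ≤ 6 * 2 ^ hd V * √t * A := by
  have hA : 0 ≤ A :=
    (P_nonneg (by positivity) (fun y => norm_nonneg _) x).trans (h t ⟨ht, le_rfl⟩)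
  have key : ∀ a ∈ Ioc 0 t, |P a f x - P t f x| ≤ 6 * 2 ^ hd V * √t * A := fun a ha => by
    have hd1 : ∀ s ∈ uIcc a t, HasDerivAt (fun s => 6 * 2 ^ hd V * A * √s)
        (3 * 2 ^ hd V / √s * A) s := fun s hs => by
      have hs0 : 0 < s := (lt_min ha.1 ht).trans_le hs.1
      have : 0 < √s := sqrt_pos.2 hs0
      refine ((hasDerivAt_sqrt hs0.ne').const_mul _).congr_deriv ?_
      field_simp; ring
    have hI : IntervalIntegrable (fun s => 3 * 2 ^ hd V / √s * A) volume a t :=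
      intervalIntegrable_of_Ioi ((continuousOn_const.div continuous_sqrt.continuousOn
        fun s hs => (sqrt_pos.2 hs).ne').mul continuousOn_const) ha.1 ht
    have h1 := abs_P_sub_P_le hf ha.1 ha.2 (x := x) hI fun s hs =>
      mul_le_mul_of_nonneg_left (h s ⟨ha.1.trans_le hs.1, hs.2⟩) (by positivity)
    rw [intervalIntegral.integral_eq_sub_of_hasDerivAt hd1 hI, abs_sub_comm] at h1
    have : 0 ≤ 6 * 2 ^ hd V * A * √a := by positivity
    linarith
  have h2 : Tendsto (fun a => |P a f x - P t f x|) (𝓝[>] 0) (𝓝 |f x - P t f x|) :=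
    ((tendsto_P_zero hf x).sub_const _).abs
  refine le_of_tendsto h2 ?_
  filter_upwards [Ioc_mem_nhdsGT ht] with a ha using key a ha

theorem abs_P_sub_P_le_log (hf : C1b f) {r : ℝ} (hr : 0 < r) (hrt : r ≤ t) {x : V} {A : ℝ}
    (h : ∀ s ∈ Icc r t, P (2 * s) (fun y => ‖fderiv ℝ f y‖) x ≤ A / √s) :
    |P t f x - P r f x| ≤ 3 * 2 ^ hd V * A * log (t / r) := by
  have ht : 0 < t := hr.trans_le hrt
  have hI : IntervalIntegrable (fun s : ℝ => 3 * 2 ^ hd V * A * s⁻¹) volume r t :=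
    intervalIntegrable_of_Ioi (continuousOn_const.mul
      (continuousOn_inv₀.mono fun s hs => ne_of_gt hs)) hr ht
  have h1 := abs_P_sub_P_le hf hr hrt (x := x) hI fun s hs => by
    have hs0 : 0 < s := hr.trans_le hs.1
    have h2 : 0 < √s := sqrt_pos.2 hs0
    calc _ ≤ 3 * 2 ^ hd V / √s * (A / √s) := mul_le_mul_of_nonneg_left (h s hs) (by positivity)
      _ = 3 * 2 ^ hd V * A * (√s * √s)⁻¹ := by field_simp
      _ = _ := by rw [mul_self_sqrt hs0.le]
  rwa [intervalIntegral.integral_const_mul, integral_inv_of_pos hr ht] at h1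

/-- oscillation bound at a point with small energy at all scales -/
theorem abs_sub_P_le_log (hf : C1b f) {r : ℝ} (hr : 0 < r) (hrt : r ≤ t) {x : V} {A : ℝ}
    (h1 : ∀ s ∈ Ioc 0 r, P (2 * s) (fun y => ‖fderiv ℝ f y‖) x ≤ A / √r)
    (h2 : ∀ s ∈ Icc r t, P (2 * s) (fun y => ‖fderiv ℝ f y‖) x ≤ A / √s) :
    |f x - P t f x| ≤ 3 * 2 ^ hd V * A * (2 + log (t / r)) := by
  have a := abs_sub_P_le_small hf hr h1
  have b := abs_P_sub_P_le_log hf hr hrt h2
  have hs : 0 < √r := sqrt_pos.2 hr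
  have c : 6 * 2 ^ hd V * √r * (A / √r) = 3 * 2 ^ hd V * A * 2 := by field_simp; ring
  rw [c] at a
  rw [abs_sub_comm] at b
  calc _ ≤ |f x - P r f x| + |P r f x - P t f x| := abs_sub_le _ _ _
    _ ≤ _ := by linarith

theorem P_le_sqrt_P_sq (hf : BM f) (ht : 0 < t) (x : V) :
    P t f x ≤ √(P t (fun y => f y ^ 2) x) := le_sqrt_of_sq_le (P_sq_le hf ht x)

theorem Cv_K1_Cv_dG (hf : BM f) {t₀ : ℝ} (h0 : 0 < t₀) (ht : 0 < t) (e x : V) :
    Cv (K1 t e) (Cv (dG t₀) f) x = Cv (dG (t + t₀ / 2)) (Cv (K1 (t₀ / 2) e) f) x := by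
  have hh := half_pos h0
  have h1 : Cv (dG t₀) f = P (t₀ / 2) (Cv (dG (t₀ / 2)) f) := by
    funext y; rw [← Cv_dG_add' hf hh hh, add_halves]
  rw [h1, ← Cv_K1_add (hf.cv (ker_dG hh)) ht hh, Cv_K1_add' (hf.cv (ker_dG hh)) ht hh,
    Cv_dG_add' (hf.cv (ker_K1 hh e)) ht hh, funext (Cv_comm (ker_K1 hh e) (ker_dG hh) hf)]

/-- the gradient of `u = P t₀ f` in terms of its Laplacian, paired with an integrable function -/
theorem pair_fderiv_sub (hg : Integrable g) (hf : BM f) {t₀ T : ℝ} (h0 : 0 < t₀) (hT : 0 < T)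
    (e : V) :
    IntervalIntegrable (fun t => ∫ x, g x * Cv (K1 t e) (lap (P t₀ f)) x) volume 0 T ∧
    (∫ x, g x * fderiv ℝ (P T (P t₀ f)) x e) - ∫ x, g x * fderiv ℝ (P t₀ f) x e =
      ∫ t in (0 : ℝ)..T, ∫ x, g x * Cv (K1 t e) (lap (P t₀ f)) x := by
  have hh := half_pos h0
  set w := Cv (K1 (t₀ / 2) e) f with hw
  have bw : BM w := hf.cv (ker_K1 hh e)
  have hc : ContinuousOn (fun t => ∫ x, g x * Cv (dG (t + t₀ / 2)) w x) (uIcc 0 T) := by
    refine (continuousOn_pair_of_semigroup (F := fun s => Cv (dG s) w) hg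
      (fun _ ht => bw.cv (ker_dG ht)) fun _ _ hs ht => funext (Cv_dG_add' bw hs ht)).comp
      (f := fun t => t + t₀ / 2) (by fun_prop) fun t ht => ?_
    rw [uIcc_of_le hT.le] at ht
    exact add_pos_of_nonneg_of_pos ht.1 hh
  have hI := hc.intervalIntegrable (μ := volume)
  have h1 := intervalIntegral.integral_eq_sub_of_hasDerivAt (a := 0) (b := T)
    (f := fun t => ∫ x, g x * P (t + t₀ / 2) w x) (fun t ht => by
      rw [uIcc_of_le hT.le] at ht
      exact (hasDerivAt_integral_mul_P hg bw (add_pos_of_nonneg_of_pos ht.1 hh)).comp_add_const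
        t (t₀ / 2)) hI
  have h2 : ∀ t ∈ Ioc 0 T, ∫ x, g x * Cv (dG (t + t₀ / 2)) w x =
      ∫ x, g x * Cv (K1 t e) (lap (P t₀ f)) x := fun t ht => by
    simp only [lap_P_fun hf h0, Cv_K1_Cv_dG hf h0 ht.1, hw]
  have h3 : ∀ x, P (T + t₀ / 2) w x = fderiv ℝ (P T (P t₀ f)) x e := fun x => by
    rw [P_P_fun hf hT h0, fderiv_P hf (by positivity), hw, ← Cv_K1_add' hf (by positivity) hh]
    congr 2; ring
  have h4 : ∀ x, P (0 + t₀ / 2) w x = fderiv ℝ (P t₀ f) x e := fun x => by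
    rw [zero_add, fderiv_P hf h0, hw, ← Cv_K1_add' hf hh hh, add_halves]
  simp only [h3, h4] at h1
  refine ⟨?_, ?_⟩
  · rw [intervalIntegrable_iff_integrableOn_Ioc_of_le hT.le] at hI ⊢
    exact hI.congr_fun h2 measurableSet_Ioc
  · rw [← h1, intervalIntegral.integral_of_le hT.le, intervalIntegral.integral_of_le hT.le]
    exact setIntegral_congr_fun measurableSet_Ioc h2

/-! ### commutators with a cutoff -/

/-- local oscillation of a cutoff -/
noncomputable def osc (t : ℝ) (ζ : V → ℝ) (y : V) : ℝ := P t (fun x => (ζ x - ζ y) ^ 2) y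

theorem osc_eq {ζ : V → ℝ} (hζ : BM ζ) (ht : 0 < t) (y : V) :
    osc t ζ y = P t (fun x => ζ x ^ 2) y - 2 * ζ y * P t ζ y + ζ y ^ 2 := by
  have e : (fun x => (ζ x - ζ y) ^ 2) = fun x => (ζ x ^ 2 - 2 * ζ y * ζ x) + ζ y ^ 2 := by
    funext x; ring
  rw [osc, e, P_add (hζ.sq.sub (hζ.const_mul _)) (BM.const _) ht, P_sub hζ.sq (hζ.const_mul _) ht,
    P_const_mul, P_const ht]

theorem BM.osc {ζ : V → ℝ} (hζ : BM ζ) (ht : 0 < t) : BM (osc t ζ) := by
  rw [funext (osc_eq hζ ht)]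
  exact ((hζ.sq.P ht).sub ((hζ.const_mul 2).mul (hζ.P ht))).add hζ.sq

theorem osc_nonneg (ζ : V → ℝ) (ht : 0 < t) (y : V) : 0 ≤ osc t ζ y :=
  P_nonneg ht.le (fun _ => sq_nonneg _) y

theorem osc_le_lip {ζ : V → ℝ} (ht : 0 < t) {K : ℝ} (hK : ∀ x y, |ζ x - ζ y| ≤ K * ‖x - y‖)
    (y : V) : osc t ζ y ≤ 8 * 2 ^ hd V * K ^ 2 * t := by
  have := abs_integral_le_P (g := fun _ => 1) (BM.const 1) (show 0 < 2 * t by positivity)
    (k := fun x => G t (x - y) * (ζ x - ζ y) ^ 2) (x := y) (C := 8 * 2 ^ hd V * K ^ 2 * t)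
    fun x => by
      rw [abs_mul, abs_G ht.le, abs_pow]
      have h1 := sq_mul_G_le ht (x - y)
      have h2 := G_pos ht (x - y)
      calc _ ≤ G t (x - y) * (K * ‖x - y‖) ^ 2 := by gcongr; exact hK x y
        _ = K ^ 2 * (‖x - y‖ ^ 2 * G t (x - y)) := by ring
        _ ≤ K ^ 2 * (8 * 2 ^ hd V * t * G (2 * t) (x - y)) := by gcongr
        _ = _ := by ring
  rw [P_const (by positivity), mul_one] at this
  exact (le_abs_self _).trans this

theorem osc_le_far {ζ : V → ℝ} (ht : 0 < t) (h1 : ∀ x, |ζ x| ≤ 1) {z y : V} {R l : ℝ}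
    (hl : 0 ≤ l) (h0 : ∀ x, R ≤ ‖x - z‖ → ζ x = 0) (hy : R + l ≤ ‖y - z‖) :
    osc t ζ y ≤ 2 ^ hd V * exp (-(l ^ 2 / t / 8)) := by
  have hy0 : ζ y = 0 := h0 y (by linarith)
  have := abs_integral_le_P (g := fun _ => 1) (BM.const 1) (show 0 < 2 * t by positivity)
    (k := fun x => G t (x - y) * (ζ x - ζ y) ^ 2) (x := y)
    (C := 2 ^ hd V * exp (-(l ^ 2 / t / 8))) fun x => by
      have h3 := G_pos (show 0 < 2 * t by positivity) (x - y)
      by_cases hx : R ≤ ‖x - z‖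
      · rw [h0 x hx, hy0]; simp only [sub_self, ne_eq, OfNat.ofNat_ne_zero, not_false_eq_true,
          zero_pow, mul_zero, abs_zero]; positivity
      · have h4 : l ≤ ‖x - y‖ := by
          have := norm_sub_le_norm_sub_add_norm_sub y x z
          rw [norm_sub_rev y x] at this
          linarith [not_le.1 hx]
        have h5 := G_tail ht (A := l ^ 2 / t) (z := x - y) (by
          rw [div_mul_cancel₀ _ ht.ne']; exact pow_le_pow_left₀ hl h4 2)
        rw [hy0, sub_zero, abs_mul, abs_G ht.le, abs_pow, mul_one, ← mul_one (_ * G (2 * t) _)]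
        exact mul_le_mul h5 (pow_le_one₀ (abs_nonneg _) (h1 x)) (by positivity) (by positivity)
  rw [P_const (by positivity), mul_one] at this
  exact (le_abs_self _).trans this

theorem integral_sq_comm_le {ζ : V → ℝ} (hζ : BM ζ) (hf : LI f) (ht : 0 < t) :
    ∫ x, (ζ x * P t f x - P t (fun y => ζ y * f y) x) ^ 2 ≤ ∫ y, f y ^ 2 * osc t ζ y := by
  have hb := hf.bm
  have e1 : ∀ x, (ζ x * P t f x - P t (fun y => ζ y * f y) x) ^ 2 ≤
      ζ x ^ 2 * P t (fun y => f y ^ 2) x - 2 * (ζ x * P t (fun y => ζ y * f y ^ 2) x) +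
        P t (fun y => ζ y ^ 2 * f y ^ 2) x := fun x => by
    rw [← P_const_mul, ← P_sub (hb.const_mul _) (hζ.mul hb) ht]
    refine (P_sq_le ((hb.const_mul _).sub (hζ.mul hb)) ht x).trans (le_of_eq ?_)
    have e : (fun y => (ζ x * f y - ζ y * f y) ^ 2) = fun y =>
        (ζ x ^ 2 * f y ^ 2 - (2 * ζ x) * (ζ y * f y ^ 2)) + ζ y ^ 2 * f y ^ 2 := by
      funext y; ring
    rw [e, P_add ((hb.sq.const_mul _).sub ((hζ.mul hb.sq).const_mul _)) (hζ.sq.mul hb.sq) ht,
      P_sub (hb.sq.const_mul _) ((hζ.mul hb.sq).const_mul _) ht, P_const_mul, P_const_mul]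
    ring
  have i1 := (hf.sq.P ht).bd_mul hζ.sq
  have i2 := ((hf.sq.bd_mul hζ).P ht).bd_mul hζ
  have i3 := (hf.sq.bd_mul hζ.sq).P ht
  refine (integral_mono (((hf.P ht).bd_mul hζ).sub ((hf.bd_mul hζ).P ht)).sq.int
    ((i1.sub (i2.const_mul 2)).add i3).int e1).trans (le_of_eq ?_)
  rw [integral_add (i1.sub (i2.const_mul 2)).int i3.int, integral_sub i1.int (i2.const_mul 2).int,
    integral_const_mul, integral_P (hf.sq.bd_mul hζ.sq).int ht]
  have j1 : ∫ x, ζ x ^ 2 * P t (fun y => f y ^ 2) x = ∫ y, f y ^ 2 * P t (fun x => ζ x ^ 2) y := by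
    rw [integral_mul_P hf.sq.int hζ.sq ht]; simp only [mul_comm]
  have j2 : ∫ x, ζ x * P t (fun y => ζ y * f y ^ 2) x = ∫ y, ζ y * f y ^ 2 * P t ζ y := by
    rw [integral_mul_P (hf.sq.bd_mul hζ).int hζ ht]; simp only [mul_comm]
  have k1 := hf.sq.mul_bd (hζ.sq.P ht)
  have k2 := (hf.sq.bd_mul hζ).mul_bd (hζ.P ht)
  rw [j1, j2, ← integral_const_mul, ← integral_sub k1.int (k2.const_mul 2).int,
    ← integral_add (k1.sub (k2.const_mul 2)).int (hf.sq.bd_mul hζ.sq).int]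
  congr 1; funext y
  rw [osc_eq hζ ht]; ring

theorem cutoff_band_le {ζ : V → ℝ} (hζ : BM ζ) (hf : LI f) (hs : 0 < s) (hst : s ≤ t) :
    ∫ x, ζ x ^ 2 * (P s f x - P t f x) ^ 2 ≤
      3 * ((∫ x, P s (fun y => ζ y * f y) x ^ 2) - ∫ x, P t (fun y => ζ y * f y) x ^ 2) +
        3 * ((∫ y, f y ^ 2 * osc s ζ y) + ∫ y, f y ^ 2 * osc t ζ y) := by
  have ht : 0 < t := hs.trans_le hst
  have h1 := integral_sq_P_sub_le (hf.bd_mul hζ) hs hst
  have h2 := integral_sq_comm_le hζ hf hs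
  have h3 := integral_sq_comm_le hζ hf ht
  have i1 := (((hf.bd_mul hζ).P hs).sub ((hf.bd_mul hζ).P ht)).sq
  have i2 := (((hf.P hs).bd_mul hζ).sub ((hf.bd_mul hζ).P hs)).sq
  have i3 := (((hf.P ht).bd_mul hζ).sub ((hf.bd_mul hζ).P ht)).sq
  have h4 := integral_mono (((hf.P hs).sub (hf.P ht)).sq.bd_mul hζ.sq).int
    (((i1.add i2).add i3).const_mul 3).int fun x => by
      set a := P s (fun y => ζ y * f y) x - P t (fun y => ζ y * f y) x
      set b := ζ x * P s f x - P s (fun y => ζ y * f y) x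
      set c := ζ x * P t f x - P t (fun y => ζ y * f y) x
      have e : ζ x ^ 2 * (P s f x - P t f x) ^ 2 = (a + b - c) ^ 2 := by
        simp only [a, b, c]; ring
      simp only [e]
      nlinarith [sq_nonneg (a - b), sq_nonneg (a + c), sq_nonneg (b + c)]
  rw [integral_const_mul, integral_add (i1.add i2).int i3.int, integral_add i1.int i2.int] at h4
  linarith

theorem integral_mul_osc_le {ζ w : V → ℝ} (hζ : BM ζ) (hw : LI w) (hw0 : ∀ y, 0 ≤ w y) {T : ℝ}
    (ht : 0 < t) (htT : t ≤ T) {K : ℝ} (hK : ∀ x y, |ζ x - ζ y| ≤ K * ‖x - y‖)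
    (h1 : ∀ x, |ζ x| ≤ 1) {z : V} {R l : ℝ} (hl : 0 ≤ l) (h0 : ∀ x, R ≤ ‖x - z‖ → ζ x = 0) :
    ∫ y, w y * osc t ζ y ≤ 8 * 2 ^ hd V * K ^ 2 * T * (∫ y in ball z (R + l), w y) +
      2 ^ hd V * exp (-(l ^ 2 / T / 8)) * ∫ y, w y := by
  rw [← integral_indicator measurableSet_ball, ← integral_const_mul, ← integral_const_mul,
    ← integral_add ((hw.int.indicator measurableSet_ball).const_mul _) (hw.int.const_mul _)]
  refine integral_mono (hw.mul_bd (hζ.osc ht)).int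
    (((hw.int.indicator measurableSet_ball).const_mul _).add (hw.int.const_mul _)) fun y => ?_
  have hy := hw0 y
  have hT : 0 < T := ht.trans_le htT
  by_cases hb : y ∈ ball z (R + l)
  · simp only [indicator_of_mem hb]
    have a := osc_le_lip ht hK y
    have b : 0 ≤ 2 ^ hd V * exp (-(l ^ 2 / T / 8)) * w y := by positivity
    have c : w y * osc t ζ y ≤ w y * (8 * 2 ^ hd V * K ^ 2 * T) :=
      mul_le_mul_of_nonneg_left (a.trans (by gcongr)) hy
    linarith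
  · simp only [indicator_of_notMem hb, mul_zero, zero_add]
    rw [mem_ball_iff_norm, not_lt] at hb
    rw [mul_comm]
    refine mul_le_mul_of_nonneg_right ((osc_le_far ht h1 hl h0 hb).trans ?_) hy
    gcongr

/-- bands with a cutoff, scalar form -/
theorem sum_cutoff_band_le {ζ : V → ℝ} (hζ : BM ζ) (hf : LI f) {τ : ℕ → ℝ} (h0 : 0 < τ 0)
    (hm : Monotone τ) (n : ℕ) {E : ℝ} (hE : ∀ i ≤ n, ∫ y, f y ^ 2 * osc (τ i) ζ y ≤ E) :
    ∑ i ∈ Finset.range n, ∫ x, ζ x ^ 2 * (P (τ i) f x - P (τ (i + 1)) f x) ^ 2 ≤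
      3 * (∫ x, ζ x ^ 2 * f x ^ 2) + 6 * n * E := by
  have hp : ∀ i, 0 < τ i := fun i => h0.trans_le (hm (Nat.zero_le i))
  set a : ℕ → ℝ := fun i => ∫ x, P (τ i) (fun y => ζ y * f y) x ^ 2 with ha
  calc _ ≤ ∑ i ∈ Finset.range n, (3 * (a i - a (i + 1)) + 6 * E) := by
        refine Finset.sum_le_sum fun i hi => ?_
        have hi' := Finset.mem_range.1 hi
        have := cutoff_band_le hζ hf (hp i) (hm (Nat.le_succ i))
        have h1 := hE i hi'.le
        have h2 := hE (i + 1) hi'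
        simp only [ha]
        linarith
    _ = 3 * (a 0 - a n) + 6 * n * E := by
        rw [Finset.sum_add_distrib, ← Finset.mul_sum, Finset.sum_range_sub', Finset.sum_const,
          Finset.card_range, nsmul_eq_mul]
        ring
    _ ≤ _ := by
        have h1 := integral_sq_P_le (hf.bd_mul hζ) h0
        have h2 : 0 ≤ a n := integral_nonneg fun x => sq_nonneg _
        simp only [mul_pow] at h1
        simp only [ha] at h2 ⊢
        linarith

/-- bands with a cutoff, for gradients -/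
theorem sum_cutoff_band_grad_le {ζ u : V → ℝ} (hζ : BM ζ) (hu : C1b u)
    (hi : Integrable fun y => ‖fderiv ℝ u y‖) {τ : ℕ → ℝ} (h0 : 0 < τ 0)
    (hm : Monotone τ) (n : ℕ) {T K : ℝ} (hT : τ n ≤ T) (hK : ∀ x y, |ζ x - ζ y| ≤ K * ‖x - y‖)
    (h1 : ∀ x, |ζ x| ≤ 1) {z : V} {R l : ℝ} (hl : 0 ≤ l) (hz : ∀ x, R ≤ ‖x - z‖ → ζ x = 0) :
    ∑ i ∈ Finset.range n, ∫ x, ζ x ^ 2 *
        ‖fderiv ℝ (P (τ i) u) x - fderiv ℝ (P (τ (i + 1)) u) x‖ ^ 2 ≤
      3 * (∫ x, ζ x ^ 2 * ‖fderiv ℝ u x‖ ^ 2) + 6 * n *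
        (8 * 2 ^ hd V * K ^ 2 * T * (∫ y in ball z (R + l), ‖fderiv ℝ u y‖ ^ 2) +
          2 ^ hd V * exp (-(l ^ 2 / T / 8)) * ∫ y, ‖fderiv ℝ u y‖ ^ 2) := by
  set b := stdOrthonormalBasis ℝ V
  have hp : ∀ i, 0 < τ i := fun i => h0.trans_le (hm (Nat.zero_le i))
  have hn : LI fun y => ‖fderiv ℝ u y‖ := ⟨hu.bm_norm, hi⟩
  have hl' : ∀ e, LI fun y => fderiv ℝ u y e := fun e =>
    LI.of_le (hu.bm_apply e).meas (hn.mul_bd (BM.const ‖e‖)) fun y => (fderiv ℝ u y).le_opNorm e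
  set a : ℕ → ℝ := fun i => ∑ j, ∫ x, P (τ i) (fun y => ζ y * fderiv ℝ u y (b j)) x ^ 2 with ha
  set E := 8 * 2 ^ hd V * K ^ 2 * T * (∫ y in ball z (R + l), ‖fderiv ℝ u y‖ ^ 2) +
    2 ^ hd V * exp (-(l ^ 2 / T / 8)) * ∫ y, ‖fderiv ℝ u y‖ ^ 2 with hE
  have hE' : ∀ i ≤ n, ∑ j, ∫ y, fderiv ℝ u y (b j) ^ 2 * osc (τ i) ζ y ≤ E := fun i hi => by
    rw [← integral_finsetSum _ fun j _ => ((hl' (b j)).sq.mul_bd (hζ.osc (hp i))).int]
    simp only [← Finset.sum_mul, ← norm_sq_eq_sum b]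
    exact integral_mul_osc_le hζ hn.sq (fun y => sq_nonneg _) (hp i) ((hm hi).trans hT) hK h1 hl hz
  calc _ ≤ ∑ i ∈ Finset.range n, (3 * (a i - a (i + 1)) + 6 * E) := by
        refine Finset.sum_le_sum fun i hi => ?_
        have hi' := Finset.mem_range.1 hi
        have h2 := hE' i hi'.le
        have h3 := hE' (i + 1) hi'
        have h4 := Finset.sum_le_sum fun j (_ : j ∈ Finset.univ) =>
          cutoff_band_le hζ (hl' (b j)) (hp i) (hm (Nat.le_succ i))
        rw [← integral_finsetSum _ fun j _ =>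
          ((((hl' (b j)).P (hp i)).sub ((hl' (b j)).P (hp _))).sq.bd_mul hζ.sq).int] at h4
        simp only [Finset.sum_add_distrib, ← Finset.mul_sum, Finset.sum_sub_distrib] at h4
        simp only [norm_sq_eq_sum b, sub_apply, fderiv_P_comm hu (hp _), ha]
        simp only [Nat.succ_eq_add_one] at h4
        linarith
    _ = 3 * (a 0 - a n) + 6 * n * E := by
        rw [Finset.sum_add_distrib, ← Finset.mul_sum, Finset.sum_range_sub', Finset.sum_const,
          Finset.card_range, nsmul_eq_mul]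
        ring
    _ ≤ _ := by
        have h2 : 0 ≤ a n := Finset.sum_nonneg fun j _ => integral_nonneg fun x => sq_nonneg _
        have h3 : a 0 ≤ ∫ x, ζ x ^ 2 * ‖fderiv ℝ u x‖ ^ 2 := by
          simp only [norm_sq_eq_sum b, Finset.mul_sum]
          rw [integral_finsetSum _ fun j _ => ((hl' (b j)).sq.bd_mul hζ.sq).int]
          refine Finset.sum_le_sum fun j _ => ?_
          simpa only [mul_pow] using integral_sq_P_le ((hl' (b j)).bd_mul hζ) h0
        linarith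

end Pool.Agent.Lib.MP_8daebb_an.HK
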