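import Pool.Agent.Lib.MP_8daebb_an.HK.Int

/-! Generic correlation operators `Cv K f x = ∫ K (y - x) f y` on a Euclidean space. -/

open MeasureTheory Set Filter Topology
open scoped RealInnerProductSpace

namespace Pool.Agent.Lib.MP_8daebb_an.HK

variable {V : Type*} [NormedAddCommGroup V] [InnerProductSpace ℝ V] [FiniteDimensional ℝ V]
  [MeasurableSpace V] [BorelSpace V]

/-- bounded measurable integrable functions -/
structure LI (f : V → ℝ) : Prop where
  bm : BM f
  int : Integrable f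

/-- measurable integrable kernels -/
structure Ker (K : V → ℝ) : Prop where
  meas : Measurable K
  int : Integrable K

/-- the operator with kernel `K (y - x)` -/
noncomputable def Cv (K f : V → ℝ) (x : V) : ℝ := ∫ y, K (y - x) * f y

section classes
variable {f g : V → ℝ}

omit [InnerProductSpace ℝ V] [FiniteDimensional ℝ V] [BorelSpace V] [NormedAddCommGroup V] in
theorem BM.sq (hf : BM f) : BM (fun x => f x ^ 2) := hf.pow 2

omit [InnerProductSpace ℝ V] [FiniteDimensional ℝ V] in
theorem BM.of_continuous (hf : Continuous f) {C : ℝ} (h : ∀ x, |f x| ≤ C) : BM f :=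
  ⟨hf.measurable, C, h⟩

theorem LI.of_compact (hf : Continuous f) (hc : HasCompactSupport f) : LI f :=
  ⟨BM.of_compactSupport hf hc, hf.integrable_of_hasCompactSupport hc⟩

omit [InnerProductSpace ℝ V] [FiniteDimensional ℝ V] in
theorem BM.shift (hf : BM f) (x : V) : BM (fun z => f (x + z)) :=
  hf.comp (measurable_const_add x)

theorem LI.of_le (hf : Measurable f) (hg : LI g) (h : ∀ x, |f x| ≤ g x) : LI f :=
  ⟨hg.bm.of_abs_le hf h,
    hg.int.mono' hf.aestronglyMeasurable (Eventually.of_forall fun x => by simpa using h x)⟩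

theorem LI.of_support (hf : BM f) {c : V} {R : ℝ} (h : ∀ x, R ≤ ‖x - c‖ → f x = 0) : LI f := by
  refine ⟨hf, ?_⟩
  obtain ⟨A, hA⟩ := hf.bdd
  have h1 : IntegrableOn f (Metric.closedBall c R) :=
    Measure.integrableOn_of_bounded (M := A) (measure_closedBall_lt_top).ne
      hf.meas.aestronglyMeasurable (Eventually.of_forall fun x => by simpa using hA x)
  refine h1.integrable_of_forall_notMem_eq_zero fun x hx => h x ?_
  rw [mem_closedBall_iff_norm, not_le] at hx
  exact hx.le

theorem LI.add (hf : LI f) (hg : LI g) : LI (fun x => f x + g x) :=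
  ⟨hf.bm.add hg.bm, hf.int.add hg.int⟩

theorem LI.neg (hf : LI f) : LI (fun x => -f x) := ⟨hf.bm.neg, hf.int.neg⟩

theorem LI.sub (hf : LI f) (hg : LI g) : LI (fun x => f x - g x) :=
  ⟨hf.bm.sub hg.bm, hf.int.sub hg.int⟩

theorem LI.mul_bd (hf : LI f) (hg : BM g) : LI (fun x => f x * g x) :=
  ⟨hf.bm.mul hg, hg.integrable_mul hf.int⟩

theorem LI.bd_mul (hf : LI f) (hg : BM g) : LI (fun x => g x * f x) :=
  ⟨hg.mul hf.bm, hg.mul_integrable hf.int⟩

theorem LI.const_mul (hf : LI f) (c : ℝ) : LI (fun x => c * f x) := hf.bd_mul (BM.const c)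

theorem LI.sq (hf : LI f) : LI (fun x => f x ^ 2) := by
  simpa [pow_two] using hf.mul_bd hf.bm

theorem LI.abs (hf : LI f) : LI (fun x => |f x|) := ⟨hf.bm.abs, hf.int.abs⟩

theorem LI.sum {ι : Type*} (s : Finset ι) {F : ι → V → ℝ} (h : ∀ i ∈ s, LI (F i)) :
    LI (fun x => ∑ i ∈ s, F i x) :=
  ⟨BM.sum s fun i hi => (h i hi).bm, integrable_finsetSum s fun i hi => (h i hi).int⟩

theorem Ker.add (hf : Ker f) (hg : Ker g) : Ker (fun x => f x + g x) :=
  ⟨hf.meas.add hg.meas, hf.int.add hg.int⟩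

theorem Ker.sub (hf : Ker f) (hg : Ker g) : Ker (fun x => f x - g x) :=
  ⟨hf.meas.sub hg.meas, hf.int.sub hg.int⟩

theorem Ker.abs (hf : Ker f) : Ker (fun x => |f x|) := ⟨hf.meas.abs, hf.int.abs⟩

theorem Ker.const_mul (hf : Ker f) (c : ℝ) : Ker (fun x => c * f x) :=
  ⟨measurable_const.mul hf.meas, hf.int.const_mul c⟩

theorem Ker.flip (hf : Ker f) : Ker (fun x => f (-x)) :=
  ⟨hf.meas.comp measurable_neg, hf.int.comp_neg⟩

theorem Ker.sum {ι : Type*} (s : Finset ι) {F : ι → V → ℝ} (h : ∀ i ∈ s, Ker (F i)) :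
    Ker (fun x => ∑ i ∈ s, F i x) :=
  ⟨Finset.measurable_fun_sum s fun i hi => (h i hi).meas,
    integrable_finsetSum s fun i hi => (h i hi).int⟩

theorem Ker.of_le (hf : Measurable f) (hg : Integrable g) (h : ∀ x, |f x| ≤ g x) : Ker f :=
  ⟨hf, hg.mono' hf.aestronglyMeasurable (Eventually.of_forall fun x => by simpa using h x)⟩

end classes

section basic
variable {K K' f g : V → ℝ}

theorem Cv_eq_add (K f : V → ℝ) (x : V) : Cv K f x = ∫ z, K z * f (x + z) := by
  unfold Cv
  rw [← integral_add_left_eq_self (fun y => K (y - x) * f y) x]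
  simp

theorem Ker.int_cv (hK : Ker K) (hf : BM f) (x : V) : Integrable (fun y => K (y - x) * f y) :=
  hf.integrable_mul (hK.int.comp_sub_right x)

theorem Ker.int_cv' (hK : Ker K) (hf : BM f) (x : V) : Integrable (fun z => K z * f (x + z)) :=
  (hf.shift x).integrable_mul hK.int

theorem integral_ker_sub (K : V → ℝ) (x : V) : ∫ y, K (y - x) = ∫ z, K z :=
  integral_sub_right_eq_self K x

theorem integral_ker_sub' (K : V → ℝ) (y : V) : ∫ x, K (y - x) = ∫ z, K z :=
  integral_sub_left_eq_self K volume y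

theorem Cv_add (hK : Ker K) (hf : BM f) (hg : BM g) (x : V) :
    Cv K (fun y => f y + g y) x = Cv K f x + Cv K g x := by
  unfold Cv
  rw [← integral_add (hK.int_cv hf x) (hK.int_cv hg x)]
  simp [mul_add]

theorem Cv_sub (hK : Ker K) (hf : BM f) (hg : BM g) (x : V) :
    Cv K (fun y => f y - g y) x = Cv K f x - Cv K g x := by
  unfold Cv
  rw [← integral_sub (hK.int_cv hf x) (hK.int_cv hg x)]
  simp [mul_sub]

theorem Cv_const_mul (K f : V → ℝ) (c : ℝ) (x : V) :
    Cv K (fun y => c * f y) x = c * Cv K f x := by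
  unfold Cv
  rw [← integral_const_mul]
  congr 1; funext y; ring

theorem Cv_neg (K f : V → ℝ) (x : V) : Cv K (fun y => -f y) x = -Cv K f x := by
  unfold Cv
  rw [← integral_neg]
  congr 1; funext y; ring

theorem Cv_const (K : V → ℝ) (c : ℝ) (x : V) : Cv K (fun _ => c) x = (∫ z, K z) * c := by
  unfold Cv
  rw [integral_mul_const, integral_ker_sub]

theorem Cv_sum {ι : Type*} (s : Finset ι) {F : ι → V → ℝ} (hK : Ker K) (h : ∀ i ∈ s, BM (F i))
    (x : V) : Cv K (fun y => ∑ i ∈ s, F i y) x = ∑ i ∈ s, Cv K (F i) x := by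
  unfold Cv
  rw [← integral_finsetSum s fun i hi => hK.int_cv (h i hi) x]
  simp [Finset.mul_sum]

theorem Cv_ker_add (hK : Ker K) (hK' : Ker K') (hf : BM f) (x : V) :
    Cv (fun z => K z + K' z) f x = Cv K f x + Cv K' f x := by
  unfold Cv
  rw [← integral_add (hK.int_cv hf x) (hK'.int_cv hf x)]
  simp [add_mul]

theorem Cv_ker_sub (hK : Ker K) (hK' : Ker K') (hf : BM f) (x : V) :
    Cv (fun z => K z - K' z) f x = Cv K f x - Cv K' f x := by
  unfold Cv
  rw [← integral_sub (hK.int_cv hf x) (hK'.int_cv hf x)]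
  simp [sub_mul]

theorem Cv_ker_const_mul (K f : V → ℝ) (c : ℝ) (x : V) :
    Cv (fun z => c * K z) f x = c * Cv K f x := by
  unfold Cv
  rw [← integral_const_mul]
  congr 1; funext y; ring

theorem Cv_ker_sum {ι : Type*} (s : Finset ι) {F : ι → V → ℝ} (h : ∀ i ∈ s, Ker (F i))
    (hf : BM f) (x : V) : Cv (fun z => ∑ i ∈ s, F i z) f x = ∑ i ∈ s, Cv (F i) f x := by
  unfold Cv
  rw [← integral_finsetSum s fun i hi => (h i hi).int_cv hf x]
  simp [Finset.sum_mul]

theorem Cv_nonneg (hK : ∀ z, 0 ≤ K z) (hf : ∀ y, 0 ≤ f y) (x : V) : 0 ≤ Cv K f x :=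
  integral_nonneg fun y => mul_nonneg (hK _) (hf y)

theorem Cv_mono (hK : Ker K) (hK0 : ∀ z, 0 ≤ K z) (hf : BM f) (hg : BM g) (h : ∀ y, f y ≤ g y)
    (x : V) : Cv K f x ≤ Cv K g x :=
  integral_mono (hK.int_cv hf x) (hK.int_cv hg x) fun y => mul_le_mul_of_nonneg_left (h y) (hK0 _)

theorem Cv_ker_mono (hK : Ker K) (hK' : Ker K') (h : ∀ z, K z ≤ K' z) (hf : BM f)
    (hf0 : ∀ y, 0 ≤ f y) (x : V) : Cv K f x ≤ Cv K' f x :=
  integral_mono (hK.int_cv hf x) (hK'.int_cv hf x) fun y =>
    mul_le_mul_of_nonneg_right (h _) (hf0 y)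

theorem abs_Cv_le_Cv_abs (K f : V → ℝ) (x : V) :
    |Cv K f x| ≤ Cv (fun z => |K z|) (fun y => |f y|) x := by
  unfold Cv
  refine (abs_integral_le_integral_abs).trans (le_of_eq ?_)
  simp [abs_mul]

/-- domination of both the kernel and the function -/
theorem abs_Cv_le (hK' : Ker K') (hg : BM g) (hKK : ∀ z, |K z| ≤ K' z) (hfg : ∀ y, |f y| ≤ g y)
    (x : V) : |Cv K f x| ≤ Cv K' g x := by
  unfold Cv
  refine (abs_integral_le_integral_abs).trans ?_
  refine integral_mono_of_nonneg (Eventually.of_forall fun y => abs_nonneg _) (hK'.int_cv hg x)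
    (Eventually.of_forall fun y => ?_)
  simp only [abs_mul]
  exact mul_le_mul (hKK _) (hfg y) (abs_nonneg _) ((abs_nonneg _).trans (hKK _))

theorem abs_Cv_le_const (hK : Ker K) {C : ℝ} (hC : ∀ y, |f y| ≤ C) (x : V) :
    |Cv K f x| ≤ (∫ z, |K z|) * C := by
  have := abs_Cv_le (K := K) (f := f) hK.abs (BM.const C) (fun z => le_rfl) hC x
  rwa [Cv_const] at this

theorem measurable_cv_pair (hK : Measurable K) (hf : AEStronglyMeasurable f volume) :
    AEStronglyMeasurable (fun p : V × V => K (p.2 - p.1) * f p.2) (volume.prod volume) :=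
  (hK.comp (measurable_snd.sub measurable_fst)).aestronglyMeasurable.mul hf.comp_snd

theorem Cv_congr_ae (K : V → ℝ) (h : f =ᵐ[volume] g) : Cv K f = Cv K g := by
  funext x
  refine integral_congr_ae ?_
  filter_upwards [h] with y hy
  rw [hy]

theorem measurable_Cv (hK : Measurable K) (hf : AEStronglyMeasurable f volume) :
    Measurable (Cv K f) := by
  rw [Cv_congr_ae K hf.ae_eq_mk]
  have : Measurable (fun p : V × V => K (p.2 - p.1) * hf.mk f p.2) :=
    (hK.comp (measurable_snd.sub measurable_fst)).mul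
      (hf.stronglyMeasurable_mk.measurable.comp measurable_snd)
  exact (this.stronglyMeasurable.integral_prod_right').measurable

theorem BM.cv (hf : BM f) (hK : Ker K) : BM (Cv K f) := by
  obtain ⟨C, hC⟩ := hf.bdd
  exact ⟨measurable_Cv hK.meas hf.meas.aestronglyMeasurable, _, abs_Cv_le_const hK hC⟩

theorem integrable_cv_pair (hK : Ker K) (hf : Integrable f) :
    Integrable (fun p : V × V => K (p.2 - p.1) * f p.2) (volume.prod volume) := by
  rw [integrable_prod_iff' (measurable_cv_pair hK.meas hf.aestronglyMeasurable)]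
  refine ⟨Eventually.of_forall fun y => ?_, ?_⟩
  · exact (hK.int.comp_sub_left y).mul_const (f y)
  · have : (fun y => ∫ x, ‖K (y - x) * f y‖) = fun y => (∫ z, |K z|) * |f y| := by
      funext y
      simp only [norm_mul, Real.norm_eq_abs]
      rw [integral_mul_const, integral_ker_sub' (fun z => |K z|) y]
    simp only [this]
    exact hf.abs.const_mul _

theorem integrable_Cv (hK : Ker K) (hf : Integrable f) : Integrable (Cv K f) :=
  (integrable_cv_pair hK hf).integral_prod_left

theorem LI.cv (hf : LI f) (hK : Ker K) : LI (Cv K f) := ⟨hf.bm.cv hK, integrable_Cv hK hf.int⟩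

theorem integral_Cv (hK : Ker K) (hf : Integrable f) :
    ∫ x, Cv K f x = (∫ z, K z) * ∫ y, f y := by
  unfold Cv
  rw [integral_integral_swap (f := fun x y => K (y - x) * f y) (integrable_cv_pair hK hf),
    ← integral_const_mul]
  congr 1; funext y
  rw [integral_mul_const, integral_ker_sub']

theorem integrable_cv_triple (hK : Ker K) (hf : Integrable f) (hg : BM g) :
    Integrable (fun p : V × V => f p.1 * (K (p.2 - p.1) * g p.2)) (volume.prod volume) := by
  obtain ⟨C, hC⟩ := hg.bdd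
  have h1 := (integrable_cv_pair hK.flip hf).swap
  have h2 : Integrable (fun p : V × V => g p.2 * (K (p.2 - p.1) * f p.1)) (volume.prod volume) := by
    refine Integrable.bdd_mul (c := C) ?_ hg.meas.aestronglyMeasurable.comp_snd
      (Eventually.of_forall fun p => by simpa using hC p.2)
    refine h1.congr (Eventually.of_forall fun p => ?_)
    simp [Function.comp]
  refine h2.congr (Eventually.of_forall fun p => ?_)
  simp only; ring

/-- the adjoint has the reflected kernel -/
theorem integral_mul_Cv (hK : Ker K) (hf : Integrable f) (hg : BM g) :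
    ∫ x, f x * Cv K g x = ∫ y, Cv (fun z => K (-z)) f y * g y := by
  unfold Cv
  simp_rw [← integral_const_mul, ← integral_mul_const]
  rw [integral_integral_swap (f := fun x y => f x * (K (y - x) * g y))
    (integrable_cv_triple hK hf hg)]
  congr 1; funext y; congr 1; funext x
  simp only [neg_sub]; ring

theorem integral_mul_Cv_even (hK : Ker K) (he : ∀ z, K (-z) = K z) (hf : Integrable f)
    (hg : BM g) :
    ∫ x, f x * Cv K g x = ∫ y, Cv K f y * g y := by
  rw [integral_mul_Cv hK hf hg]; simp only [he]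

theorem integral_mul_Cv_odd (hK : Ker K) (ho : ∀ z, K (-z) = -K z) (hf : Integrable f)
    (hg : BM g) :
    ∫ x, f x * Cv K g x = -∫ y, Cv K f y * g y := by
  rw [integral_mul_Cv hK hf hg, ← integral_neg]
  congr 1; funext y
  have : (fun z => K (-z)) = fun z => (-1) * K z := by funext z; rw [ho]; ring
  rw [this, Cv_ker_const_mul]; ring

theorem Cv_Cv (hK : Ker K) (hK' : Ker K') (hf : BM f) (x : V) :
    Cv K (Cv K' f) x = Cv (fun w => ∫ z, K z * K' (w - z)) f x := by
  have h2 := integral_mul_Cv hK' (hK.int.comp_sub_right x) hf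
  have h3 : Cv K (Cv K' f) x = ∫ y, K (y - x) * Cv K' f y := rfl
  rw [h3, h2]
  unfold Cv
  congr 1; funext w; congr 1
  rw [← integral_add_left_eq_self _ x]
  congr 1; funext z
  simp only [add_sub_cancel_left, neg_sub]
  rw [mul_comm]; congr 2; abel

theorem Cv_comm (hK : Ker K) (hK' : Ker K') (hf : BM f) (x : V) :
    Cv K (Cv K' f) x = Cv K' (Cv K f) x := by
  rw [Cv_Cv hK hK' hf, Cv_Cv hK' hK hf]
  congr 1; funext w
  rw [← integral_sub_left_eq_self _ volume w]
  congr 1; funext z
  simp [mul_comm]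

/-- Cauchy-Schwarz with a weight -/
theorem sq_Cv_le (hK : Ker K) (hf : BM f) (x : V) :
    Cv K f x ^ 2 ≤ (∫ z, |K z|) * Cv (fun z => |K z|) (fun y => f y ^ 2) x := by
  set A := ∫ z, |K z| with hA
  set B := Cv (fun z => |K z|) (fun y => f y ^ 2) x with hB
  set D := Cv (fun z => |K z|) (fun y => |f y|) x with hD
  have hD0 : |Cv K f x| ≤ D := abs_Cv_le_Cv_abs K f x
  have hq : ∀ s : ℝ, 0 ≤ A * (s * s) + (-2 * D) * s + B := by
    intro s
    have h0 : 0 ≤ Cv (fun z => |K z|) (fun y => (s - |f y|) ^ 2) x :=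
      Cv_nonneg (fun z => abs_nonneg _) (fun y => sq_nonneg _) x
    have h1 : (fun y => (s - |f y|) ^ 2) = fun y => (s * s + (-2 * s) * |f y|) + f y ^ 2 := by
      funext y; rw [← sq_abs (f y)]; ring
    rw [h1, Cv_add hK.abs ((BM.const _).add (hf.abs.const_mul _)) hf.sq,
      Cv_add hK.abs (BM.const _) (hf.abs.const_mul _), Cv_const, Cv_const_mul] at h0
    linarith
  have hd := discrim_le_zero hq
  unfold discrim at hd
  have : Cv K f x ^ 2 ≤ D ^ 2 := by
    rw [← sq_abs]; exact pow_le_pow_left₀ (abs_nonneg _) hD0 2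
  nlinarith

/-- Young's inequality in `L²` -/
theorem integral_sq_Cv_le (hK : Ker K) (hf : LI f) :
    ∫ x, Cv K f x ^ 2 ≤ (∫ z, |K z|) ^ 2 * ∫ y, f y ^ 2 := by
  calc ∫ x, Cv K f x ^ 2
      ≤ ∫ x, (∫ z, |K z|) * Cv (fun z => |K z|) (fun y => f y ^ 2) x :=
        integral_mono (hf.cv hK).sq.int ((integrable_Cv hK.abs hf.sq.int).const_mul _)
          fun x => sq_Cv_le hK hf.bm x
    _ = (∫ z, |K z|) ^ 2 * ∫ y, f y ^ 2 := by
        rw [integral_const_mul, integral_Cv hK.abs hf.sq.int]; ring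

theorem integral_abs_Cv_le (hK : Ker K) (hf : Integrable f) :
    ∫ x, |Cv K f x| ≤ (∫ z, |K z|) * ∫ y, |f y| := by
  rw [← integral_Cv hK.abs hf.abs]
  exact integral_mono (integrable_Cv hK hf).abs (integrable_Cv hK.abs hf.abs)
    fun x => abs_Cv_le_Cv_abs K f x

end basic

section deriv
variable {K f : V → ℝ}

/-- differentiation falling on the function -/
theorem hasFDerivAt_Cv_right (hK : Ker K) (hf : BM f) {f' : V → V →L[ℝ] ℝ}
    (hd : ∀ y, HasFDerivAt f (f' y) y) (hc : Continuous f') {C : ℝ} (hC : ∀ y, ‖f' y‖ ≤ C)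
    (x : V) : HasFDerivAt (Cv K f) (∫ z, K z • f' (x + z)) x := by
  have h1 : Cv K f = fun x => ∫ z, K z * f (x + z) := funext (Cv_eq_add K f)
  rw [h1]
  refine hasFDerivAt_integral_of_dominated_of_fderiv_le (F := fun x z => K z * f (x + z))
    (F' := fun x z => K z • f' (x + z)) (bound := fun z => |K z| * C) (s := univ)
    univ_mem (Eventually.of_forall fun x' => (hK.int_cv' hf x').aestronglyMeasurable)
    (hK.int_cv' hf x) ?_ ?_ (hK.int.abs.mul_const C) ?_
  · exact hK.meas.aestronglyMeasurable.smul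
      (hc.comp (continuous_const.add continuous_id)).aestronglyMeasurable
  · refine Eventually.of_forall fun z x' _ => ?_
    rw [norm_smul, Real.norm_eq_abs]
    exact mul_le_mul_of_nonneg_left (hC _) (abs_nonneg _)
  · refine Eventually.of_forall fun z x' _ => ?_
    have := ((hd (x' + z)).comp x' ((hasFDerivAt_id x').add_const z)).const_mul (K z)
    simpa using this

theorem fderiv_Cv_right (hK : Ker K) (hf : BM f) (hd : ContDiff ℝ 1 f) {C : ℝ}
    (hC : ∀ y, ‖fderiv ℝ f y‖ ≤ C) (x e : V) :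
    fderiv ℝ (Cv K f) x e = Cv K (fun y => fderiv ℝ f y e) x := by
  have hc : Continuous (fderiv ℝ f) := hd.continuous_fderiv one_ne_zero
  rw [(hasFDerivAt_Cv_right hK hf (fun y => (hd.differentiable one_ne_zero y).hasFDerivAt) hc
    hC x).fderiv, ContinuousLinearMap.integral_apply, Cv_eq_add]
  · simp
  · refine (hK.int.abs.mul_const C).mono' (hK.meas.aestronglyMeasurable.smul
      (hc.comp (continuous_const.add continuous_id)).aestronglyMeasurable)
      (Eventually.of_forall fun z => ?_)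
    rw [norm_smul, Real.norm_eq_abs]
    exact mul_le_mul_of_nonneg_left (hC _) (abs_nonneg _)

/-- differentiation falling on the kernel -/
theorem hasFDerivAt_Cv_left (hK : Ker K) (hf : BM f) {K' : V → V →L[ℝ] ℝ}
    (hd : ∀ z, HasFDerivAt K (K' z) z) (hc : Continuous K') {B : V → ℝ} (hB : Integrable B)
    (hb : ∀ z h, ‖h‖ ≤ 1 → ‖K' (z + h)‖ ≤ B z) (x : V) :
    HasFDerivAt (Cv K f) (∫ y, (-f y) • K' (y - x)) x := by
  obtain ⟨C, hC0, hC⟩ := hf.bdd'
  refine hasFDerivAt_integral_of_dominated_of_fderiv_le (F := fun x y => K (y - x) * f y)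
    (F' := fun x y => (-f y) • K' (y - x)) (bound := fun y => C * B (y - x))
    (s := Metric.ball x 1) (Metric.ball_mem_nhds x one_pos)
    (Eventually.of_forall fun x' => (hK.int_cv hf x').aestronglyMeasurable)
    (hK.int_cv hf x) ?_ ?_ ((hB.comp_sub_right x).const_mul C) ?_
  · exact hf.meas.neg.aestronglyMeasurable.smul
      (hc.comp (continuous_id.sub continuous_const)).aestronglyMeasurable
  · refine Eventually.of_forall fun y x' hx' => ?_
    rw [norm_smul, Real.norm_eq_abs, abs_neg]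
    have h1 : y - x' = (y - x) + (x - x') := by abel
    have h2 : ‖x - x'‖ ≤ 1 := by
      rw [norm_sub_rev]; exact (mem_ball_iff_norm.1 hx').le
    rw [h1]
    exact mul_le_mul (hC y) (hb _ _ h2) (norm_nonneg _) hC0
  · refine Eventually.of_forall fun y x' _ => ?_
    have := ((hd (y - x')).comp x' ((hasFDerivAt_id x').const_sub y)).mul_const (f y)
    refine this.congr_fderiv ?_
    ext v; simp

theorem fderiv_Cv_left (hK : Ker K) (hf : BM f) {K' : V → V →L[ℝ] ℝ}
    (hd : ∀ z, HasFDerivAt K (K' z) z) (hc : Continuous K') {B : V → ℝ} (hB : Integrable B)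
    (hb : ∀ z h, ‖h‖ ≤ 1 → ‖K' (z + h)‖ ≤ B z) (x e : V) :
    fderiv ℝ (Cv K f) x e = Cv (fun z => -K' z e) f x := by
  obtain ⟨C, hC0, hC⟩ := hf.bdd'
  rw [(hasFDerivAt_Cv_left hK hf hd hc hB hb x).fderiv, ContinuousLinearMap.integral_apply]
  · unfold Cv
    congr 1; funext y; simp [mul_comm]
  · refine ((hB.comp_sub_right x).const_mul C).mono' (hf.meas.neg.aestronglyMeasurable.smul
      (hc.comp (continuous_id.sub continuous_const)).aestronglyMeasurable)
      (Eventually.of_forall fun y => ?_)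
    rw [norm_smul, Real.norm_eq_abs, abs_neg]
    have := hb (y - x) 0 (by simp)
    rw [add_zero] at this
    exact mul_le_mul (hC y) this (norm_nonneg _) hC0

/-- differentiation in a real parameter of the kernel -/
theorem hasDerivAt_Cv_param {k k' : ℝ → V → ℝ} {t δ : ℝ} (hδ : 0 < δ) (hf : BM f)
    (hk : ∀ s ∈ Metric.ball t δ, Ker (k s)) (hk' : Measurable (k' t))
    (hd : ∀ z, ∀ s ∈ Metric.ball t δ, HasDerivAt (fun s => k s z) (k' s z) s)
    {B : V → ℝ} (hB : Integrable B) (hb : ∀ z, ∀ s ∈ Metric.ball t δ, |k' s z| ≤ B z) (x : V) :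
    HasDerivAt (fun s => Cv (k s) f x) (Cv (k' t) f x) t := by
  obtain ⟨C, hC0, hC⟩ := hf.bdd'
  refine (hasDerivAt_integral_of_dominated_loc_of_deriv_le (F := fun s y => k s (y - x) * f y)
    (F' := fun s y => k' s (y - x) * f y) (bound := fun y => B (y - x) * C)
    (s := Metric.ball t δ) (Metric.ball_mem_nhds t hδ) ?_
    ((hk t (Metric.mem_ball_self hδ)).int_cv hf x) ?_ ?_
    ((hB.comp_sub_right x).mul_const C) ?_).2
  · filter_upwards [Metric.ball_mem_nhds t hδ] with s hs
    exact ((hk s hs).int_cv hf x).aestronglyMeasurable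
  · exact ((hk'.comp (measurable_sub_const x)).mul hf.meas).aestronglyMeasurable
  · refine Eventually.of_forall fun y s hs => ?_
    rw [Real.norm_eq_abs, abs_mul]
    exact mul_le_mul (hb _ s hs) (hC y) (abs_nonneg _) ((abs_nonneg _).trans (hb _ s hs))
  · exact Eventually.of_forall fun y s hs => (hd _ s hs).mul_const _

end deriv

end Pool.Agent.Lib.MP_8daebb_an.HK
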