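import Pool.Agent.Lib.MP_8daebb_an.HK.Ker

/-! The heat semigroup on bounded measurable functions. -/

open MeasureTheory Metric Filter Topology Set Real
open scoped RealInnerProductSpace

namespace Pool.Agent.Lib.MP_8daebb_an.HK

variable {V : Type*} [NormedAddCommGroup V] [InnerProductSpace ℝ V] [FiniteDimensional ℝ V]
  [MeasurableSpace V] [BorelSpace V]

theorem integral_G {t : ℝ} (ht : 0 < t) : ∫ z : V, G t z = 1 := by
  have h := GaussianFourier.integral_rexp_neg_mul_sq_norm (V := V) (b := 1 / (4 * t))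
    (by positivity)
  unfold G
  rw [integral_const_mul]
  have e : (fun z : V => exp (-‖z‖ ^ 2 / (4 * t))) = fun z => exp (-(1 / (4 * t)) * ‖z‖ ^ 2) := by
    ext z; congr 1; ring
  rw [e, h, show π / (1 / (4 * t)) = 4 * π * t by field_simp, ← rpow_add (by positivity)]
  simp [hd]

theorem integrable_G {t : ℝ} (ht : 0 < t) : Integrable (G t : V → ℝ) := by
  by_contra h
  have := integral_G (V := V) ht
  rw [integral_undef h] at this
  exact zero_ne_one this

theorem integral_G_sub {t : ℝ} (ht : 0 < t) (x : V) : ∫ y, G t (y - x) = 1 := by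
  rw [integral_sub_right_eq_self (G t) x, integral_G ht]

theorem integrable_G_sub {t : ℝ} (ht : 0 < t) (x : V) : Integrable (fun y => G t (y - x)) :=
  (integrable_G ht).comp_sub_right x

theorem integral_G_sub' {t : ℝ} (ht : 0 < t) (x : V) : ∫ y, G t (x - y) = 1 := by
  simp only [G_sub_comm t x, integral_G_sub ht]

theorem integrable_G_sub' {t : ℝ} (ht : 0 < t) (x : V) : Integrable (fun y => G t (x - y)) := by
  simp only [G_sub_comm t x, integrable_G_sub ht]

omit [FiniteDimensional ℝ V] [MeasurableSpace V] [BorelSpace V] in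
theorem G_mul_G {s t : ℝ} (hs : 0 < s) (ht : 0 < t) (x y z : V) :
    G s (y - x) * G t (z - y) =
      G (s + t) (z - x) * G (s * t / (s + t)) (y - (x + (s / (s + t)) • (z - x))) := by
  obtain ⟨a, rfl⟩ : ∃ a, y = x + a := ⟨y - x, by abel⟩
  obtain ⟨b, rfl⟩ : ∃ b, z = x + b := ⟨z - x, by abel⟩
  simp only [add_sub_cancel_left, add_sub_add_left_eq_sub]
  unfold G
  have h1 : (4 * π * s) ^ (-hd V) * (4 * π * t) ^ (-hd V) =
      (4 * π * (s + t)) ^ (-hd V) * (4 * π * (s * t / (s + t))) ^ (-hd V) := by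
    rw [← mul_rpow (by positivity) (by positivity), ← mul_rpow (by positivity) (by positivity)]
    congr 1
    field_simp
  have h2 : -‖a‖ ^ 2 / (4 * s) + -‖b - a‖ ^ 2 / (4 * t) =
      -‖b‖ ^ 2 / (4 * (s + t)) + -‖a - (s / (s + t)) • b‖ ^ 2 / (4 * (s * t / (s + t))) := by
    rw [norm_sub_sq_real, norm_sub_sq_real, norm_smul, inner_smul_right, real_inner_comm,
      Real.norm_eq_abs, mul_pow, sq_abs]
    field_simp
    ring
  calc _ = ((4 * π * s) ^ (-hd V) * (4 * π * t) ^ (-hd V)) *
        exp (-‖a‖ ^ 2 / (4 * s) + -‖b - a‖ ^ 2 / (4 * t)) := by rw [exp_add]; ring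
    _ = _ := by rw [h1, h2, exp_add]; ring

/-- The semigroup law for the kernel. -/
theorem integral_G_mul_G {s t : ℝ} (hs : 0 < s) (ht : 0 < t) (x z : V) :
    ∫ y, G s (y - x) * G t (z - y) = G (s + t) (z - x) := by
  simp only [G_mul_G hs ht]
  rw [integral_const_mul, integral_G_sub (by positivity), mul_one]

/-- Bounded measurable functions. -/
structure BM {X : Type*} [MeasurableSpace X] (f : X → ℝ) : Prop where
  meas : Measurable f
  bdd : ∃ C, ∀ x, |f x| ≤ C

section BM

variable {X : Type*} [MeasurableSpace X] {f g : X → ℝ}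

theorem BM.bdd' (hf : BM f) : ∃ C, 0 ≤ C ∧ ∀ x, |f x| ≤ C := by
  obtain ⟨C, hC⟩ := hf.bdd
  exact ⟨max C 0, le_max_right _ _, fun x => (hC x).trans (le_max_left _ _)⟩

theorem BM.const (c : ℝ) : BM (fun _ : X => c) := ⟨measurable_const, |c|, fun _ => le_rfl⟩

theorem BM.add (hf : BM f) (hg : BM g) : BM (fun x => f x + g x) := by
  obtain ⟨C, hC⟩ := hf.bdd
  obtain ⟨D, hD⟩ := hg.bdd
  exact ⟨hf.meas.add hg.meas, C + D, fun x => (abs_add_le _ _).trans (add_le_add (hC x) (hD x))⟩

theorem BM.neg (hf : BM f) : BM (fun x => -f x) := by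
  obtain ⟨C, hC⟩ := hf.bdd
  exact ⟨hf.meas.neg, C, fun x => by rw [abs_neg]; exact hC x⟩

theorem BM.sub (hf : BM f) (hg : BM g) : BM (fun x => f x - g x) := by
  simpa only [sub_eq_add_neg] using hf.add hg.neg

theorem BM.mul (hf : BM f) (hg : BM g) : BM (fun x => f x * g x) := by
  obtain ⟨C, C0, hC⟩ := hf.bdd'
  obtain ⟨D, hD⟩ := hg.bdd
  exact ⟨hf.meas.mul hg.meas, C * D, fun x => by
    rw [abs_mul]; exact mul_le_mul (hC x) (hD x) (abs_nonneg _) C0⟩

theorem BM.const_mul (hf : BM f) (c : ℝ) : BM (fun x => c * f x) := (BM.const c).mul hf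

theorem BM.mul_const (hf : BM f) (c : ℝ) : BM (fun x => f x * c) := hf.mul (BM.const c)

theorem BM.div_const (hf : BM f) (c : ℝ) : BM (fun x => f x / c) := hf.mul_const c⁻¹

theorem BM.pow (hf : BM f) (n : ℕ) : BM (fun x => f x ^ n) := by
  induction n with
  | zero => simpa using BM.const 1
  | succ n ih => simpa only [pow_succ] using ih.mul hf

theorem BM.abs (hf : BM f) : BM (fun x => |f x|) := by
  obtain ⟨C, hC⟩ := hf.bdd
  exact ⟨hf.meas.abs, C, fun x => by rw [abs_abs]; exact hC x⟩

theorem BM.of_abs_le (hg : BM g) (hf : Measurable f) (h : ∀ x, |f x| ≤ g x) : BM f := by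
  obtain ⟨C, hC⟩ := hg.bdd
  exact ⟨hf, C, fun x => (h x).trans ((le_abs_self _).trans (hC x))⟩

theorem BM.max (hf : BM f) (hg : BM g) : BM (fun x => max (f x) (g x)) :=
  (hf.abs.add hg.abs).of_abs_le (hf.meas.max hg.meas) fun x =>
    (abs_max_le_max_abs_abs).trans (max_le (by simp) (by simp))

theorem BM.min (hf : BM f) (hg : BM g) : BM (fun x => min (f x) (g x)) :=
  (hf.abs.add hg.abs).of_abs_le (hf.meas.min hg.meas) fun x =>
    (abs_min_le_max_abs_abs).trans (max_le (by simp) (by simp))

theorem BM.sqrt (hf : BM f) : BM (fun x => √(f x)) :=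
  (hf.abs.add (BM.const 1)).of_abs_le hf.meas.sqrt fun x => by
    rw [abs_of_nonneg (sqrt_nonneg _), sqrt_le_left (by positivity)]
    nlinarith [le_abs_self (f x), abs_nonneg (f x)]

theorem BM.indicator (hf : BM f) {s : Set X} (hs : MeasurableSet s) : BM (s.indicator f) :=
  hf.abs.of_abs_le (hf.meas.indicator hs) fun x => by
    by_cases h : x ∈ s <;> simp [h]

theorem BM.sum {ι : Type*} (s : Finset ι) {F : ι → X → ℝ} (h : ∀ i ∈ s, BM (F i)) :
    BM (fun x => ∑ i ∈ s, F i x) := by
  classical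
  induction s using Finset.induction_on with
  | empty => simpa using BM.const 0
  | insert a s ha ih =>
    simp only [Finset.sum_insert ha]
    exact (h a (by simp)).add (ih fun i hi => h i (by simp [hi]))

theorem BM.comp {Y : Type*} [MeasurableSpace Y] (hf : BM f) {φ : Y → X} (hφ : Measurable φ) :
    BM (fun y => f (φ y)) := by
  obtain ⟨C, hC⟩ := hf.bdd
  exact ⟨hf.meas.comp hφ, C, fun y => hC _⟩

theorem BM.mul_integrable {μ : Measure X} (hf : BM f) (hg : Integrable g μ) :
    Integrable (fun x => f x * g x) μ := by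
  obtain ⟨C, hC⟩ := hf.bdd
  exact hg.bdd_mul hf.meas.aestronglyMeasurable (Eventually.of_forall hC)

theorem BM.integrable_mul {μ : Measure X} (hf : BM f) (hg : Integrable g μ) :
    Integrable (fun x => g x * f x) μ := by
  simpa only [mul_comm] using hf.mul_integrable hg

theorem BM.integrable {μ : Measure X} [IsFiniteMeasure μ] (hf : BM f) : Integrable f μ := by
  simpa using hf.mul_integrable (integrable_const (μ := μ) (1 : ℝ))

end BM

variable {f g : V → ℝ} {s t : ℝ}

omit [InnerProductSpace ℝ V] [FiniteDimensional ℝ V] in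
theorem BM.of_compactSupport (hf : Continuous f) (hc : HasCompactSupport f) : BM f := by
  obtain ⟨C, hC⟩ := hf.bounded_above_of_compact_support hc
  exact ⟨hf.measurable, C, hC⟩

theorem BM.integrableOn (hf : BM f) {A : Set V} (hA : Bornology.IsBounded A) :
    IntegrableOn f A := by
  obtain ⟨C, hC⟩ := hf.bdd
  exact Measure.integrableOn_of_bounded hA.measure_lt_top.ne hf.meas.aestronglyMeasurable
    (Eventually.of_forall hC)

omit [FiniteDimensional ℝ V] in
theorem BM.G_sub (ht : 0 < t) (x : V) : BM (fun y => G t (y - x)) :=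
  ⟨by fun_prop, _, fun y => by rw [abs_G ht.le]; exact G_le_zero ht _⟩

theorem BM.integrable_G (hf : BM f) (ht : 0 < t) (x : V) :
    Integrable (fun y => G t (y - x) * f y) := hf.integrable_mul (integrable_G_sub ht x)

theorem integrable_G_mul (hf : Integrable f) (ht : 0 < t) (x : V) :
    Integrable (fun y => G t (y - x) * f y) := (BM.G_sub ht x).mul_integrable hf

theorem P_nonneg (ht : 0 ≤ t) (h : ∀ y, 0 ≤ f y) (x : V) : 0 ≤ P t f x :=
  integral_nonneg fun y => mul_nonneg (G_nonneg ht _) (h y)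

theorem P_mono (hf : BM f) (hg : BM g) (ht : 0 < t) (h : ∀ y, f y ≤ g y) (x : V) :
    P t f x ≤ P t g x :=
  integral_mono (hf.integrable_G ht x) (hg.integrable_G ht x) fun y =>
    mul_le_mul_of_nonneg_left (h y) (G_pos ht _).le

theorem P_add (hf : BM f) (hg : BM g) (ht : 0 < t) (x : V) :
    P t (fun y => f y + g y) x = P t f x + P t g x := by
  simp only [P, mul_add]
  exact integral_add (hf.integrable_G ht x) (hg.integrable_G ht x)

theorem P_sub (hf : BM f) (hg : BM g) (ht : 0 < t) (x : V) :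
    P t (fun y => f y - g y) x = P t f x - P t g x := by
  simp only [P, mul_sub]
  exact integral_sub (hf.integrable_G ht x) (hg.integrable_G ht x)

theorem P_neg (t : ℝ) (f : V → ℝ) (x : V) : P t (fun y => -f y) x = -P t f x := by
  simp only [P, mul_neg, integral_neg]

theorem P_const_mul (t c : ℝ) (f : V → ℝ) (x : V) : P t (fun y => c * f y) x = c * P t f x := by
  simp only [P, mul_left_comm _ c, integral_const_mul]

theorem P_mul_const (t c : ℝ) (f : V → ℝ) (x : V) : P t (fun y => f y * c) x = P t f x * c := by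
  simp only [P, ← mul_assoc, integral_mul_const]

theorem P_const (ht : 0 < t) (c : ℝ) (x : V) : P t (fun _ => c) x = c := by
  simp only [P, integral_mul_const, integral_G_sub ht, one_mul]

theorem P_sum {ι : Type*} (S : Finset ι) {F : ι → V → ℝ} (h : ∀ i ∈ S, BM (F i)) (ht : 0 < t)
    (x : V) : P t (fun y => ∑ i ∈ S, F i y) x = ∑ i ∈ S, P t (F i) x := by
  simp only [P, Finset.mul_sum]
  exact integral_finsetSum S fun i hi => (h i hi).integrable_G ht x

theorem abs_P_le (ht : 0 ≤ t) (f : V → ℝ) (x : V) : |P t f x| ≤ P t (fun y => |f y|) x := by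
  refine abs_integral_le_integral_abs.trans (le_of_eq ?_)
  simp only [P, abs_mul, abs_G ht]

theorem abs_P_le_of_le (hg : BM g) (ht : 0 < t) (h : ∀ y, |f y| ≤ g y) (x : V) :
    |P t f x| ≤ P t g x := by
  refine norm_integral_le_of_norm_le (f := fun y => G t (y - x) * f y) (hg.integrable_G ht x)
    (Eventually.of_forall fun y => ?_)
  rw [Real.norm_eq_abs, abs_mul, abs_G ht.le]
  exact mul_le_mul_of_nonneg_left (h y) (G_pos ht _).le

theorem abs_P_le_const (ht : 0 < t) {C : ℝ} (h : ∀ y, |f y| ≤ C) (x : V) : |P t f x| ≤ C :=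
  (abs_P_le_of_le (BM.const C) ht h x).trans_eq (P_const ht C x)

theorem measurable_P (hf : Measurable f) : Measurable (fun p : ℝ × V => P p.1 f p.2) := by
  have h : Measurable (fun q : (ℝ × V) × V => G q.1.1 (q.2 - q.1.2) * f q.2) :=
    (measurable_G.comp (f := fun q : (ℝ × V) × V => (q.1.1, q.2 - q.1.2)) (by fun_prop)).mul
      (hf.comp measurable_snd)
  exact h.stronglyMeasurable.integral_prod_right'.measurable

theorem BM.P (hf : BM f) (ht : 0 < t) : BM (P t f) := by
  obtain ⟨C, hC⟩ := hf.bdd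
  exact ⟨(measurable_P hf.meas).comp measurable_prodMk_left, C, abs_P_le_const ht hC⟩

theorem P_eq_shift (t : ℝ) (f : V → ℝ) (x : V) : P t f x = ∫ z, G t z * f (x + z) := by
  rw [P, ← integral_add_left_eq_self _ x]
  simp

theorem integrable_prod_G (hf : Integrable f) (hg : BM g) (ht : 0 < t) :
    Integrable (fun p : V × V => f p.1 * (G t (p.2 - p.1) * g p.2)) (volume.prod volume) := by
  obtain ⟨C, C0, hC⟩ := hg.bdd'
  have hm : AEStronglyMeasurable (fun p : V × V => f p.1 * (G t (p.2 - p.1) * g p.2))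
      (volume.prod volume) :=
    hf.1.comp_fst.mul (Measurable.aestronglyMeasurable
      (Measurable.mul (by fun_prop) (hg.meas.comp measurable_snd)))
  rw [integrable_prod_iff hm]
  refine ⟨Eventually.of_forall fun x => (hg.integrable_G ht x).const_mul (f x), ?_⟩
  refine (hf.norm.mul_const C).mono' hm.norm.integral_prod_right' (Eventually.of_forall fun x => ?_)
  simp only [norm_mul, integral_const_mul, Real.norm_eq_abs, abs_G ht.le, abs_abs]
  exact mul_le_mul_of_nonneg_left (abs_P_le_const ht (fun y => by rw [abs_abs]; exact hC y) x)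
    (abs_nonneg _)

/-- The semigroup is symmetric. -/
theorem integral_mul_P (hf : Integrable f) (hg : BM g) (ht : 0 < t) :
    ∫ x, f x * P t g x = ∫ y, P t f y * g y := by
  simp only [P, ← integral_const_mul, ← integral_mul_const]
  rw [integral_integral_swap (integrable_prod_G hf hg ht)]
  refine integral_congr_ae (Eventually.of_forall fun y => integral_congr_ae
    (Eventually.of_forall fun x => ?_))
  simp only [G_sub_comm t y x]
  ring

theorem integrable_P (hf : Integrable f) (ht : 0 < t) : Integrable (P t f) := by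
  have := (integrable_prod_G hf (BM.const 1) ht).integral_prod_right
  refine this.congr (Eventually.of_forall fun y => integral_congr_ae
    (Eventually.of_forall fun x => ?_))
  simp only [G_sub_comm t y x]
  ring

theorem integral_P (hf : Integrable f) (ht : 0 < t) : ∫ x, P t f x = ∫ x, f x := by
  have := integral_mul_P hf (BM.const 1) ht
  simp only [P_const ht, mul_one] at this
  exact this.symm

theorem P_G (hs : 0 < s) (ht : 0 < t) (x z : V) :
    P t (fun y => G s (y - x)) z = G (s + t) (z - x) := by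
  rw [← integral_G_mul_G hs ht x z, P]
  simp only [G_sub_comm t z, mul_comm]

/-- The semigroup law. -/
theorem P_P (hf : BM f) (hs : 0 < s) (ht : 0 < t) (x : V) : P s (P t f) x = P (s + t) f x := by
  rw [P, integral_mul_P (integrable_G_sub hs x) hf ht]
  simp only [P_G hs ht]
  rfl

/-- The Cauchy-Schwarz inequality. -/
theorem P_mul_sq_le (hf : BM f) (hg : BM g) (ht : 0 < t) (x : V) :
    P t (fun y => f y * g y) x ^ 2 ≤ P t (fun y => f y ^ 2) x * P t (fun y => g y ^ 2) x := by
  have key : ∀ l : ℝ, 0 ≤ P t (fun y => f y ^ 2) x * (l * l) +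
      2 * P t (fun y => f y * g y) x * l + P t (fun y => g y ^ 2) x := fun l => by
    have h := P_nonneg ht.le (f := fun y => (l * f y + g y) ^ 2) (fun y => sq_nonneg _) x
    have e : (fun y => (l * f y + g y) ^ 2) =
        fun y => (f y ^ 2 * (l * l) + 2 * l * (f y * g y)) + g y ^ 2 := by ext y; ring
    rw [e, P_add (((hf.pow 2).mul_const _).add ((hf.mul hg).const_mul _)) (hg.pow 2) ht,
      P_add ((hf.pow 2).mul_const _) ((hf.mul hg).const_mul _) ht, P_mul_const, P_const_mul] at h
    linarith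
  have := discrim_le_zero key
  unfold discrim at this
  nlinarith

/-- Jensen's inequality. -/
theorem P_sq_le (hf : BM f) (ht : 0 < t) (x : V) : P t f x ^ 2 ≤ P t (fun y => f y ^ 2) x := by
  simpa [P_const ht] using P_mul_sq_le hf (BM.const 1) ht x

/-- A kernel bound gives a bound for the integral. -/
theorem abs_integral_le_P (hg : BM g) (ht : 0 < t) {k : V → ℝ} {x : V} {C : ℝ}
    (h : ∀ y, |k y| ≤ C * (G t (y - x) * g y)) : |∫ y, k y| ≤ C * P t g x := by
  rw [P, ← integral_const_mul]
  exact norm_integral_le_of_norm_le (f := k) ((hg.integrable_G ht x).const_mul C)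
    (Eventually.of_forall h)

theorem P_le_of_le_mul (hf : BM f) (h0 : ∀ y, 0 ≤ f y) {c : ℝ} (ht : 0 < t) (hts : t ≤ s)
    (hc : s ≤ c * t) (x : V) : P t f x ≤ c ^ hd V * P s f x :=
  (le_abs_self _).trans (abs_integral_le_P hf (ht.trans_le hts) fun y => by
    rw [abs_of_nonneg (mul_nonneg (G_pos ht _).le (h0 y)), ← mul_assoc]
    exact mul_le_mul_of_nonneg_right (G_le_of_le_mul ht hts hc _) (h0 y))

theorem P_shift_le (hf : BM f) (h0 : ∀ y, 0 ≤ f y) {A : ℝ} (ht : 0 < t) {x x' : V}
    (h : ‖x - x'‖ ^ 2 ≤ A * t) : P t f x' ≤ 2 ^ hd V * exp (A / 4) * P (2 * t) f x :=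
  (le_abs_self _).trans (abs_integral_le_P hf (by positivity) fun y => by
    rw [abs_of_nonneg (mul_nonneg (G_pos ht _).le (h0 y)), ← mul_assoc]
    have := G_shift_le ht h (y - x)
    rw [sub_add_sub_cancel] at this
    exact mul_le_mul_of_nonneg_right this (h0 y))

theorem abs_P_sub_time (hf : BM f) (ht : 0 < t) (hts : t ≤ s) (hs : s ≤ 2 * t) (x : V) :
    |P s f x - P t f x| ≤ (2 + hd V) * 4 ^ hd V * ((s - t) / t) * P (4 * t) (fun y => |f y|) x := by
  rw [P, P, ← integral_sub (hf.integrable_G (ht.trans_le hts) x) (hf.integrable_G ht x)]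
  refine abs_integral_le_P hf.abs (by positivity) fun y => ?_
  rw [← sub_mul, abs_mul, ← mul_assoc]
  exact mul_le_mul_of_nonneg_right (abs_G_sub_time ht hts hs _) (abs_nonneg _)

theorem abs_P_sub_space (hf : BM f) (ht : 0 < t) {x x' : V} (h : ‖x - x'‖ ^ 2 ≤ t) :
    |P t f x' - P t f x| ≤ 4 * 4 ^ hd V * (‖x - x'‖ / √t) * P (4 * t) (fun y => |f y|) x := by
  rw [P, P, ← integral_sub (hf.integrable_G ht x') (hf.integrable_G ht x)]
  refine abs_integral_le_P hf.abs (by positivity) fun y => ?_
  rw [← sub_mul, abs_mul, ← mul_assoc]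
  have := abs_G_sub_space ht h (y - x)
  rw [sub_add_sub_cancel] at this
  exact mul_le_mul_of_nonneg_right this (abs_nonneg _)

theorem continuous_P (hf : BM f) (ht : 0 < t) : Continuous (P t f) := by
  obtain ⟨C, C0, hC⟩ := hf.bdd'
  refine continuous_iff_continuousAt.2 fun x => ?_
  rw [ContinuousAt, tendsto_iff_norm_sub_tendsto_zero]
  have h1 : Tendsto (fun x' => 4 * 4 ^ hd V * (‖x - x'‖ / √t) * C) (𝓝 x) (𝓝 0) := by
    have : Continuous (fun x' => 4 * 4 ^ hd V * (‖x - x'‖ / √t) * C) := by fun_prop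
    simpa using this.tendsto x
  refine squeeze_zero' (Eventually.of_forall fun _ => norm_nonneg _) ?_ h1
  have h2 : ∀ᶠ x' in 𝓝 x, ‖x - x'‖ ^ 2 ≤ t := by
    have : Continuous (fun x' => ‖x - x'‖ ^ 2) := by fun_prop
    exact (this.tendsto x).eventually (ge_mem_nhds (by simpa using ht))
  filter_upwards [h2] with x' hx'
  refine (abs_P_sub_space hf ht hx').trans (mul_le_mul_of_nonneg_left ?_ (by positivity))
  exact (le_abs_self _).trans (abs_P_le_const (by positivity)
    (fun y => by rw [abs_abs]; exact hC y) x)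

/-- Smoothing a Lipschitz function. -/
theorem abs_P_sub_self (hf : BM f) (ht : 0 < t) {K : ℝ} (K0 : 0 ≤ K) {x : V}
    (h : ∀ y, |f y - f x| ≤ K * ‖y - x‖) : |P t f x - f x| ≤ 5 * 2 ^ hd V * √t * K := by
  rw [← P_const ht (f x) x, ← P_sub hf (BM.const _) ht]
  have := abs_integral_le_P (g := fun _ => 1) (BM.const 1) (show 0 < 2 * t by positivity)
    (k := fun y => G t (y - x) * (f y - f x)) (x := x) (C := 5 * 2 ^ hd V * √t * K) fun y => by
      rw [abs_mul, abs_G ht.le]
      have h1 := norm_mul_G_le ht (y - x)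
      have h2 := G_pos ht (y - x)
      calc _ ≤ G t (y - x) * (K * ‖y - x‖) := by gcongr; exact h y
        _ = K * (‖y - x‖ * G t (y - x)) := by ring
        _ ≤ K * (5 * 2 ^ hd V * √t * G (2 * t) (y - x)) := by gcongr
        _ = _ := by ring
  rwa [P_const (by positivity), mul_one] at this

end Pool.Agent.Lib.MP_8daebb_an.HK
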