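import Mathlib

/-! The heat kernel of a finite-dimensional inner product space: pointwise facts. -/

open MeasureTheory Metric Filter Topology Set Real
open scoped RealInnerProductSpace

namespace Pool.Agent.Lib.MP_8daebb_an.HK

variable {V : Type*} [NormedAddCommGroup V] [InnerProductSpace ℝ V]

/-- Half the dimension. -/
noncomputable def hd (V : Type*) [NormedAddCommGroup V] [InnerProductSpace ℝ V] : ℝ :=
  (Module.finrank ℝ V : ℝ) / 2

/-- The heat kernel. -/
noncomputable def G (t : ℝ) (z : V) : ℝ := (4 * π * t) ^ (-hd V) * exp (-‖z‖ ^ 2 / (4 * t))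

/-- The heat semigroup. -/
noncomputable def P [FiniteDimensional ℝ V] [MeasurableSpace V] [BorelSpace V] (t : ℝ) (f : V → ℝ)
    (x : V) : ℝ := ∫ y, G t (y - x) * f y

theorem hd_nonneg : 0 ≤ hd V := by unfold hd; positivity

theorem G_pos {t : ℝ} (ht : 0 < t) (z : V) : 0 < G t z := by unfold G; positivity

theorem G_nonneg {t : ℝ} (ht : 0 ≤ t) (z : V) : 0 ≤ G t z := by unfold G; positivity

theorem abs_G {t : ℝ} (ht : 0 ≤ t) (z : V) : |G t z| = G t z := abs_of_nonneg (G_nonneg ht z)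

@[simp] theorem G_neg (t : ℝ) (z : V) : G t (-z) = G t z := by simp [G]

theorem G_sub_comm (t : ℝ) (x y : V) : G t (x - y) = G t (y - x) := by
  rw [← G_neg, neg_sub]

theorem G_congr (t : ℝ) {z w : V} (h : ‖z‖ = ‖w‖) : G t z = G t w := by simp [G, h]

theorem G_zero (t : ℝ) : G t (0 : V) = (4 * π * t) ^ (-hd V) := by simp [G]

@[fun_prop] theorem continuous_G (t : ℝ) : Continuous (G t : V → ℝ) := by
  unfold G; fun_prop

theorem contDiff_G (t : ℝ) {n : WithTop ℕ∞} : ContDiff ℝ n (G t : V → ℝ) := by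
  unfold G
  exact contDiff_const.mul (((contDiff_norm_sq ℝ).neg.div_const _).exp)

theorem continuousOn_G : ContinuousOn (fun p : ℝ × V => G p.1 p.2) (Ioi 0 ×ˢ univ) := by
  unfold G
  refine ContinuousOn.mul (ContinuousOn.rpow_const (by fun_prop) fun p hp => Or.inl ?_)
    (ContinuousOn.rexp (ContinuousOn.div (by fun_prop) (by fun_prop) fun p hp => ?_))
  · have : 0 < p.1 := hp.1
    positivity
  · have : 0 < p.1 := hp.1
    positivity

theorem measurable_G [MeasurableSpace V] [OpensMeasurableSpace V] [SecondCountableTopology V] :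
    Measurable (fun p : ℝ × V => G p.1 p.2) := by
  unfold G; fun_prop

theorem G_le_zero {t : ℝ} (ht : 0 < t) (z : V) : G t z ≤ (4 * π * t) ^ (-hd V) := by
  unfold G
  refine mul_le_of_le_one_right (by positivity) (exp_le_one_iff.2 ?_)
  rw [neg_div]
  exact neg_nonpos.2 (by positivity)

theorem G_anti {t : ℝ} (ht : 0 < t) {z w : V} (h : ‖z‖ ≤ ‖w‖) : G t w ≤ G t z := by
  unfold G
  gcongr

/-- Scaling of the prefactor. -/
theorem pre_eq {s t : ℝ} (hs : 0 < s) (ht : 0 < t) :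
    (4 * π * t) ^ (-hd V) = (s / t) ^ hd V * (4 * π * s) ^ (-hd V) := by
  have h1 : 4 * π * t = (4 * π * s) / (s / t) := by field_simp
  rw [h1, div_rpow (by positivity) (by positivity), rpow_neg (x := s / t) (by positivity)]
  field_simp

/-- The general comparison of two kernels. -/
theorem G_eq_mul {s t : ℝ} (hs : 0 < s) (ht : 0 < t) (z w : V) :
    G t z = (s / t) ^ hd V * exp (‖w‖ ^ 2 / (4 * s) - ‖z‖ ^ 2 / (4 * t)) * G s w := by
  unfold G
  rw [pre_eq hs ht, show -‖z‖ ^ 2 / (4 * t) =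
    (‖w‖ ^ 2 / (4 * s) - ‖z‖ ^ 2 / (4 * t)) + -‖w‖ ^ 2 / (4 * s) by ring, exp_add]
  ring

theorem G_le_of_le {s t : ℝ} (ht : 0 < t) (hts : t ≤ s) (z : V) :
    G t z ≤ (s / t) ^ hd V * G s z := by
  have hs : 0 < s := ht.trans_le hts
  rw [G_eq_mul hs ht z z]
  refine mul_le_mul_of_nonneg_right (mul_le_of_le_one_right (by positivity) ?_) (G_pos hs z).le
  rw [exp_le_one_iff, sub_nonpos]
  gcongr

theorem G_le_of_le_mul {s t c : ℝ} (ht : 0 < t) (hts : t ≤ s) (hc : s ≤ c * t) (z : V) :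
    G t z ≤ c ^ hd V * G s z := by
  have hs : 0 < s := ht.trans_le hts
  refine (G_le_of_le ht hts z).trans (mul_le_mul_of_nonneg_right ?_ (G_pos hs z).le)
  exact rpow_le_rpow (by positivity) ((div_le_iff₀ ht).2 hc) hd_nonneg

theorem G_eq_two {t : ℝ} (ht : 0 < t) (z : V) :
    G t z = 2 ^ hd V * exp (-(‖z‖ ^ 2 / t / 8)) * G (2 * t) z := by
  rw [G_eq_mul (s := 2 * t) (by positivity) ht z z, mul_div_cancel_right₀ _ ht.ne']
  congr 3
  field_simp
  ring

theorem G_le_two {t : ℝ} (ht : 0 < t) (z : V) : G t z ≤ 2 ^ hd V * G (2 * t) z :=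
  G_le_of_le_mul ht (by linarith) le_rfl z

/-- Gaussian tails. -/
theorem G_tail {t A : ℝ} (ht : 0 < t) {z : V} (h : A * t ≤ ‖z‖ ^ 2) :
    G t z ≤ 2 ^ hd V * exp (-(A / 8)) * G (2 * t) z := by
  rw [G_eq_two ht z]
  have := G_pos (show 0 < 2 * t by positivity) z
  have h2 : A ≤ ‖z‖ ^ 2 / t := (le_div_iff₀ ht).2 h
  gcongr

/-- The lower bound on a ball. -/
theorem G_lower {t A : ℝ} (ht : 0 < t) {z : V} (h : ‖z‖ ^ 2 ≤ A * t) :
    (4 * π * t) ^ (-hd V) * exp (-(A / 4)) ≤ G t z := by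
  unfold G
  refine mul_le_mul_of_nonneg_left (exp_le_exp.2 ?_) (by positivity)
  rw [neg_div, neg_le_neg_iff, div_le_iff₀ (by positivity)]
  linarith

theorem pow_mul_exp_neg_le {x : ℝ} (hx : 0 ≤ x) (j : ℕ) :
    x ^ j * exp (-(x / 8)) ≤ j.factorial * 8 ^ j := by
  have h := pow_div_factorial_le_exp (x / 8) (by positivity) j
  rw [exp_neg, ← div_eq_mul_inv, div_le_iff₀ (exp_pos _)]
  rw [div_le_iff₀ (by positivity), div_pow, div_le_iff₀ (by positivity)] at h
  linarith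

/-- Polynomial factors are absorbed by doubling the time. -/
theorem pow_mul_G_le {t : ℝ} (ht : 0 < t) (j : ℕ) (z : V) :
    (‖z‖ ^ 2 / t) ^ j * G t z ≤ j.factorial * 8 ^ j * 2 ^ hd V * G (2 * t) z := by
  rw [G_eq_two ht z]
  have h := pow_mul_exp_neg_le (show 0 ≤ ‖z‖ ^ 2 / t by positivity) j
  have := G_pos (show 0 < 2 * t by positivity) z
  calc _ = ((‖z‖ ^ 2 / t) ^ j * exp (-(‖z‖ ^ 2 / t / 8))) * (2 ^ hd V * G (2 * t) z) := by ring
    _ ≤ (j.factorial * 8 ^ j) * (2 ^ hd V * G (2 * t) z) := by gcongr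
    _ = _ := by ring

theorem sq_mul_G_le {t : ℝ} (ht : 0 < t) (z : V) :
    ‖z‖ ^ 2 * G t z ≤ 8 * 2 ^ hd V * t * G (2 * t) z := by
  have h := pow_mul_G_le ht 1 z
  rw [pow_one, div_mul_eq_mul_div, div_le_iff₀ ht] at h
  simpa [mul_comm, mul_left_comm, mul_assoc] using h

theorem norm_mul_G_le {t : ℝ} (ht : 0 < t) (z : V) :
    ‖z‖ * G t z ≤ 5 * 2 ^ hd V * √t * G (2 * t) z := by
  have h1 := sq_mul_G_le ht z
  have h2 := G_le_two ht z
  have hs : 0 < √t := sqrt_pos.2 ht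
  have hq : √t * √t = t := mul_self_sqrt ht.le
  have hG := G_pos ht z
  have h3 : 2 * √t * ‖z‖ ≤ ‖z‖ ^ 2 + t := by nlinarith [sq_nonneg (‖z‖ - √t)]
  have h4 := G_pos (show 0 < 2 * t by positivity) z
  have h5 : (0 : ℝ) < 2 ^ hd V := by positivity
  refine le_of_mul_le_mul_left ?_ (show 0 < 2 * √t by positivity)
  calc 2 * √t * (‖z‖ * G t z) = (2 * √t * ‖z‖) * G t z := by ring
    _ ≤ (‖z‖ ^ 2 + t) * G t z := by gcongr
    _ ≤ 8 * 2 ^ hd V * t * G (2 * t) z + t * (2 ^ hd V * G (2 * t) z) := by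
      rw [add_mul]; gcongr
    _ ≤ 10 * (2 ^ hd V * (√t * √t) * G (2 * t) z) := by
      rw [hq]; nlinarith [mul_pos (mul_pos h5 ht) h4]
    _ = _ := by ring

/-- Moving the centre. -/
theorem G_shift_le {t A : ℝ} (ht : 0 < t) {a : V} (h : ‖a‖ ^ 2 ≤ A * t) (z : V) :
    G t (z + a) ≤ 2 ^ hd V * exp (A / 4) * G (2 * t) z := by
  rw [G_eq_mul (s := 2 * t) (by positivity) ht (z + a) z, mul_div_cancel_right₀ _ ht.ne']
  have := G_pos (show 0 < 2 * t by positivity) z
  gcongr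
  have h1 : ‖z‖ ≤ ‖z + a‖ + ‖a‖ := by simpa using norm_sub_le (z + a) a
  have h2 : ‖z‖ ^ 2 ≤ 2 * ‖z + a‖ ^ 2 + 2 * ‖a‖ ^ 2 := by
    nlinarith [sq_nonneg (‖z + a‖ - ‖a‖), norm_nonneg z, norm_nonneg (z + a), norm_nonneg a]
  rw [div_sub_div _ _ (by positivity) (by positivity), div_le_div_iff₀ (by positivity) (by positivity)]
  nlinarith [mul_pos ht ht, mul_le_mul_of_nonneg_left h2 ht.le, mul_le_mul_of_nonneg_left h ht.le]

/-! ### Derivatives -/

theorem hasFDerivAt_G {t : ℝ} (ht : 0 < t) (z : V) :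
    HasFDerivAt (G t) (-(G t z / (2 * t)) • innerSL ℝ z) z := by
  have h1 : HasFDerivAt (fun z : V => -‖z‖ ^ 2 / (4 * t)) (-(1 / (2 * t)) • innerSL ℝ z) z := by
    have := ((hasStrictFDerivAt_norm_sq z).hasFDerivAt.neg).mul_const (4 * t)⁻¹
    refine HasFDerivAt.congr_fderiv this ?_
    ext v
    simp
    field_simp
    ring
  have := (h1.exp).const_mul ((4 * π * t) ^ (-hd V))
  refine HasFDerivAt.congr_fderiv this ?_
  ext v
  simp [G]
  ring

theorem fderiv_G {t : ℝ} (ht : 0 < t) (z e : V) :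
    fderiv ℝ (G t) z e = -(⟪z, e⟫ / (2 * t)) * G t z := by
  rw [(hasFDerivAt_G ht z).fderiv]
  simp
  ring

theorem hasGradientAt_G [CompleteSpace V] {t : ℝ} (ht : 0 < t) (z : V) :
    HasGradientAt (G t) (-(G t z / (2 * t)) • z) z := by
  rw [hasGradientAt_iff_hasFDerivAt]
  refine (hasFDerivAt_G ht z).congr_fderiv ?_
  ext v
  simp

theorem norm_fderiv_G_le {t : ℝ} (ht : 0 < t) (z : V) :
    ‖fderiv ℝ (G t) z‖ ≤ 3 * 2 ^ hd V / √t * G (2 * t) z := by
  rw [(hasFDerivAt_G ht z).fderiv, norm_smul, innerSL_apply_norm, norm_neg, Real.norm_eq_abs,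
    abs_of_nonneg (div_nonneg (G_pos ht z).le (by positivity))]
  have h := norm_mul_G_le ht z
  have hs : 0 < √t := sqrt_pos.2 ht
  have hq : √t * √t = t := mul_self_sqrt ht.le
  have h4 := G_pos (show 0 < 2 * t by positivity) z
  have h5 : (0 : ℝ) < 2 ^ hd V := by positivity
  rw [div_mul_eq_mul_div, div_mul_eq_mul_div, div_le_div_iff₀ (by positivity) hs]
  calc G t z * ‖z‖ * √t = ‖z‖ * G t z * √t := by ring
    _ ≤ 5 * 2 ^ hd V * √t * G (2 * t) z * √t := by gcongr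
    _ = 5 * (2 ^ hd V * G (2 * t) z * (√t * √t)) := by ring
    _ ≤ _ := by rw [hq]; nlinarith [mul_pos (mul_pos h5 h4) ht]

/-- Second derivatives. -/
theorem hasFDerivAt_fderiv_G {t : ℝ} (ht : 0 < t) (z e : V) :
    HasFDerivAt (fun y => fderiv ℝ (G t) y e)
      ((⟪z, e⟫ / (4 * t ^ 2) * G t z) • innerSL ℝ z - (G t z / (2 * t)) • innerSL ℝ e) z := by
  simp only [fderiv_G ht]
  have h1 : HasFDerivAt (fun y : V => -(⟪y, e⟫ / (2 * t))) (-(1 / (2 * t)) • innerSL ℝ e) z := by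
    have := (((innerSL ℝ e).hasFDerivAt (x := z)).mul_const (2 * t)⁻¹).neg
    have e1 : (fun y : V => -(⟪y, e⟫ / (2 * t))) = -fun y => ((innerSL ℝ) e) y * (2 * t)⁻¹ := by
      ext y
      simp [real_inner_comm, div_eq_mul_inv]
    rw [e1]
    refine this.congr_fderiv ?_
    ext v
    simp
  refine HasFDerivAt.congr_fderiv (h1.mul (hasFDerivAt_G ht z)) ?_
  ext v
  simp
  field_simp
  ring

theorem fderiv_fderiv_G {t : ℝ} (ht : 0 < t) (z e e' : V) :
    fderiv ℝ (fun y => fderiv ℝ (G t) y e) z e' =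
      (⟪z, e⟫ * ⟪z, e'⟫ / (4 * t ^ 2) - ⟪e, e'⟫ / (2 * t)) * G t z := by
  rw [(hasFDerivAt_fderiv_G ht z e).fderiv]
  simp
  ring

/-- The time derivative of the kernel. -/
noncomputable def dG (t : ℝ) (z : V) : ℝ := (‖z‖ ^ 2 / (4 * t ^ 2) - hd V / t) * G t z

theorem hasDerivAt_G {t : ℝ} (ht : 0 < t) (z : V) : HasDerivAt (fun s => G s z) (dG t z) t := by
  have h1 : HasDerivAt (fun s : ℝ => (4 * π * s) ^ (-hd V))
      (4 * π * (-hd V) * (4 * π * t) ^ (-hd V - 1)) t := by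
    have := ((hasDerivAt_id t).const_mul (4 * π)).rpow_const (p := -hd V)
      (Or.inl (by simp only [id]; positivity))
    simpa using this
  have h2 : HasDerivAt (fun s : ℝ => -‖z‖ ^ 2 / (4 * s)) (‖z‖ ^ 2 / (4 * t ^ 2)) t := by
    have := (((hasDerivAt_id t).const_mul 4).inv (by simp only [id]; positivity)).const_mul
      (-‖z‖ ^ 2)
    refine HasDerivAt.congr_deriv this ?_
    simp
    field_simp
  refine HasDerivAt.congr_deriv (h1.mul h2.exp) ?_
  unfold dG G
  rw [rpow_sub_one (by positivity)]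
  field_simp
  ring

theorem abs_dG_le {t : ℝ} (ht : 0 < t) (z : V) :
    |dG t z| ≤ (2 + hd V) * 2 ^ hd V / t * G (2 * t) z := by
  have h1 := sq_mul_G_le ht z
  have h2 := G_le_two ht z
  have h3 := G_pos ht z
  have h4 := hd_nonneg (V := V)
  unfold dG
  rw [sub_mul]
  refine (abs_sub _ _).trans ?_
  rw [abs_of_nonneg (by positivity), abs_of_nonneg (by positivity)]
  have a : ‖z‖ ^ 2 / (4 * t ^ 2) * G t z ≤ 2 * 2 ^ hd V / t * G (2 * t) z := by
    rw [div_mul_eq_mul_div, div_mul_eq_mul_div, div_le_div_iff₀ (by positivity) ht]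
    nlinarith [mul_le_mul_of_nonneg_right h1 ht.le]
  have b : hd V / t * G t z ≤ hd V / t * (2 ^ hd V * G (2 * t) z) := by gcongr
  calc _ ≤ _ := add_le_add a b
    _ = _ := by ring

/-- The heat equation, for any orthonormal basis. -/
theorem sum_fderiv_fderiv_G {ι : Type*} [Fintype ι] (b : OrthonormalBasis ι ℝ V) {t : ℝ}
    (ht : 0 < t) (z : V) :
    ∑ i, fderiv ℝ (fun y => fderiv ℝ (G t) y (b i)) z (b i) = dG t z := by
  simp only [fderiv_fderiv_G ht, ← Finset.sum_mul, Finset.sum_sub_distrib, ← Finset.sum_div]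
  have h1 : ∑ i, ⟪z, b i⟫ * ⟪z, b i⟫ = ‖z‖ ^ 2 := by
    rw [← b.sum_sq_inner_left z]
    exact Finset.sum_congr rfl fun i _ => by ring
  have h2 : ∑ i, ⟪b i, b i⟫ = (Module.finrank ℝ V : ℝ) := by
    simp [Module.finrank_eq_card_basis b.toBasis]
  rw [h1, h2, dG, hd]
  congr 2
  ring

/-- The kernel is Lipschitz in time. -/
theorem abs_G_sub_time {t s : ℝ} (ht : 0 < t) (hts : t ≤ s) (hs : s ≤ 2 * t) (z : V) :
    |G s z - G t z| ≤ (2 + hd V) * 4 ^ hd V * ((s - t) / t) * G (4 * t) z := by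
  have key := Convex.norm_image_sub_le_of_norm_hasDerivWithin_le (f := fun s => G s z)
    (f' := fun s => dG s z) (C := (2 + hd V) * 4 ^ hd V / t * G (4 * t) z) (s := Icc t s)
    (x := t) (y := s) (fun r hr => (hasDerivAt_G (ht.trans_le hr.1) z).hasDerivWithinAt)
    (fun r hr => by
      have hr0 : 0 < r := ht.trans_le hr.1
      have h1 := abs_dG_le hr0 z
      have h2 := G_le_of_le_mul (s := 4 * t) (t := 2 * r) (c := 2) (by positivity)
        (by linarith [hr.2]) (by linarith [hr.1]) z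
      have h3 := G_pos (show 0 < 4 * t by positivity) z
      have h4 := hd_nonneg (V := V)
      have h5 : (4 : ℝ) ^ hd V = 2 ^ hd V * 2 ^ hd V := by
        rw [← mul_rpow (by norm_num) (by norm_num)]; norm_num
      rw [Real.norm_eq_abs]
      calc _ ≤ _ := h1
        _ ≤ (2 + hd V) * 2 ^ hd V / t * (2 ^ hd V * G (4 * t) z) := by
          gcongr
          · exact (G_pos (by positivity) z).le
          · exact hr.1
        _ = _ := by rw [h5]; ring)
    (convex_Icc t s) (left_mem_Icc.2 hts) (right_mem_Icc.2 hts)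
  rw [Real.norm_eq_abs, Real.norm_eq_abs, abs_of_nonneg (sub_nonneg.2 hts)] at key
  calc _ ≤ _ := key
    _ = _ := by ring

/-- The kernel is Lipschitz in space. -/
theorem abs_G_sub_space {t : ℝ} (ht : 0 < t) {a : V} (ha : ‖a‖ ^ 2 ≤ t) (z : V) :
    |G t (z + a) - G t z| ≤ 4 * 4 ^ hd V * (‖a‖ / √t) * G (4 * t) z := by
  have key := Convex.norm_image_sub_le_of_norm_hasFDerivWithin_le (f := G t)
    (f' := fun y => fderiv ℝ (G t) y) (C := 4 * 4 ^ hd V / √t * G (4 * t) z)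
    (s := closedBall z ‖a‖) (x := z) (y := z + a)
    (fun y _ => (hasFDerivAt_G ht y).differentiableAt.hasFDerivAt.hasFDerivWithinAt)
    (fun y hy => by
      have h1 := norm_fderiv_G_le ht y
      have hy' : ‖y - z‖ ≤ ‖a‖ := by simpa [dist_eq_norm] using hy
      have h2 := G_shift_le (t := 2 * t) (A := 1 / 2) (a := y - z) (by positivity)
        (by nlinarith [norm_nonneg (y - z)]) z
      rw [add_sub_cancel, show 2 * (2 * t) = 4 * t by ring] at h2
      have h3 := G_pos (show 0 < 4 * t by positivity) z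
      have h5 : (4 : ℝ) ^ hd V = 2 ^ hd V * 2 ^ hd V := by
        rw [← mul_rpow (by norm_num) (by norm_num)]; norm_num
      have h6 : exp (1 / 2 / 4 : ℝ) ≤ 4 / 3 := by
        have := Real.exp_bound_div_one_sub_of_interval' (x := 1 / 2 / 4) (by norm_num) (by norm_num)
        linarith
      have hs : 0 < √t := sqrt_pos.2 ht
      calc _ ≤ _ := h1
        _ ≤ 3 * 2 ^ hd V / √t * (2 ^ hd V * (4 / 3) * G (4 * t) z) := by
          gcongr
          exact h2.trans (by gcongr)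
        _ = _ := by rw [h5]; ring)
    (convex_closedBall _ _) (mem_closedBall_self (norm_nonneg a)) (by simp)
  rw [Real.norm_eq_abs, add_sub_cancel_left] at key
  calc _ ≤ _ := key
    _ = _ := by ring

/-- Scaling. -/
theorem G_smul {t s : ℝ} (ht : 0 < t) (hs : 0 < s) (z : V) :
    G t (s • z) = s ^ (-(2 * hd V)) * G (t / s ^ 2) z := by
  rw [G_eq_mul (s := t / s ^ 2) (by positivity) ht (s • z) z, norm_smul, Real.norm_eq_abs,
    abs_of_pos hs, show ‖z‖ ^ 2 / (4 * (t / s ^ 2)) - (s * ‖z‖) ^ 2 / (4 * t) = 0 by field_simp; ring,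
    exp_zero, mul_one, show t / s ^ 2 / t = s ^ (-2 : ℝ) by
      rw [rpow_neg hs.le, rpow_two]; field_simp, ← rpow_mul hs.le]
  congr 2
  ring

/-- The product formula for an orthogonal splitting. -/
theorem G_prod {V₁ V₂ : Type*} [NormedAddCommGroup V₁] [InnerProductSpace ℝ V₁]
    [NormedAddCommGroup V₂] [InnerProductSpace ℝ V₂] (hV : hd V = hd V₁ + hd V₂) {t : ℝ}
    (ht : 0 < t) {z : V} {a : V₁} {b : V₂} (h : ‖z‖ ^ 2 = ‖a‖ ^ 2 + ‖b‖ ^ 2) :
    G t z = G t a * G t b := by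
  unfold G
  rw [hV, h, neg_add, rpow_add (by positivity), neg_add, add_div, exp_add]
  ring

end Pool.Agent.Lib.MP_8daebb_an.HK
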