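import Pool.Agent.Lib.MP_8daebb_an.HK.Dv

/-! `L²` facts for the heat semigroup. -/

open MeasureTheory Metric Filter Topology Set Real
open scoped RealInnerProductSpace

namespace Pool.Agent.Lib.MP_8daebb_an.HK

variable {V : Type*} [NormedAddCommGroup V] [InnerProductSpace ℝ V] [FiniteDimensional ℝ V]
  [MeasurableSpace V] [BorelSpace V]
variable {f g : V → ℝ} {s t : ℝ}

theorem integral_P_mul_P (hf : Integrable f) (hg : BM g) (hs : 0 < s) (ht : 0 < t) :
    ∫ x, P s f x * P t g x = ∫ x, f x * P (s + t) g x := by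
  rw [← integral_mul_P hf (hg.P ht) hs, P_P_fun hg hs ht]

theorem integral_sq_P (hf : LI f) (ht : 0 < t) :
    ∫ x, P t f x ^ 2 = ∫ x, f x * P (2 * t) f x := by
  rw [two_mul, ← integral_P_mul_P hf.int hf.bm ht ht]
  simp only [pow_two]

theorem integral_mul_P_self (hf : LI f) (ht : 0 < t) :
    ∫ x, f x * P t f x = ∫ x, P (t / 2) f x ^ 2 := by
  rw [integral_sq_P hf (half_pos ht), mul_div_cancel₀ _ two_ne_zero]

theorem integral_mul_P_self_nonneg (hf : LI f) (ht : 0 < t) : 0 ≤ ∫ x, f x * P t f x := by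
  rw [integral_mul_P_self hf ht]; exact integral_nonneg fun x => sq_nonneg _

/-- contraction -/
theorem integral_sq_P_le (hf : LI f) (ht : 0 < t) : ∫ x, P t f x ^ 2 ≤ ∫ x, f x ^ 2 := by
  have := integral_sq_Cv_le (ker_G ht) hf
  rwa [integral_abs_G ht, one_pow, one_mul] at this

theorem integral_mul_P_self_le (hf : LI f) (ht : 0 < t) : ∫ x, f x * P t f x ≤ ∫ x, f x ^ 2 := by
  rw [integral_mul_P_self hf ht]; exact integral_sq_P_le hf (half_pos ht)

theorem integral_sq_P_anti (hf : LI f) (hs : 0 < s) (hst : s ≤ t) :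
    ∫ x, P t f x ^ 2 ≤ ∫ x, P s f x ^ 2 := by
  rcases hst.eq_or_lt with rfl | h
  · exact le_rfl
  · have := integral_sq_P_le (hf.P hs) (sub_pos.2 h)
    rwa [P_P_fun hf.bm (sub_pos.2 h) hs, sub_add_cancel] at this

theorem integral_mul_P_self_anti (hf : LI f) (hs : 0 < s) (hst : s ≤ t) :
    ∫ x, f x * P t f x ≤ ∫ x, f x * P s f x := by
  rw [integral_mul_P_self hf hs, integral_mul_P_self hf (hs.trans_le hst)]
  exact integral_sq_P_anti hf (half_pos hs) (by linarith)

/-- the band inequality -/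
theorem integral_sq_P_sub_le (hf : LI f) (hs : 0 < s) (hst : s ≤ t) :
    ∫ x, (P s f x - P t f x) ^ 2 ≤ (∫ x, P s f x ^ 2) - ∫ x, P t f x ^ 2 := by
  have ht : 0 < t := hs.trans_le hst
  have h1 : ∫ x, (P s f x - P t f x) ^ 2 =
      (∫ x, P s f x ^ 2) - 2 * (∫ x, P s f x * P t f x) + ∫ x, P t f x ^ 2 := by
    rw [← integral_const_mul, ← integral_sub (hf.P hs).sq.int
      (((hf.P hs).mul_bd (hf.bm.P ht)).int.const_mul 2), ← integral_add
      ((hf.P hs).sq.sub (((hf.P hs).mul_bd (hf.bm.P ht)).const_mul 2)).int (hf.P ht).sq.int]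
    congr 1; funext x; ring
  have h2 := integral_mul_P_self_anti hf (show 0 < s + t by positivity)
    (show s + t ≤ 2 * t by linarith)
  rw [← integral_sq_P hf ht, ← integral_P_mul_P hf.int hf.bm hs ht] at h2
  linarith

/-- telescoped band inequality -/
theorem sum_integral_sq_P_sub_le (hf : LI f) {τ : ℕ → ℝ} (h0 : 0 < τ 0) (hm : Monotone τ) (n : ℕ) :
    ∑ i ∈ Finset.range n, ∫ x, (P (τ i) f x - P (τ (i + 1)) f x) ^ 2 ≤ ∫ x, f x ^ 2 := by
  have hp : ∀ i, 0 < τ i := fun i => h0.trans_le (hm (Nat.zero_le i))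
  calc _ ≤ ∑ i ∈ Finset.range n, ((∫ x, P (τ i) f x ^ 2) - ∫ x, P (τ (i + 1)) f x ^ 2) :=
        Finset.sum_le_sum fun i _ => integral_sq_P_sub_le hf (hp i) (hm (Nat.le_succ i))
    _ = (∫ x, P (τ 0) f x ^ 2) - ∫ x, P (τ n) f x ^ 2 :=
        Finset.sum_range_sub' (fun i => ∫ x, P (τ i) f x ^ 2) n
    _ ≤ _ := by
        have h1 := integral_sq_P_le hf h0
        have h2 : 0 ≤ ∫ x, P (τ n) f x ^ 2 := integral_nonneg fun x => sq_nonneg _
        linarith

theorem integral_sq_Cv_le_of_G {K : V → ℝ} (hK : Measurable K) (ht : 0 < t) {C : ℝ}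
    (h : ∀ z, |K z| ≤ C * G t z) (hf : LI f) : ∫ x, Cv K f x ^ 2 ≤ C ^ 2 * ∫ y, f y ^ 2 := by
  refine (integral_sq_Cv_le (Ker.of_G hK ht h) hf).trans ?_
  exact mul_le_mul_of_nonneg_right (pow_le_pow_left₀ (integral_nonneg fun z => abs_nonneg _)
    (integral_abs_le_of_G ht h) 2) (integral_nonneg fun y => sq_nonneg _)

theorem integral_sq_fderiv_P_le (hf : LI f) (ht : 0 < t) (e : V) :
    ∫ x, fderiv ℝ (P t f) x e ^ 2 ≤ 9 * 4 ^ hd V / t * ‖e‖ ^ 2 * ∫ y, f y ^ 2 := by
  simp only [fderiv_P hf.bm ht]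
  refine (integral_sq_Cv_le_of_G (continuous_K1 t e).measurable (by positivity) (abs_K1_le ht e)
    hf).trans (le_of_eq ?_)
  have h5 : (4 : ℝ) ^ hd V = 2 ^ hd V * 2 ^ hd V := by
    rw [← mul_rpow (by norm_num) (by norm_num)]; norm_num
  rw [mul_pow, div_pow, sq_sqrt ht.le, h5]; ring

theorem integral_sq_Cv_dG_le (hf : LI f) (ht : 0 < t) :
    ∫ x, Cv (dG t) f x ^ 2 ≤ ((2 + hd V) * 2 ^ hd V / t) ^ 2 * ∫ y, f y ^ 2 :=
  integral_sq_Cv_le_of_G (continuous_dG t).measurable (by positivity) (abs_dG_le ht) hf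

/-- differentiating a pairing in time -/
theorem hasDerivAt_integral_mul_P (hf : Integrable f) (hg : BM g) (ht : 0 < t) :
    HasDerivAt (fun s => ∫ x, f x * P s g x) (∫ x, f x * Cv (dG t) g x) t := by
  have hpos : ∀ s ∈ ball t (t / 2), 0 < s := fun s hs => by
    rw [mem_ball, Real.dist_eq, abs_lt] at hs; linarith
  obtain ⟨C, hC0, hC⟩ := hg.bdd'
  refine (hasDerivAt_integral_of_dominated_loc_of_deriv_le (F := fun s x => f x * P s g x)
    (F' := fun s x => f x * Cv (dG s) g x)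
    (bound := fun x => |f x| * ((2 + hd V) * 2 ^ hd V / (t / 2) * 3 ^ hd V * C))
    (s := ball t (t / 2)) (ball_mem_nhds t (half_pos ht)) ?_
    ((hg.P ht).integrable_mul hf) ((hg.cv (ker_dG ht)).integrable_mul hf).aestronglyMeasurable ?_
    (hf.abs.mul_const _) ?_).2
  · filter_upwards [ball_mem_nhds t (half_pos ht)] with s hs
    exact ((hg.P (hpos s hs)).integrable_mul hf).aestronglyMeasurable
  · refine Eventually.of_forall fun x s hs => ?_
    rw [Real.norm_eq_abs, abs_mul]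
    refine mul_le_mul_of_nonneg_left ?_ (abs_nonneg _)
    have := abs_Cv_le_P (K := dG s) (f := g) (show 0 < 3 * t by positivity)
      (C := (2 + hd V) * 2 ^ hd V / (t / 2) * 3 ^ hd V)
      (fun z => (abs_dG_le_near ht z hs).trans_eq (by ring)) (BM.const C) hC x
    rwa [P_const (by positivity)] at this
  · exact Eventually.of_forall fun x s hs => (hasDerivAt_P hg (hpos s hs) x).const_mul (f x)

theorem continuousOn_integral_mul_P (hf : Integrable f) (hg : BM g) :
    ContinuousOn (fun s => ∫ x, f x * P s g x) (Ioi 0) :=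
  fun _ hs => (hasDerivAt_integral_mul_P hf hg hs).continuousAt.continuousWithinAt

theorem integral_mul_Cv_K2 (hf : Integrable f) (hg : BM g) (hs : 0 < s) (ht : 0 < t) (e e' : V) :
    ∫ x, f x * Cv (K2 (s + t) e e') g x = -∫ x, Cv (K1 s e') f x * Cv (K1 t e) g x := by
  simp only [Cv_K2_add hg hs ht]
  exact integral_mul_Cv_odd (ker_K1 hs e') (K1_neg s e') hf (hg.cv (ker_K1 ht e))

theorem integral_mul_Cv_K2_self (hf : LI f) (ht : 0 < t) (e : V) :
    ∫ x, f x * Cv (K2 (2 * t) e e) f x = -∫ x, fderiv ℝ (P t f) x e ^ 2 := by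
  rw [two_mul, integral_mul_Cv_K2 hf.int hf.bm ht ht]
  simp only [fderiv_P hf.bm ht, pow_two]

omit [FiniteDimensional ℝ V] [MeasurableSpace V] [BorelSpace V] in
theorem norm_sq_eq_sum {ι : Type*} [Fintype ι] (b : OrthonormalBasis ι ℝ V) (l : V →L[ℝ] ℝ) :
    ‖l‖ ^ 2 = ∑ i, l (b i) ^ 2 := by
  have : FiniteDimensional ℝ V := b.toBasis.finiteDimensional_of_finite
  have : CompleteSpace V := FiniteDimensional.complete ℝ V
  obtain ⟨v, rfl⟩ := (InnerProductSpace.toDual ℝ V).surjective l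
  rw [LinearIsometryEquiv.norm_map, ← b.sum_sq_inner_left v]
  simp

theorem integral_norm_sq_fderiv_P {ι : Type*} [Fintype ι] (b : OrthonormalBasis ι ℝ V) (hf : LI f)
    (ht : 0 < t) :
    ∫ x, ‖fderiv ℝ (P t f) x‖ ^ 2 = ∑ i, ∫ x, fderiv ℝ (P t f) x (b i) ^ 2 := by
  simp only [norm_sq_eq_sum b]
  exact integral_finsetSum _ fun i _ => (hf.fderiv_P ht (b i)).sq.int

theorem integral_mul_Cv_dG_self (hf : LI f) (ht : 0 < t) :
    ∫ x, f x * Cv (dG (2 * t)) f x = -∫ x, ‖fderiv ℝ (P t f) x‖ ^ 2 := by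
  have h2 : 0 < 2 * t := by positivity
  rw [integral_norm_sq_fderiv_P (stdOrthonormalBasis ℝ V) hf ht, ← Finset.sum_neg_distrib]
  simp only [Cv_dG_eq_sum (stdOrthonormalBasis ℝ V) hf.bm h2, Finset.mul_sum]
  rw [integral_finsetSum _ fun i _ => (hf.mul_bd (hf.bm.cv (ker_K2 h2 _ _))).int]
  exact Finset.sum_congr rfl fun i _ => integral_mul_Cv_K2_self hf ht _

/-- the energy identity -/
theorem hasDerivAt_integral_sq_P (hf : LI f) (ht : 0 < t) :
    HasDerivAt (fun s => ∫ x, P s f x ^ 2) (-2 * ∫ x, ‖fderiv ℝ (P t f) x‖ ^ 2) t := by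
  have h1 := (hasDerivAt_integral_mul_P hf.int hf.bm (show 0 < 2 * t by positivity)).comp t
    ((hasDerivAt_id t).const_mul 2)
  rw [integral_mul_Cv_dG_self hf ht] at h1
  refine (h1.congr_deriv (by ring)).congr_of_eventuallyEq ?_
  filter_upwards [Ioi_mem_nhds ht] with s hs
  exact integral_sq_P hf hs

theorem continuousOn_integral_sq_P (hf : LI f) :
    ContinuousOn (fun s => ∫ x, P s f x ^ 2) (Ioi 0) :=
  fun _ hs => (hasDerivAt_integral_sq_P hf hs).continuousAt.continuousWithinAt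

/-- continuity in time of `‖Cv (k s) f‖²` when `Cv (k (s + t)) = P s ∘ Cv (k t)` -/
theorem continuousOn_sq_of_semigroup {F : ℝ → V → ℝ} (hF : ∀ t, 0 < t → LI (F t))
    (h : ∀ s t, 0 < s → 0 < t → F (s + t) = P s (F t)) :
    ContinuousOn (fun s => ∫ x, F s x ^ 2) (Ioi 0) := by
  intro t ht
  have ht' : 0 < t / 2 := half_pos ht
  have h1 := (hasDerivAt_integral_sq_P (hF _ ht') ht').continuousAt
  have h2 : ContinuousAt (fun s => ∫ x, P (s - t / 2) (F (t / 2)) x ^ 2) t :=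
    ContinuousAt.comp (g := fun s => ∫ x, P s (F (t / 2)) x ^ 2) (f := fun s => s - t / 2)
      (by rw [sub_half]; exact h1) (by fun_prop)
  refine (h2.congr ?_).continuousWithinAt
  filter_upwards [Ioi_mem_nhds (half_lt_self ht)] with s hs
  rw [← h _ _ (sub_pos.2 hs) ht', sub_add_cancel]

theorem continuousOn_integral_sq_fderiv_P (hf : LI f) (e : V) :
    ContinuousOn (fun s => ∫ x, fderiv ℝ (P s f) x e ^ 2) (Ioi 0) := by
  refine (continuousOn_sq_of_semigroup (F := fun s => Cv (K1 s e) f)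
    (fun t ht => hf.cv (ker_K1 ht e))
    fun s t hs ht => funext (Cv_K1_add' hf.bm hs ht e)).congr fun s hs => ?_
  simp only [fderiv_P hf.bm hs]

theorem continuousOn_integral_norm_sq_fderiv_P (hf : LI f) :
    ContinuousOn (fun s => ∫ x, ‖fderiv ℝ (P s f) x‖ ^ 2) (Ioi 0) :=
  (continuousOn_finsetSum Finset.univ fun i _ =>
    continuousOn_integral_sq_fderiv_P hf (stdOrthonormalBasis ℝ V i)).congr fun _ hs =>
      integral_norm_sq_fderiv_P (stdOrthonormalBasis ℝ V) hf hs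

theorem continuousOn_integral_sq_Cv_dG (hf : LI f) :
    ContinuousOn (fun s => ∫ x, Cv (dG s) f x ^ 2) (Ioi 0) :=
  continuousOn_sq_of_semigroup (F := fun s => Cv (dG s) f) (fun _ ht => hf.cv (ker_dG ht))
    fun _ _ hs ht => funext (Cv_dG_add' hf.bm hs ht)

theorem intervalIntegrable_of_Ioi {h : ℝ → ℝ} (hc : ContinuousOn h (Ioi 0)) {a b : ℝ} (ha : 0 < a)
    (hb : 0 < b) : IntervalIntegrable h volume a b :=
  (hc.mono fun _ hx => (lt_min ha hb).trans_le hx.1).intervalIntegrable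

/-- a nonnegative function with bounded integrals on `[a, T]` is integrable on `[0, T]` -/
theorem integral_zero_le_of_bdd {h : ℝ → ℝ} {T C : ℝ} (hT : 0 < T) (hc : ContinuousOn h (Ioi 0))
    (h0 : ∀ t, 0 < t → 0 ≤ h t) (hb : ∀ a, 0 < a → a ≤ T → ∫ t in a..T, h t ≤ C) :
    IntervalIntegrable h volume 0 T ∧ ∫ t in (0 : ℝ)..T, h t ≤ C := by
  have ha : Tendsto (fun n : ℕ => T / ((n : ℝ) + 1)) atTop (𝓝 0) := by
    simpa [div_eq_mul_inv] using tendsto_one_div_add_atTop_nhds_zero_nat.const_mul T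
  have hp : ∀ n : ℕ, 0 < T / ((n : ℝ) + 1) := fun n => by positivity
  have hle : ∀ n : ℕ, T / ((n : ℝ) + 1) ≤ T := fun n =>
    div_le_self hT.le (by linarith [Nat.cast_nonneg (α := ℝ) n])
  have hi : IntegrableOn h (Ioc 0 T) := by
    refine integrableOn_Ioc_of_intervalIntegral_norm_bounded_left (l := atTop) (I := C)
      (a := fun n : ℕ => T / ((n : ℝ) + 1))
      (fun n => (intervalIntegrable_of_Ioi hc (hp n) hT).1) ha (Eventually.of_forall fun n => ?_)
    rw [← intervalIntegral.integral_of_le (hle n)]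
    refine le_trans (le_of_eq ?_) (hb _ (hp n) (hle n))
    refine intervalIntegral.integral_congr fun t ht => ?_
    have : 0 < t := (lt_min (hp n) hT).trans_le ht.1
    simp [abs_of_nonneg (h0 t this)]
  have hI : IntervalIntegrable h volume 0 T := (intervalIntegrable_iff_integrableOn_Ioc_of_le hT.le).2 hi
  refine ⟨hI, ?_⟩
  have hcont := intervalIntegral.continuousOn_primitive_interval_left (f := h) (μ := volume)
    (a := 0) (b := T) (by
      rw [uIcc_of_le hT.le]; exact (integrableOn_Icc_iff_integrableOn_Ioc).2 hi)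
  rw [uIcc_of_le hT.le] at hcont
  have ht := (hcont 0 (left_mem_Icc.2 hT.le)).tendsto.comp
    (tendsto_nhdsWithin_iff.2 ⟨ha, Eventually.of_forall fun n => ⟨(hp n).le, hle n⟩⟩)
  exact le_of_tendsto' ht fun n => hb _ (hp n) (hle n)

theorem integral_grad_P {a b : ℝ} (hf : LI f) (ha : 0 < a) (hb : 0 < b) :
    ∫ t in a..b, ∫ x, ‖fderiv ℝ (P t f) x‖ ^ 2 =
      ((∫ x, P a f x ^ 2) - ∫ x, P b f x ^ 2) / 2 := by
  have h := intervalIntegral.integral_eq_sub_of_hasDerivAt (a := a) (b := b)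
    (f := fun s => ∫ x, P s f x ^ 2) (f' := fun t => -2 * ∫ x, ‖fderiv ℝ (P t f) x‖ ^ 2)
    (fun t ht => hasDerivAt_integral_sq_P hf ((lt_min ha hb).trans_le ht.1))
    ((intervalIntegrable_of_Ioi (continuousOn_integral_norm_sq_fderiv_P hf) ha hb).const_mul _)
  rw [intervalIntegral.integral_const_mul] at h
  linarith

/-- the gradient of the heat flow is in `L²` of space-time -/
theorem integral_grad_P_le (hf : LI f) {T : ℝ} (hT : 0 < T) :
    IntervalIntegrable (fun t => ∫ x, ‖fderiv ℝ (P t f) x‖ ^ 2) volume 0 T ∧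
      ∫ t in (0 : ℝ)..T, ∫ x, ‖fderiv ℝ (P t f) x‖ ^ 2 ≤ (∫ x, f x ^ 2) / 2 := by
  refine integral_zero_le_of_bdd hT (continuousOn_integral_norm_sq_fderiv_P hf)
    (fun t _ => integral_nonneg fun x => sq_nonneg _) fun a ha _ => ?_
  rw [integral_grad_P hf ha hT]
  have h1 := integral_sq_P_le hf ha
  have h2 : 0 ≤ ∫ x, P T f x ^ 2 := integral_nonneg fun x => sq_nonneg _
  linarith

theorem integral_sq_fderiv_le_norm (hf : LI f) (ht : 0 < t) (e : V) :
    ∫ x, fderiv ℝ (P t f) x e ^ 2 ≤ ‖e‖ ^ 2 * ∫ x, ‖fderiv ℝ (P t f) x‖ ^ 2 := by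
  rw [← integral_const_mul]
  refine integral_mono (hf.fderiv_P ht e).sq.int ((hf.norm_fderiv_P ht).sq.int.const_mul _)
    fun x => ?_
  have h := (fderiv ℝ (P t f) x).le_opNorm e
  rw [Real.norm_eq_abs] at h
  calc fderiv ℝ (P t f) x e ^ 2 = |fderiv ℝ (P t f) x e| ^ 2 := (sq_abs _).symm
    _ ≤ (‖fderiv ℝ (P t f) x‖ * ‖e‖) ^ 2 := by gcongr
    _ = _ := by ring

theorem integral_dir_P_le (hf : LI f) (e : V) {T : ℝ} (hT : 0 < T) :
    IntervalIntegrable (fun t => ∫ x, fderiv ℝ (P t f) x e ^ 2) volume 0 T ∧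
      ∫ t in (0 : ℝ)..T, ∫ x, fderiv ℝ (P t f) x e ^ 2 ≤ ‖e‖ ^ 2 * (∫ x, f x ^ 2) / 2 := by
  refine integral_zero_le_of_bdd hT (continuousOn_integral_sq_fderiv_P hf e)
    (fun t _ => integral_nonneg fun x => sq_nonneg _) fun a ha haT => ?_
  calc _ ≤ ∫ t in a..T, ‖e‖ ^ 2 * ∫ x, ‖fderiv ℝ (P t f) x‖ ^ 2 :=
        intervalIntegral.integral_mono_on haT
          (intervalIntegrable_of_Ioi (continuousOn_integral_sq_fderiv_P hf e) ha hT)
          ((intervalIntegrable_of_Ioi (continuousOn_integral_norm_sq_fderiv_P hf) ha hT).const_mul _)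
          fun t ht => integral_sq_fderiv_le_norm hf (ha.trans_le ht.1) e
    _ ≤ _ := by
        rw [intervalIntegral.integral_const_mul, integral_grad_P hf ha hT, mul_div_assoc]
        have h1 := integral_sq_P_le hf ha
        have h2 : 0 ≤ ∫ x, P T f x ^ 2 := integral_nonneg fun x => sq_nonneg _
        gcongr; linarith

/-- derivative of the Dirichlet energy along the flow -/
theorem hasDerivAt_integral_norm_sq_fderiv_P (hf : LI f) (ht : 0 < t) :
    HasDerivAt (fun s => ∫ x, ‖fderiv ℝ (P s f) x‖ ^ 2) (-2 * ∫ x, Cv (dG t) f x ^ 2) t := by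
  have hg : BM (Cv (dG t) f) := hf.bm.cv (ker_dG ht)
  have h0 : HasDerivAt (fun s : ℝ => 2 * s - t) 2 t := by
    simpa using ((hasDerivAt_id t).const_mul 2).sub_const t
  have h1 := (HasDerivAt.comp (h := fun s : ℝ => 2 * s - t) t
    (hasDerivAt_integral_mul_P hf.int hg (t := 2 * t - t) (by linarith)) h0).neg
  have h2 : ∫ x, f x * Cv (dG (2 * t - t)) (Cv (dG t) f) x = ∫ x, Cv (dG t) f x ^ 2 := by
    rw [show 2 * t - t = t by ring, integral_mul_Cv_even (ker_dG ht) (dG_neg t) hf.int hg]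
    simp only [pow_two]
  rw [h2] at h1
  refine (h1.congr_deriv (by ring)).congr_of_eventuallyEq ?_
  filter_upwards [Ioi_mem_nhds (half_lt_self ht)] with s hs
  have hs' : t / 2 < s := hs
  have h3 := integral_mul_Cv_dG_self hf (show 0 < s by linarith)
  have h4 : Cv (dG (2 * s)) f = P (2 * s - t) (Cv (dG t) f) := by
    funext x
    rw [← Cv_dG_add' hf.bm (by linarith) ht, sub_add_cancel]
  rw [h4] at h3
  simp only [Pi.neg_apply, Function.comp]
  linarith

/-- the second order estimate `∫ t ‖Δ P_t f‖² dt ≤ C ‖f‖²` -/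
theorem integral_mul_lap_P_le (hf : LI f) {T : ℝ} (hT : 0 < T) :
    IntervalIntegrable (fun t => t * ∫ x, Cv (dG t) f x ^ 2) volume 0 T ∧
      ∫ t in (0 : ℝ)..T, t * ∫ x, Cv (dG t) f x ^ 2 ≤ 3 / 4 * ∫ x, f x ^ 2 := by
  have hc : ContinuousOn (fun t => t * ∫ x, Cv (dG t) f x ^ 2) (Ioi 0) :=
    continuousOn_id.mul (continuousOn_integral_sq_Cv_dG hf)
  have hc2 := continuousOn_integral_norm_sq_fderiv_P hf
  refine integral_zero_le_of_bdd hT hc
    (fun t ht => mul_nonneg ht.le (integral_nonneg fun x => sq_nonneg _)) fun a ha haT => ?_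
  set E : ℝ → ℝ := fun s => ∫ x, ‖fderiv ℝ (P s f) x‖ ^ 2 with hE
  set N := ∫ x, f x ^ 2 with hN
  have hE0 : ∀ s, 0 ≤ E s := fun s => integral_nonneg fun x => sq_nonneg _
  have h := intervalIntegral.integral_eq_sub_of_hasDerivAt (a := a) (b := T)
    (f := fun s => s * E s) (f' := fun t => E t - 2 * (t * ∫ x, Cv (dG t) f x ^ 2))
    (fun t ht => ((hasDerivAt_id t).mul (hasDerivAt_integral_norm_sq_fderiv_P hf
      ((lt_min ha hT).trans_le ht.1))).congr_deriv (by simp only [id, hE]; ring))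
    ((intervalIntegrable_of_Ioi hc2 ha hT).sub
      ((intervalIntegrable_of_Ioi hc ha hT).const_mul _))
  rw [intervalIntegral.integral_sub (intervalIntegrable_of_Ioi hc2 ha hT)
    ((intervalIntegrable_of_Ioi hc ha hT).const_mul _),
    intervalIntegral.integral_const_mul, integral_grad_P hf ha hT] at h
  have h1 := integral_sq_P_le hf ha
  have h2 : 0 ≤ ∫ x, P T f x ^ 2 := integral_nonneg fun x => sq_nonneg _
  have h3 : 0 ≤ T * E T := mul_nonneg hT.le (hE0 T)
  have hanti : ∀ s ∈ Icc (a / 2) a, E a ≤ E s := fun s hs => by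
    have hs0 : 0 < s := (half_pos ha).trans_le hs.1
    simp only [hE, integral_norm_sq_fderiv_P (stdOrthonormalBasis ℝ V) hf ha,
      integral_norm_sq_fderiv_P (stdOrthonormalBasis ℝ V) hf hs0]
    refine Finset.sum_le_sum fun i _ => ?_
    rcases hs.2.eq_or_lt with h | h
    · rw [h]
    · have := integral_sq_P_le (hf.cv (ker_K1 hs0 (stdOrthonormalBasis ℝ V i))) (sub_pos.2 h)
      simp only [← Cv_K1_add' hf.bm (sub_pos.2 h) hs0, sub_add_cancel] at this
      simpa only [fderiv_P hf.bm ha, fderiv_P hf.bm hs0] using this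
  have h4 : a / 2 * E a ≤ N / 2 := by
    have h5 := intervalIntegral.integral_mono_on (half_le_self ha.le)
      (intervalIntegrable_const (c := E a)) (intervalIntegrable_of_Ioi hc2 (half_pos ha) ha) hanti
    rw [integral_grad_P hf (half_pos ha) ha, intervalIntegral.integral_const, smul_eq_mul,
      sub_half] at h5
    have h6 := integral_sq_P_le hf (half_pos ha)
    have h7 : 0 ≤ ∫ x, P a f x ^ 2 := integral_nonneg fun x => sq_nonneg _
    linarith
  linarith

end Pool.Agent.Lib.MP_8daebb_an.HK
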