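import Pool.Agent.Lib.MP_8daebb_an.HK.L2
import Pool.Agent.Lib.MP_8daebb_an.AS.Def

/-! Trace, gradient, Laplacian; the heat equation; integration by parts. -/

open MeasureTheory Metric Filter Topology Set Real
open scoped RealInnerProductSpace

namespace Pool.Agent.Lib.MP_8daebb_an.HK

open AS (tr lap)

variable {V : Type*} [NormedAddCommGroup V] [InnerProductSpace ℝ V] [FiniteDimensional ℝ V]
variable {f g : V → ℝ} {s t : ℝ}

section algebra
variable {ι : Type*} [Fintype ι]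

omit [FiniteDimensional ℝ V] in
theorem tr_eq_sum (b : OrthonormalBasis ι ℝ V) (A : V →L[ℝ] V) :
    tr A = ∑ i, ⟪A (b i), b i⟫ := by
  unfold AS.tr
  rw [LinearMap.trace_eq_sum_inner _ b]
  exact Finset.sum_congr rfl fun i _ => real_inner_comm _ _

omit [FiniteDimensional ℝ V] in
theorem tr_eq_sum' (b : OrthonormalBasis ι ℝ V) (A : V →L[ℝ] V) :
    tr A = ∑ i, ⟪A (b i), b i⟫ := tr_eq_sum b A

theorem gradient_eq_comp (f : V → ℝ) :
    gradient f = (InnerProductSpace.toDual ℝ V).symm ∘ fderiv ℝ f := rfl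

theorem norm_gradient (f : V → ℝ) (x : V) : ‖gradient f x‖ = ‖fderiv ℝ f x‖ := by
  rw [gradient_eq_comp, Function.comp, LinearIsometryEquiv.norm_map]

theorem contDiff_gradient {n : ℕ} (hf : ContDiff ℝ (n + 1 : ℕ) f) : ContDiff ℝ n (gradient f) := by
  rw [gradient_eq_comp]
  exact (InnerProductSpace.toDual ℝ V).symm.toContinuousLinearEquiv.contDiff.comp
    (hf.fderiv_right (by push_cast; exact le_rfl))

theorem continuous_gradient (hf : ContDiff ℝ 1 f) : Continuous (gradient f) :=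
  (contDiff_gradient (n := 0) hf).continuous

omit [FiniteDimensional ℝ V] in
theorem contDiff_fderiv_apply (hf : ContDiff ℝ 2 f) (e : V) :
    ContDiff ℝ 1 (fun y => fderiv ℝ f y e) :=
  (hf.fderiv_right (m := 1) le_rfl).clm_apply contDiff_const

omit [FiniteDimensional ℝ V] in
theorem contDiff_fderiv_apply' (hf : ContDiff ℝ 3 f) (e : V) :
    ContDiff ℝ 2 (fun y => fderiv ℝ f y e) :=
  (hf.fderiv_right (m := 2) le_rfl).clm_apply contDiff_const

theorem inner_fderiv_gradient (hf : ContDiff ℝ 2 f) (x v w : V) :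
    ⟪fderiv ℝ (gradient f) x v, w⟫ = fderiv ℝ (fun y => fderiv ℝ f y w) x v := by
  have hd : DifferentiableAt ℝ (gradient f) x :=
    (contDiff_gradient (n := 1) hf).differentiable one_ne_zero x
  have h1 : (fun y => fderiv ℝ f y w) = fun y => ⟪gradient f y, w⟫ :=
    funext fun y => inner_gradient_left.symm
  rw [h1, fderiv_inner_apply ℝ hd (differentiableAt_const w)]
  simp

theorem lap_eq_sum (b : OrthonormalBasis ι ℝ V) (hf : ContDiff ℝ 2 f) (x : V) :
    lap f x = ∑ i, fderiv ℝ (fun y => fderiv ℝ f y (b i)) x (b i) := by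
  unfold AS.lap
  rw [tr_eq_sum b]
  exact Finset.sum_congr rfl fun i _ => inner_fderiv_gradient hf x _ _

theorem lap_eq_sum' (b : OrthonormalBasis ι ℝ V) (hf : ContDiff ℝ 2 f) (x : V) :
    lap f x = ∑ i, fderiv ℝ (fun y => fderiv ℝ f y (b i)) x (b i) := lap_eq_sum b hf x

omit [FiniteDimensional ℝ V] in
theorem fderiv_fderiv_symm (hf : ContDiff ℝ 2 f) (x v w : V) :
    fderiv ℝ (fun y => fderiv ℝ f y w) x v = fderiv ℝ (fun y => fderiv ℝ f y v) x w := by
  have hd : DifferentiableAt ℝ (fderiv ℝ f) x :=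
    (hf.fderiv_right (m := 1) le_rfl).differentiable one_ne_zero x
  rw [fderiv_clm_apply hd (differentiableAt_const w), fderiv_clm_apply hd (differentiableAt_const v)]
  simpa using (hf.contDiffAt.isSymmSndFDerivAt (by simp)).eq v w

theorem continuous_lap (hf : ContDiff ℝ 2 f) : Continuous (lap f) := by
  rw [funext (lap_eq_sum (stdOrthonormalBasis ℝ V) hf)]
  exact continuous_finsetSum _ fun i _ =>
    ((contDiff_fderiv_apply hf _).continuous_fderiv one_ne_zero).clm_apply continuous_const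

theorem lap_add (hf : ContDiff ℝ 2 f) (hg : ContDiff ℝ 2 g) (x : V) :
    lap (fun y => f y + g y) x = lap f x + lap g x := by
  rw [lap_eq_sum (stdOrthonormalBasis ℝ V) (hf.add hg), lap_eq_sum (stdOrthonormalBasis ℝ V) hf,
    lap_eq_sum (stdOrthonormalBasis ℝ V) hg, ← Finset.sum_add_distrib]
  refine Finset.sum_congr rfl fun i _ => ?_
  simp only [fderiv_fun_add (hf.differentiable two_ne_zero _) (hg.differentiable two_ne_zero _),
    add_apply]
  rw [fderiv_fun_add ((contDiff_fderiv_apply hf _).differentiable one_ne_zero x)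
    ((contDiff_fderiv_apply hg _).differentiable one_ne_zero x), add_apply]

theorem lap_const_mul (hf : ContDiff ℝ 2 f) (c : ℝ) (x : V) :
    lap (fun y => c * f y) x = c * lap f x := by
  rw [lap_eq_sum (stdOrthonormalBasis ℝ V) (contDiff_const.mul hf),
    lap_eq_sum (stdOrthonormalBasis ℝ V) hf, Finset.mul_sum]
  refine Finset.sum_congr rfl fun i _ => ?_
  simp only [fderiv_const_mul (hf.differentiable two_ne_zero _), smul_apply,
    smul_eq_mul]
  rw [fderiv_const_mul ((contDiff_fderiv_apply hf _).differentiable one_ne_zero x),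
    smul_apply, smul_eq_mul]

theorem lap_sub (hf : ContDiff ℝ 2 f) (hg : ContDiff ℝ 2 g) (x : V) :
    lap (fun y => f y - g y) x = lap f x - lap g x := by
  have h : (fun y => f y - g y) = fun y => f y + (-1) * g y := by funext y; ring
  rw [h, lap_add hf (contDiff_const.mul hg), lap_const_mul hg]; ring

theorem lap_const (c : ℝ) (x : V) : lap (fun _ : V => c) x = 0 := by
  rw [lap_eq_sum (stdOrthonormalBasis ℝ V) contDiff_const]; simp

theorem lap_sum {κ : Type*} (S : Finset κ) {F : κ → V → ℝ} (h : ∀ i ∈ S, ContDiff ℝ 2 (F i))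
    (x : V) : lap (fun y => ∑ i ∈ S, F i y) x = ∑ i ∈ S, lap (F i) x := by
  classical
  induction S using Finset.induction_on with
  | empty => simpa using lap_const 0 x
  | insert a S ha ih =>
    simp only [Finset.sum_insert ha]
    have h' : ∀ i ∈ S, ContDiff ℝ 2 (F i) := fun i hi => h i (Finset.mem_insert_of_mem hi)
    rw [lap_add (h a (Finset.mem_insert_self _ _)) (ContDiff.sum h'), ih h']

theorem sum_fderiv_mul (b : OrthonormalBasis ι ℝ V) (f g : V → ℝ) (x : V) :
    ∑ i, fderiv ℝ f x (b i) * fderiv ℝ g x (b i) = ⟪gradient f x, gradient g x⟫ := by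
  rw [← b.sum_inner_mul_inner]
  refine Finset.sum_congr rfl fun i _ => ?_
  rw [inner_gradient_left, real_inner_comm, inner_gradient_left]

omit [FiniteDimensional ℝ V] in
theorem fderiv_mul_apply (hf : ContDiff ℝ 1 f) (hg : ContDiff ℝ 1 g) (x e : V) :
    fderiv ℝ (fun y => f y * g y) x e = fderiv ℝ f x e * g x + f x * fderiv ℝ g x e := by
  rw [fderiv_fun_mul (hf.differentiable one_ne_zero x) (hg.differentiable one_ne_zero x)]
  simp; ring

theorem lap_mul (hf : ContDiff ℝ 2 f) (hg : ContDiff ℝ 2 g) (x : V) :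
    lap (fun y => f y * g y) x =
      lap f x * g x + 2 * ⟪gradient f x, gradient g x⟫ + f x * lap g x := by
  have hf1 : ContDiff ℝ 1 f := hf.of_le one_le_two
  have hg1 : ContDiff ℝ 1 g := hg.of_le one_le_two
  rw [lap_eq_sum (stdOrthonormalBasis ℝ V) (hf.mul hg), lap_eq_sum (stdOrthonormalBasis ℝ V) hf,
    lap_eq_sum (stdOrthonormalBasis ℝ V) hg, ← sum_fderiv_mul (stdOrthonormalBasis ℝ V),
    Finset.sum_mul, Finset.mul_sum, Finset.mul_sum, ← Finset.sum_add_distrib,
    ← Finset.sum_add_distrib]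
  refine Finset.sum_congr rfl fun i _ => ?_
  simp only [fderiv_mul_apply hf1 hg1]
  have a1 := contDiff_fderiv_apply hf (stdOrthonormalBasis ℝ V i)
  have a2 := contDiff_fderiv_apply hg (stdOrthonormalBasis ℝ V i)
  rw [fderiv_fun_add ((a1.mul hg1).differentiable one_ne_zero x)
    ((hf1.mul a2).differentiable one_ne_zero x), add_apply,
    fderiv_mul_apply a1 hg1, fderiv_mul_apply hf1 a2]
  ring

omit [FiniteDimensional ℝ V] in
theorem sum_inner_mul_apply (b : OrthonormalBasis ι ℝ V) (l : V →L[ℝ] ℝ) (z : V) :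
    ∑ i, ⟪z, b i⟫ * l (b i) = l z := by
  conv_rhs => rw [← b.sum_repr' z]
  simp [map_sum, real_inner_comm]

end algebra

variable [MeasurableSpace V] [BorelSpace V]

theorem lap_P (hf : BM f) (ht : 0 < t) (x : V) : lap (P t f) x = Cv (dG t) f x := by
  rw [lap_eq_sum (stdOrthonormalBasis ℝ V) (contDiff_P_two hf ht),
    Cv_dG_eq_sum (stdOrthonormalBasis ℝ V) hf ht]
  exact Finset.sum_congr rfl fun i _ => fderiv_fderiv_P hf ht _ _ _

theorem lap_P_fun (hf : BM f) (ht : 0 < t) : lap (P t f) = Cv (dG t) f := funext (lap_P hf ht)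

theorem hasDerivAt_P_lap (hf : BM f) (ht : 0 < t) (x : V) :
    HasDerivAt (fun s => P s f x) (lap (P t f) x) t := by
  rw [lap_P hf ht]; exact hasDerivAt_P hf ht x

theorem BM.lap_P (hf : BM f) (ht : 0 < t) : BM (lap (HK.P t f)) := by
  rw [lap_P_fun hf ht]; exact hf.cv (ker_dG ht)

theorem LI.lap_P (hf : LI f) (ht : 0 < t) : LI (lap (HK.P t f)) := by
  rw [lap_P_fun hf.bm ht]; exact hf.cv (ker_dG ht)

theorem abs_lap_P_le (hf : BM f) (hg : BM g) (h : ∀ y, |f y| ≤ g y) (ht : 0 < t) (x : V) :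
    |lap (P t f) x| ≤ (2 + hd V) * 2 ^ hd V / t * P (2 * t) g x := by
  rw [lap_P hf ht]; exact abs_Cv_dG_le hg h ht x

theorem P_lap_P (hf : BM f) (hs : 0 < s) (ht : 0 < t) (x : V) :
    P s (lap (P t f)) x = lap (P (s + t) f) x := by
  rw [lap_P_fun hf ht, lap_P hf (by positivity), Cv_dG_add' hf hs ht]

omit [FiniteDimensional ℝ V] [BorelSpace V] in
theorem C1b.mul (hf : C1b f) (hg : C1b g) : C1b (fun y => f y * g y) := by
  obtain ⟨A, hA0, hA⟩ := hf.bm.bdd'
  obtain ⟨B, hB0, hB⟩ := hg.bm.bdd'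
  obtain ⟨C, hC⟩ := hf.db
  obtain ⟨D, hD⟩ := hg.db
  refine ⟨hf.bm.mul hg.bm, hf.cd.mul hg.cd, A * D + B * C, fun y => ?_⟩
  rw [fderiv_fun_mul (hf.cd.differentiable one_ne_zero y) (hg.cd.differentiable one_ne_zero y)]
  refine (norm_add_le _ _).trans (add_le_add ?_ ?_)
  · rw [norm_smul]; exact mul_le_mul (hA y) (hD y) (norm_nonneg _) hA0
  · rw [norm_smul]; exact mul_le_mul (hB y) (hC y) (norm_nonneg _) hB0

omit [FiniteDimensional ℝ V] [BorelSpace V] in
theorem C1b.add (hf : C1b f) (hg : C1b g) : C1b (fun y => f y + g y) := by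
  obtain ⟨C, hC⟩ := hf.db
  obtain ⟨D, hD⟩ := hg.db
  refine ⟨hf.bm.add hg.bm, hf.cd.add hg.cd, C + D, fun y => ?_⟩
  rw [fderiv_fun_add (hf.cd.differentiable one_ne_zero y) (hg.cd.differentiable one_ne_zero y)]
  exact (norm_add_le _ _).trans (add_le_add (hC y) (hD y))

omit [FiniteDimensional ℝ V] [BorelSpace V] in
theorem C1b.const (c : ℝ) : C1b (fun _ : V => c) :=
  ⟨BM.const c, contDiff_const, 0, fun y => by simp⟩

omit [FiniteDimensional ℝ V] [BorelSpace V] in
theorem C1b.sub (hf : C1b f) (hg : C1b g) : C1b (fun y => f y - g y) := by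
  obtain ⟨C, hC⟩ := hf.db
  obtain ⟨D, hD⟩ := hg.db
  refine ⟨hf.bm.sub hg.bm, hf.cd.sub hg.cd, C + D, fun y => ?_⟩
  rw [fderiv_fun_sub (hf.cd.differentiable one_ne_zero y) (hg.cd.differentiable one_ne_zero y)]
  exact (norm_sub_le _ _).trans (add_le_add (hC y) (hD y))

/-- `C²` functions, bounded with bounded first and second derivatives -/
structure C2b (f : V → ℝ) : Prop where
  c1 : C1b f
  cd : ContDiff ℝ 2 f
  d1 : ∀ e, C1b (fun y => fderiv ℝ f y e)

omit [FiniteDimensional ℝ V] in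
theorem C2b.of_compact (hf : ContDiff ℝ 2 f) (hc : HasCompactSupport f) : C2b f :=
  ⟨C1b.of_compact (hf.of_le one_le_two) hc, hf, fun e =>
    C1b.of_compact (contDiff_fderiv_apply hf e) (hc.fderiv_apply ℝ e)⟩

theorem C2b.bm_lap (hf : C2b f) : BM (lap f) := by
  rw [funext (lap_eq_sum (stdOrthonormalBasis ℝ V) hf.cd)]
  exact BM.sum _ fun i _ => (hf.d1 _).bm_apply _

theorem BM.c1b_Cv_K1 (hf : BM f) (ht : 0 < t) (e : V) : C1b (Cv (K1 t e) f) := by
  have h : Cv (K1 t e) f = HK.P (t / 2) (Cv (K1 (t / 2) e) f) := by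
    funext x; rw [← Cv_K1_add' hf (half_pos ht) (half_pos ht), add_halves]
  rw [h]; exact (hf.cv (ker_K1 (half_pos ht) e)).c1b_P (half_pos ht)

theorem BM.c2b_P (hf : BM f) (ht : 0 < t) : C2b (HK.P t f) :=
  ⟨hf.c1b_P ht, contDiff_P_two hf ht, fun e => by
    rw [fderiv_P_fun hf ht]; exact hf.c1b_Cv_K1 ht e⟩

theorem fderiv_P_eq_P (hf : BM f) (hs : 0 < s) (ht : 0 < t) (e : V) :
    (fun x => fderiv ℝ (P (s + t) f) x e) = P s (fun x => fderiv ℝ (P t f) x e) := by
  rw [fderiv_P_fun hf (by positivity), fderiv_P_fun hf ht]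
  exact funext (Cv_K1_add' hf hs ht e)

theorem lap_P_eq_P (hf : BM f) (hs : 0 < s) (ht : 0 < t) :
    lap (P (s + t) f) = P s (lap (P t f)) := funext fun x => (P_lap_P hf hs ht x).symm

theorem Cv_K2_of_c1b (hf : C1b f) (ht : 0 < t) (e e' x : V) :
    Cv (K2 t e e') f x = Cv (K1 t e') (fun y => fderiv ℝ f y e) x := by
  rw [← fderiv_fderiv_P hf.bm ht, funext fun y => fderiv_P_comm hf ht y e,
    fderiv_P (hf.bm_apply e) ht]

/-- `P` commutes with the Laplacian -/
theorem lap_P_comm (hf : C2b f) (ht : 0 < t) (x : V) : lap (P t f) x = P t (lap f) x := by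
  rw [lap_P hf.c1.bm ht, Cv_dG_eq_sum (stdOrthonormalBasis ℝ V) hf.c1.bm ht,
    funext (lap_eq_sum (stdOrthonormalBasis ℝ V) hf.cd),
    P_sum _ (fun i _ => (hf.d1 _).bm_apply _) ht]
  refine Finset.sum_congr rfl fun i _ => ?_
  rw [Cv_K2_of_c1b hf.c1 ht, P_fderiv (hf.d1 _) ht]

/-- divergence-form kernel acting on a field of covectors -/
theorem sum_Cv_K1 {ι : Type*} [Fintype ι] (b : OrthonormalBasis ι ℝ V) {F : V → V →L[ℝ] ℝ}
    (hF : ∀ e, BM (fun y => F y e)) (ht : 0 < t) (x : V) :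
    ∑ i, Cv (K1 t (b i)) (fun y => F y (b i)) x =
      ∫ y, G t (y - x) / (2 * t) * F y (y - x) := by
  unfold Cv
  rw [← integral_finsetSum _ fun i _ => (ker_K1 ht (b i)).int_cv (hF _) x]
  congr 1; funext y
  rw [← sum_inner_mul_apply b (F y) (y - x), Finset.mul_sum]
  refine Finset.sum_congr rfl fun i _ => ?_
  unfold K1; ring

theorem abs_sum_Cv_K1_le {ι : Type*} [Fintype ι] (b : OrthonormalBasis ι ℝ V)
    {F : V → V →L[ℝ] ℝ} (hF : ∀ e, BM (fun y => F y e)) (hg : BM g) (h : ∀ y, ‖F y‖ ≤ g y)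
    (ht : 0 < t) (x : V) :
    |∑ i, Cv (K1 t (b i)) (fun y => F y (b i)) x| ≤ 3 * 2 ^ hd V / √t * P (2 * t) g x := by
  rw [sum_Cv_K1 b hF ht]
  refine abs_integral_le_P hg (by positivity) fun y => ?_
  have h1 := norm_fderiv_G_le ht (y - x)
  rw [(hasFDerivAt_G ht (y - x)).fderiv, norm_smul, innerSL_apply_norm, norm_neg] at h1
  have h2 : |F y (y - x)| ≤ g y * ‖y - x‖ :=
    ((F y).le_opNorm _).trans (mul_le_mul_of_nonneg_right (h y) (norm_nonneg _))
  have h3 : 0 ≤ g y := (norm_nonneg _).trans (h y)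
  rw [abs_mul, ← Real.norm_eq_abs (G t (y - x) / (2 * t))]
  calc _ ≤ ‖G t (y - x) / (2 * t)‖ * (g y * ‖y - x‖) := by gcongr
    _ = ‖G t (y - x) / (2 * t)‖ * ‖y - x‖ * g y := by ring
    _ ≤ 3 * 2 ^ hd V / √t * G (2 * t) (y - x) * g y := by gcongr
    _ = _ := by ring

theorem abs_Cv_dG_le_grad (hf : C1b f) (ht : 0 < t) (x : V) :
    |Cv (dG t) f x| ≤ 3 * 2 ^ hd V / √t * P (2 * t) (fun y => ‖fderiv ℝ f y‖) x := by
  rw [Cv_dG_eq_sum (stdOrthonormalBasis ℝ V) hf.bm ht]
  simp only [Cv_K2_of_c1b hf ht]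
  exact abs_sum_Cv_K1_le _ hf.bm_apply hf.bm_norm (fun _ => le_rfl) ht x

/-- Green's formula against the heat kernel -/
theorem P_green {φ u : V → ℝ} (hφ : C1b φ) (hu : C2b u) (ht : 0 < t) (x : V) :
    P t (fun y => φ y * lap u y) x + P t (fun y => ⟪gradient φ y, gradient u y⟫) x =
      ∫ y, G t (y - x) / (2 * t) * (φ y * fderiv ℝ u y (y - x)) := by
  set b := stdOrthonormalBasis ℝ V
  have h := sum_Cv_K1 b (F := fun y => φ y • fderiv ℝ u y)
    (fun e => hφ.bm.mul (hu.c1.bm_apply e)) ht x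
  simp only [smul_apply, smul_eq_mul] at h
  rw [← h]
  simp only [← P_fderiv (hφ.mul (hu.d1 _)) ht, fderiv_mul_apply hφ.cd (hu.d1 _).cd,
    ← sum_fderiv_mul b, lap_eq_sum b hu.cd, Finset.mul_sum]
  rw [P_sum _ (fun i _ => hφ.bm.mul ((hu.d1 _).bm_apply _)) ht,
    P_sum _ (fun i _ => (hφ.bm_apply _).mul (hu.c1.bm_apply _)) ht, ← Finset.sum_add_distrib]
  refine Finset.sum_congr rfl fun i _ => ?_
  rw [P_add ((hφ.bm_apply _).mul (hu.c1.bm_apply _)) (hφ.bm.mul ((hu.d1 _).bm_apply _)) ht,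
    add_comm]

theorem abs_P_green_le {φ u : V → ℝ} (hφ : C1b φ) (hu : C2b u) (ht : 0 < t) (x : V) :
    |P t (fun y => φ y * lap u y) x + P t (fun y => ⟪gradient φ y, gradient u y⟫) x| ≤
      3 * 2 ^ hd V / √t * P (2 * t) (fun y => |φ y| * ‖fderiv ℝ u y‖) x := by
  have h := sum_Cv_K1 (stdOrthonormalBasis ℝ V) (F := fun y => φ y • fderiv ℝ u y)
    (fun e => hφ.bm.mul (hu.c1.bm_apply e)) ht x
  have h2 := abs_sum_Cv_K1_le (stdOrthonormalBasis ℝ V) (F := fun y => φ y • fderiv ℝ u y)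
    (fun e => hφ.bm.mul (hu.c1.bm_apply e)) (hφ.bm.abs.mul hu.c1.bm_norm)
    (fun y => by rw [norm_smul, Real.norm_eq_abs]) ht x
  rw [h] at h2
  rw [P_green hφ hu ht]
  simpa only [smul_apply, smul_eq_mul] using h2

/-- integration by parts, compactly supported factor -/
theorem integral_mul_fderiv_compact {φ u : V → ℝ} (hφ : ContDiff ℝ 1 φ) (hc : HasCompactSupport φ)
    (hu : ContDiff ℝ 1 u) (e : V) :
    ∫ x, φ x * fderiv ℝ u x e = -∫ x, fderiv ℝ φ x e * u x := by
  have c1 : Continuous fun x => fderiv ℝ φ x e :=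
    (hφ.continuous_fderiv one_ne_zero).clm_apply continuous_const
  have c2 : Continuous fun x => fderiv ℝ u x e :=
    (hu.continuous_fderiv one_ne_zero).clm_apply continuous_const
  exact integral_mul_fderiv_eq_neg_fderiv_mul_of_integrable
    ((c1.mul hu.continuous).integrable_of_hasCompactSupport (hc.fderiv_apply ℝ e).mul_right)
    ((hφ.continuous.mul c2).integrable_of_hasCompactSupport hc.mul_right)
    ((hφ.continuous.mul hu.continuous).integrable_of_hasCompactSupport hc.mul_right)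
    (fun x _ => hφ.differentiable one_ne_zero x) (fun x _ => hu.differentiable one_ne_zero x)

/-- integration by parts, integrable factor -/
theorem integral_mul_fderiv_int {φ u : V → ℝ} (hφ : ContDiff ℝ 1 φ) (hi : Integrable φ) {e : V}
    (hi' : Integrable fun x => fderiv ℝ φ x e) (hu : C1b u) :
    ∫ x, φ x * fderiv ℝ u x e = -∫ x, fderiv ℝ φ x e * u x :=
  integral_mul_fderiv_eq_neg_fderiv_mul_of_integrable (hu.bm.integrable_mul hi')
    ((hu.bm_apply e).integrable_mul hi) (hu.bm.integrable_mul hi)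
    (fun x _ => hφ.differentiable one_ne_zero x) (fun x _ => hu.cd.differentiable one_ne_zero x)

/-- Green's formula -/
theorem integral_mul_lap_compact {φ u : V → ℝ} (hφ : ContDiff ℝ 1 φ) (hc : HasCompactSupport φ)
    (hu : ContDiff ℝ 2 u) :
    ∫ x, φ x * lap u x = -∫ x, ⟪gradient φ x, gradient u x⟫ := by
  set b := stdOrthonormalBasis ℝ V
  have c1 : ∀ e, Continuous fun x => fderiv ℝ φ x e := fun e =>
    (hφ.continuous_fderiv one_ne_zero).clm_apply continuous_const
  simp only [lap_eq_sum b hu, ← sum_fderiv_mul b, Finset.mul_sum]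
  rw [integral_finsetSum, integral_finsetSum, ← Finset.sum_neg_distrib]
  · exact Finset.sum_congr rfl fun i _ =>
      integral_mul_fderiv_compact hφ hc (contDiff_fderiv_apply hu _) _
  · exact fun i _ => ((c1 _).mul (contDiff_fderiv_apply hu _).continuous
      ).integrable_of_hasCompactSupport (hc.fderiv_apply ℝ _).mul_right
  · exact fun i _ => (hφ.continuous.mul (((contDiff_fderiv_apply hu _).continuous_fderiv
      one_ne_zero).clm_apply continuous_const)).integrable_of_hasCompactSupport hc.mul_right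

end Pool.Agent.Lib.MP_8daebb_an.HK
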